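import Pool.Agent.ANC.St

/-!
# ANC: nilpotent functions on a product of schemes
-/

set_option autoImplicit false

namespace Pool.Agent.ANC

open MvPolynomial

/-- Every polynomial is a finite sum of products. -/
theorem prt_dec {υ σ τ : Type} (F : MvPolynomial (υ ⊕ (σ ⊕ τ)) ℂ) :
    ∃ (κ : Type) (_ : Fintype κ) (p : κ → MvPolynomial υ ℂ) (f : κ → MvPolynomial σ ℂ)
      (g : κ → MvPolynomial τ ℂ), F = ∑ k, rename Sum.inl (p k) *
        rename (fun s => Sum.inr (Sum.inl s)) (f k) *
        rename (fun s => Sum.inr (Sum.inr s)) (g k) := by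
  induction F using MvPolynomial.induction_on with
  | C c =>
    refine ⟨Unit, inferInstance, fun _ => C c, fun _ => 1, fun _ => 1, ?_⟩
    simp
  | add p q hp hq =>
    obtain ⟨κ, _, p1, f1, g1, h1⟩ := hp
    obtain ⟨κ', _, p2, f2, g2, h2⟩ := hq
    refine ⟨κ ⊕ κ', inferInstance, Sum.elim p1 p2, Sum.elim f1 f2, Sum.elim g1 g2, ?_⟩
    rw [Fintype.sum_sum_type, h1, h2]
    simp only [Sum.elim_inl, Sum.elim_inr]
  | mul_X p i hp =>
    obtain ⟨κ, _, p1, f1, g1, h1⟩ := hp
    rcases i with v | s | t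
    · refine ⟨κ, inferInstance, fun k => p1 k * X v, f1, g1, ?_⟩
      rw [h1, Finset.sum_mul]
      refine Finset.sum_congr rfl fun k _ => ?_
      rw [map_mul, rename_X]
      ring
    · refine ⟨κ, inferInstance, p1, fun k => f1 k * X s, g1, ?_⟩
      rw [h1, Finset.sum_mul]
      refine Finset.sum_congr rfl fun k _ => ?_
      rw [map_mul, rename_X]
      ring
    · refine ⟨κ, inferInstance, p1, f1, fun k => g1 k * X t, ?_⟩
      rw [h1, Finset.sum_mul]
      refine Finset.sum_congr rfl fun k _ => ?_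
      rw [map_mul, rename_X]
      ring

/-- Finitely many vectors modulo a subspace. -/
theorem prt_lin {V : Type} [AddCommGroup V] [Module ℂ V] (K : Submodule ℂ V) {κ : Type}
    [Fintype κ] (f : κ → V) : ∃ (r : ℕ) (e : Fin r → V) (c : κ → Fin r → ℂ),
      (∀ k, f k - ∑ i, c k i • e i ∈ K) ∧
      ∀ x : Fin r → ℂ, ∑ i, x i • e i ∈ K → x = 0 := by
  let W : Submodule ℂ (V ⧸ K) := Submodule.span ℂ (Set.range fun k => K.mkQ (f k))
  have : FiniteDimensional ℂ W := FiniteDimensional.span_of_finite ℂ (Set.finite_range _)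
  let b := Module.finBasis ℂ W
  have hsur : ∀ i, ∃ v : V, K.mkQ v = (b i : V ⧸ K) := fun i => K.mkQ_surjective _
  choose e he using hsur
  have hmem : ∀ k, K.mkQ (f k) ∈ W := fun k => Submodule.subset_span ⟨k, rfl⟩
  have hker : ∀ v : V, K.mkQ v = 0 ↔ v ∈ K := fun v => by
    rw [← LinearMap.mem_ker, Submodule.ker_mkQ]
  refine ⟨Module.finrank ℂ W, e, fun k i => b.repr ⟨K.mkQ (f k), hmem k⟩ i, ?_, ?_⟩
  · intro k
    rw [← hker, map_sub, map_sum]
    simp only [map_smul, he]
    have h1 := b.sum_repr ⟨K.mkQ (f k), hmem k⟩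
    have h2 := congrArg (fun w : W => (w : V ⧸ K)) h1
    simp only [Submodule.coe_sum, Submodule.coe_smul] at h2
    rw [h2, sub_self]
  · intro x hx
    rw [← hker, map_sum] at hx
    simp only [map_smul, he] at hx
    have h1 : ∑ i, x i • b i = 0 := by
      apply Subtype.ext
      simp only [Submodule.coe_sum, Submodule.coe_smul, Submodule.coe_zero]
      exact hx
    have h2 := Fintype.linearIndependent_iff.mp b.linearIndependent x h1
    funext i
    exact h2 i

/-- The functions which are in `I` near `a`. -/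
def prt_K {σ : Type} (I : Ideal (MvPolynomial σ ℂ)) (a : σ → ℂ) :
    Submodule ℂ (MvPolynomial σ ℂ) where
  carrier := {f | ∃ g, eval a g ≠ 0 ∧ g * f ∈ I}
  zero_mem' := ⟨1, by simp, by rw [mul_zero]; exact I.zero_mem⟩
  add_mem' := by
    rintro f₁ f₂ ⟨g₁, h₁, m₁⟩ ⟨g₂, h₂, m₂⟩
    refine ⟨g₁ * g₂, ?_, ?_⟩
    · rw [map_mul]
      exact mul_ne_zero h₁ h₂
    · have e : g₁ * g₂ * (f₁ + f₂) = g₂ * (g₁ * f₁) + g₁ * (g₂ * f₂) := by ring
      rw [e]
      exact I.add_mem (I.mul_mem_left _ m₁) (I.mul_mem_left _ m₂)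
  smul_mem' := by
    rintro c f ⟨g, h, m⟩
    refine ⟨g, h, ?_⟩
    rw [mul_smul_comm, MvPolynomial.smul_eq_C_mul]
    exact I.mul_mem_left _ m

/-- The specialization. -/
noncomputable def prt_sp {υ σ τ : Type} (u : υ → ℂ) (b : τ → ℂ) :
    MvPolynomial (υ ⊕ (σ ⊕ τ)) ℂ →ₐ[ℂ] MvPolynomial σ ℂ :=
  aeval (Sum.elim (fun v => C (u v)) (Sum.elim X (fun t => C (b t))))

theorem prt_C {υ σ : Type} (u : υ → ℂ) (p : MvPolynomial υ ℂ) :
    aeval (fun v => (C (u v) : MvPolynomial σ ℂ)) p = C (eval u p) := by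
  induction p using MvPolynomial.induction_on with
  | C c => rw [aeval_C, eval_C]; rfl
  | add p q hp hq => rw [map_add, hp, hq, map_add, map_add]
  | mul_X p i hp => rw [map_mul, hp, aeval_X, map_mul, eval_X, map_mul]

theorem prt_sp_U {υ σ τ : Type} (u : υ → ℂ) (b : τ → ℂ) (p : MvPolynomial υ ℂ) :
    prt_sp (σ := σ) u b (rename Sum.inl p) = C (eval u p) := by
  unfold prt_sp
  rw [aeval_rename, ← prt_C]
  rfl

theorem prt_sp_A {υ σ τ : Type} (u : υ → ℂ) (b : τ → ℂ) (f : MvPolynomial σ ℂ) :
    prt_sp u b (rename (fun s => Sum.inr (Sum.inl s)) f) = f := by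
  unfold prt_sp
  rw [aeval_rename]
  conv_rhs => rw [← aeval_X_left_apply f]
  rfl

theorem prt_sp_B {υ σ τ : Type} (u : υ → ℂ) (b : τ → ℂ) (g : MvPolynomial τ ℂ) :
    prt_sp (σ := σ) u b (rename (fun s => Sum.inr (Sum.inr s)) g) = C (eval b g) := by
  unfold prt_sp
  rw [aeval_rename, ← prt_C]
  rfl

theorem prt_ev {τ : Type} (b : τ → ℂ) (h : MvPolynomial τ ℂ) : aeval b h = eval b h := by
  rw [← MvPolynomial.coe_aeval_eq_eval]
  rfl

theorem thm_PrT : St_PrT := by
  classical
  intro υ σ τ _ _ _ I J a b hI hJ F hF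
  obtain ⟨κ, _, p, f, g, hdec⟩ := prt_dec F
  obtain ⟨r, e, c, hc, he⟩ := prt_lin (prt_K I a) f
  obtain ⟨s, q, d, hd, hq⟩ := prt_lin (⊥ : Submodule ℂ (MvPolynomial υ ℂ)) p
  have hd' : ∀ k, p k = ∑ j, d k j • q j := by
    intro k
    have := hd k
    rw [Submodule.mem_bot, sub_eq_zero] at this
    exact this
  let G : Fin r → Fin s → MvPolynomial τ ℂ := fun i j => ∑ k, (c k i * d k j) • g k
  -- the specializations are in the local ideal
  have hsp : ∀ (u : υ → ℂ) (b' : τ → ℂ), (∀ h ∈ J, eval b' h = 0) →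
      prt_sp u b' F ∈ prt_K I a := by
    intro u b' hb'
    apply hI
    obtain ⟨m, hm⟩ := hF
    refine ⟨m, ?_⟩
    have hle : I.map (MvPolynomial.rename (fun s => Sum.inr (Sum.inl s)) :
        MvPolynomial σ ℂ →ₐ[ℂ] MvPolynomial (υ ⊕ (σ ⊕ τ)) ℂ) ⊔
        J.map (MvPolynomial.rename (fun s => Sum.inr (Sum.inr s)) :
        MvPolynomial τ ℂ →ₐ[ℂ] MvPolynomial (υ ⊕ (σ ⊕ τ)) ℂ) ≤ I.comap (prt_sp u b') := by
      rw [sup_le_iff, Ideal.map_le_iff_le_comap, Ideal.map_le_iff_le_comap]
      constructor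
      · intro x hx
        rw [Ideal.mem_comap, Ideal.mem_comap, prt_sp_A]
        exact hx
      · intro x hx
        rw [Ideal.mem_comap, Ideal.mem_comap, prt_sp_B, hb' x hx, map_zero]
        exact I.zero_mem
    have h1 := hle hm
    rw [Ideal.mem_comap, map_pow] at h1
    exact h1
  -- the coefficients are in the local ideal of `J`
  have hG : ∀ i j, G i j ∈ prt_K J b := by
    intro i j
    apply hJ
    have hrad : G i j ∈ J.radical := by
      rw [← MvPolynomial.vanishingIdeal_zeroLocus_eq_radical (K := ℂ) J,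
        MvPolynomial.mem_vanishingIdeal_iff]
      intro b' hb'
      rw [MvPolynomial.mem_zeroLocus_iff] at hb'
      have hb2 : ∀ h ∈ J, eval b' h = 0 := by
        intro h hh
        have := hb' h hh
        rwa [prt_ev] at this
      have hu : ∀ u : υ → ℂ, ∀ i, ∑ k, (eval u (p k) * eval b' (g k)) * c k i = 0 := by
        intro u
        have h1 := hsp u b' hb2
        rw [hdec, map_sum] at h1
        simp only [map_mul, prt_sp_U, prt_sp_A, prt_sp_B] at h1
        have h2 : ∑ k, (eval u (p k) * eval b' (g k)) • (f k - ∑ i, c k i • e i) ∈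
            prt_K I a := Submodule.sum_mem _ fun k _ => Submodule.smul_mem _ _ (hc k)
        have h3 := Submodule.sub_mem _ h1 h2
        have h4 : (∑ k, C (eval u (p k)) * f k * C (eval b' (g k))) -
            ∑ k, (eval u (p k) * eval b' (g k)) • (f k - ∑ i, c k i • e i) =
            ∑ i, (∑ k, (eval u (p k) * eval b' (g k)) * c k i) • e i := by
          rw [← Finset.sum_sub_distrib]
          simp only [Finset.sum_smul]
          rw [Finset.sum_comm]
          refine Finset.sum_congr rfl fun k _ => ?_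
          rw [smul_sub, Finset.smul_sum]
          simp only [smul_smul]
          have h5 : C (eval u (p k)) * f k * C (eval b' (g k)) =
              (eval u (p k) * eval b' (g k)) • f k := by
            rw [MvPolynomial.smul_eq_C_mul, map_mul]
            ring
          rw [h5, sub_sub_cancel]
        rw [h4] at h3
        have h6 := he _ h3
        intro i
        exact congrFun h6 i
      have hpol : ∑ k, (eval b' (g k) * c k i) • p k = 0 := by
        apply MvPolynomial.funext
        intro u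
        rw [map_sum, map_zero, ← hu u i]
        refine Finset.sum_congr rfl fun k _ => ?_
        rw [MvPolynomial.smul_eval]
        ring
      have hpol2 : ∑ j, (∑ k, eval b' (g k) * c k i * d k j) • q j = 0 := by
        rw [← hpol]
        simp only [Finset.sum_smul]
        rw [Finset.sum_comm]
        refine Finset.sum_congr rfl fun k _ => ?_
        rw [hd' k, Finset.smul_sum]
        simp only [smul_smul]
      have h7 := congrFun (hq _ (by rw [hpol2]; exact Submodule.zero_mem _)) j
      rw [prt_ev, map_sum]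
      rw [Pi.zero_apply] at h7
      rw [← h7]
      refine Finset.sum_congr rfl fun k _ => ?_
      rw [MvPolynomial.smul_eval]
      ring
    exact hrad
  choose gk hgk1 hgk2 using hc
  choose hk hhk1 hhk2 using hG
  refine ⟨∏ k, gk k, ∏ i, ∏ j, hk i j, ?_, ?_, ?_⟩
  · rw [map_prod]
    exact Finset.prod_ne_zero_iff.mpr fun k _ => hgk1 k
  · simp only [map_prod]
    exact Finset.prod_ne_zero_iff.mpr fun i _ => Finset.prod_ne_zero_iff.mpr fun j _ => hhk1 i j
  · have hsum : F = ∑ k, rename Sum.inl (p k) *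
          rename (fun s => Sum.inr (Sum.inl s)) (f k - ∑ i, c k i • e i) *
          rename (fun s => Sum.inr (Sum.inr s)) (g k) +
        ∑ i, ∑ j, rename (fun s => Sum.inr (Sum.inl s)) (e i) * rename Sum.inl (q j) *
          rename (fun s => Sum.inr (Sum.inr s)) (G i j) := by
      have e1 : ∑ i, ∑ j, rename (fun s => Sum.inr (Sum.inl s)) (e i) * rename Sum.inl (q j) *
          rename (fun s => Sum.inr (Sum.inr s)) (G i j) =
          ∑ k, rename Sum.inl (p k) * rename (fun s => Sum.inr (Sum.inl s))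
            (∑ i, c k i • e i) * (rename (fun s => Sum.inr (Sum.inr s)) (g k) :
            MvPolynomial (υ ⊕ (σ ⊕ τ)) ℂ) := by
        have e2 : ∀ k, rename Sum.inl (p k) * rename (fun s => Sum.inr (Sum.inl s))
            (∑ i, c k i • e i) * (rename (fun s => Sum.inr (Sum.inr s)) (g k) :
            MvPolynomial (υ ⊕ (σ ⊕ τ)) ℂ) = ∑ i, ∑ j,
              rename (fun s => Sum.inr (Sum.inl s)) (e i) * rename Sum.inl (q j) *
              ((c k i * d k j) • rename (fun s => Sum.inr (Sum.inr s)) (g k)) := by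
          intro k
          rw [hd' k, map_sum, map_sum]
          simp only [map_smul]
          rw [Finset.sum_mul_sum, Finset.sum_mul, Finset.sum_comm]
          refine Finset.sum_congr rfl fun i _ => ?_
          rw [Finset.sum_mul]
          refine Finset.sum_congr rfl fun j _ => ?_
          simp only [MvPolynomial.smul_eq_C_mul, map_mul]
          ring
        simp only [e2]
        symm
        rw [Finset.sum_comm]
        refine Finset.sum_congr rfl fun i _ => ?_
        rw [Finset.sum_comm]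
        refine Finset.sum_congr rfl fun j _ => ?_
        rw [← Finset.mul_sum, map_sum]
        simp only [map_smul]
      rw [e1, hdec, ← Finset.sum_add_distrib]
      refine Finset.sum_congr rfl fun k _ => ?_
      rw [map_sub]
      ring
    rw [hsum, mul_add]
    refine Ideal.add_mem _ ?_ ?_
    · refine Ideal.mem_sup_left ?_
      rw [Finset.mul_sum]
      refine Ideal.sum_mem _ fun k _ => ?_
      have h1 : (∏ k, gk k) * (f k - ∑ i, c k i • e i) ∈ I := by
        rw [← Finset.mul_prod_erase Finset.univ gk (Finset.mem_univ k)]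
        have e3 : gk k * (∏ x ∈ Finset.univ.erase k, gk x) * (f k - ∑ i, c k i • e i) =
          (∏ x ∈ Finset.univ.erase k, gk x) * (gk k * (f k - ∑ i, c k i • e i)) := by ring
        rw [e3]
        exact I.mul_mem_left _ (hgk2 k)
      have h2 := Ideal.mem_map_of_mem (MvPolynomial.rename (fun s => Sum.inr (Sum.inl s)) :
        MvPolynomial σ ℂ →ₐ[ℂ] MvPolynomial (υ ⊕ (σ ⊕ τ)) ℂ) h1
      rw [map_mul] at h2
      have h3 := Ideal.mul_mem_left _ (rename (fun s => Sum.inr (Sum.inr s)) (∏ i, ∏ j, hk i j) *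
        rename Sum.inl (p k) * rename (fun s => Sum.inr (Sum.inr s)) (g k)) h2
      refine (congrArg (· ∈ _) ?_).mpr h3
      ring
    · refine Ideal.mem_sup_right ?_
      rw [Finset.mul_sum]
      refine Ideal.sum_mem _ fun i _ => ?_
      rw [Finset.mul_sum]
      refine Ideal.sum_mem _ fun j _ => ?_
      have h1 : (∏ i, ∏ j, hk i j) * G i j ∈ J := by
        rw [← Finset.mul_prod_erase Finset.univ _ (Finset.mem_univ i),
          ← Finset.mul_prod_erase Finset.univ _ (Finset.mem_univ j)]
        have e3 : hk i j * (∏ x ∈ Finset.univ.erase j, hk i x) *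
            (∏ x ∈ Finset.univ.erase i, ∏ y, hk x y) * G i j =
          ((∏ x ∈ Finset.univ.erase j, hk i x) * (∏ x ∈ Finset.univ.erase i, ∏ y, hk x y)) *
            (hk i j * G i j) := by ring
        rw [e3]
        exact J.mul_mem_left _ (hhk2 i j)
      have h2 := Ideal.mem_map_of_mem (MvPolynomial.rename (fun s => Sum.inr (Sum.inr s)) :
        MvPolynomial τ ℂ →ₐ[ℂ] MvPolynomial (υ ⊕ (σ ⊕ τ)) ℂ) h1
      rw [map_mul] at h2
      have h3 := Ideal.mul_mem_left _ (rename (fun s => Sum.inr (Sum.inl s)) (∏ k, gk k) *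
        (rename (fun s => Sum.inr (Sum.inl s)) (e i) * rename Sum.inl (q j))) h2
      refine (congrArg (· ∈ _) ?_).mpr h3
      ring

end Pool.Agent.ANC
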