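import Pool.Agent.ANC.St

set_option autoImplicit false

noncomputable section

namespace Pool.Agent.ANC

open Polynomial

theorem alg_adjoin (k L : Type) [Field k] [Field L] [Algebra k L] (σ : Type) (z : σ → L) (e : L)
    (he : e ∈ IntermediateField.adjoin k (Set.range z)) :
    ∃ ℓ : (σ → L) →ₗ[L] L, ∀ δ : Derivation k L L, δ e = ℓ (fun i => δ (z i)) := by
  induction he using IntermediateField.adjoin_induction with
  | mem x hx =>
    obtain ⟨i, rfl⟩ := hx
    exact ⟨LinearMap.proj i, fun δ => rfl⟩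
  | algebraMap x => exact ⟨0, fun δ => by simp⟩
  | add x y _ _ hx hy =>
    obtain ⟨ℓ, h⟩ := hx
    obtain ⟨m, h'⟩ := hy
    exact ⟨ℓ + m, fun δ => by rw [map_add, h, h', LinearMap.add_apply]⟩
  | inv x _ hx =>
    obtain ⟨ℓ, h⟩ := hx
    exact ⟨-(x⁻¹ ^ 2) • ℓ, fun δ => by
      rw [Derivation.leibniz_inv, h, LinearMap.smul_apply]⟩
  | mul x y _ _ hx hy =>
    obtain ⟨ℓ, h⟩ := hx
    obtain ⟨m, h'⟩ := hy
    exact ⟨x • m + y • ℓ, fun δ => by
      rw [Derivation.leibniz, h, h', LinearMap.add_apply, LinearMap.smul_apply, LinearMap.smul_apply]⟩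

theorem alg_poly (k L : Type) [Field k] [Field L] [Algebra k L] (σ : Type) (z : σ → L) (α : L)
    (p : Polynomial (IntermediateField.adjoin k (Set.range z))) :
    ∃ ℓ : (σ → L) →ₗ[L] L, ∀ δ : Derivation k L L,
      δ (aeval α p) = ℓ (fun i => δ (z i)) + aeval α (derivative p) * δ α := by
  induction p using Polynomial.induction_on' with
  | add p q hp hq =>
    obtain ⟨ℓ, h⟩ := hp
    obtain ⟨m, h'⟩ := hq
    exact ⟨ℓ + m, fun δ => by
      rw [map_add, map_add, h, h', LinearMap.add_apply, derivative_add, map_add]; ring⟩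
  | monomial n a =>
    obtain ⟨ℓ, h⟩ := alg_adjoin k L σ z (a : L) a.2
    refine ⟨(α ^ n) • ℓ, fun δ => ?_⟩
    rw [aeval_monomial, Derivation.leibniz, Derivation.leibniz_pow, LinearMap.smul_apply, ← h, derivative_monomial,
      aeval_monomial, map_mul, map_natCast, IntermediateField.algebraMap_apply]
    simp only [smul_eq_mul, nsmul_eq_mul]
    ring

theorem thm_Alg : St_Alg := by
  intro k L _ _ _ _ σ _ z α hα
  obtain ⟨ℓ, h⟩ := alg_poly k L σ z α (minpoly (IntermediateField.adjoin k (Set.range z)) α)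
  have hi : IsIntegral (IntermediateField.adjoin k (Set.range z)) α := hα.isIntegral
  have : CharZero (IntermediateField.adjoin k (Set.range z)) := inferInstance
  have hd : aeval α (derivative (minpoly (IntermediateField.adjoin k (Set.range z)) α)) ≠ 0 :=
    (minpoly.irreducible hi).separable.aeval_derivative_ne_zero (minpoly.aeval _ _)
  refine ⟨-(aeval α (derivative (minpoly (IntermediateField.adjoin k (Set.range z)) α)))⁻¹ • ℓ, fun δ => ?_⟩
  have h1 := h δ
  rw [minpoly.aeval, map_zero] at h1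
  rw [LinearMap.smul_apply, smul_eq_mul]
  field_simp
  linear_combination -h1

end Pool.Agent.ANC

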