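import Pool.Agent.ANC.St

/-!
# ANC, module Bas: splitting off one generalized joint eigenspace

The proof follows the comment of `St_Bas`.
-/

set_option autoImplicit false

noncomputable section

namespace Pool.Agent.ANC

open Matrix Pool.Agent.CTR Module.End

section gen

variable {V V₁ : Type} [AddCommGroup V] [Module ℂ V] [AddCommGroup V₁] [Module ℂ V₁]

/-- Generalized eigenvectors under an injective intertwining map. -/
theorem bas_tr (f : Module.End ℂ V) (f₁ : Module.End ℂ V₁) (φ : V₁ →ₗ[ℂ] V)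
    (hφ : Function.Injective φ) (h : ∀ w, f (φ w) = φ (f₁ w)) (μ : ℂ) (w : V₁) :
    w ∈ f₁.maxGenEigenspace μ ↔ φ w ∈ f.maxGenEigenspace μ := by
  have h1 : ∀ k : ℕ, ∀ w, ((f - μ • (1 : Module.End ℂ V)) ^ k) (φ w) =
      φ (((f₁ - μ • (1 : Module.End ℂ V₁)) ^ k) w) := by
    intro k
    induction k with
    | zero =>
      intro w
      simp
    | succ k ih =>
      intro w
      rw [pow_succ, pow_succ, Module.End.mul_apply, Module.End.mul_apply, ← ih]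
      congr 1
      simp [h]
  rw [mem_maxGenEigenspace, mem_maxGenEigenspace]
  refine exists_congr fun k => ?_
  rw [h1]
  constructor
  · intro h2
    rw [h2, map_zero]
  · intro h2
    exact hφ (by rw [h2, map_zero])

theorem bas_nil (a b : Module.End ℂ V) (hab : Commute a b) (k l : ℕ) (x : V)
    (ha : (a ^ k) x = 0) (hb : (b ^ l) x = 0) : ((a + b) ^ (k + l)) x = 0 := by
  rw [hab.add_pow, LinearMap.sum_apply]
  refine Finset.sum_eq_zero fun m hm => ?_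
  have hm' := Finset.mem_range.1 hm
  have key : (a ^ m * b ^ (k + l - m)) x = 0 := by
    by_cases h1 : k ≤ m
    · rw [(hab.pow_pow m (k + l - m)).eq, Module.End.mul_apply,
        show m = (m - k) + k by omega, pow_add a, Module.End.mul_apply, ha, map_zero, map_zero]
    · rw [Module.End.mul_apply, show k + l - m = (k - m) + l by omega, pow_add b,
        Module.End.mul_apply, hb, map_zero, map_zero]
  rw [← Nat.cast_comm, Module.End.mul_apply, key, map_zero]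

theorem bas_le (f g : Module.End ℂ V) (hfg : Commute f g) (α β t : ℂ) :
    f.maxGenEigenspace α ⊓ g.maxGenEigenspace β ≤ (f + t • g).maxGenEigenspace (α + t * β) := by
  rintro x ⟨hx1, hx2⟩
  obtain ⟨k, hk⟩ := (mem_maxGenEigenspace f α x).1 hx1
  obtain ⟨l, hl⟩ := (mem_maxGenEigenspace g β x).1 hx2
  rw [mem_maxGenEigenspace]
  refine ⟨k + l, ?_⟩
  have h1 : f + t • g - (α + t * β) • (1 : Module.End ℂ V) =
      (f - α • (1 : Module.End ℂ V)) + t • (g - β • (1 : Module.End ℂ V)) := by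
    rw [smul_sub, smul_smul, add_smul]
    abel
  rw [h1]
  refine bas_nil _ _ ?_ k l x hk ?_
  · refine Commute.smul_right ?_ t
    refine Commute.sub_left (Commute.sub_right hfg ?_) (Commute.sub_right ?_ ?_)
    · exact Commute.smul_right (Commute.one_right f) β
    · exact Commute.smul_left (Commute.one_left g) α
    · exact Commute.smul_left (Commute.one_left _) α
  · rw [smul_pow, LinearMap.smul_apply, hl, smul_zero]

theorem bas_top [FiniteDimensional ℂ V] (f g : Module.End ℂ V) (hfg : Commute f g) :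
    ⨆ χ : ℂ × ℂ, f.maxGenEigenspace χ.1 ⊓ g.maxGenEigenspace χ.2 = ⊤ := by
  have h1 := iSup_iInf_maxGenEigenspace_eq_top_of_iSup_maxGenEigenspace_eq_top_of_commute
    (K := ℂ) (M := V) (fun i : Bool => if i then f else g) (by
      intro i j hij
      cases i <;> cases j
      · exact absurd rfl hij
      · exact hfg.symm
      · exact hfg
      · exact absurd rfl hij) (fun i => iSup_maxGenEigenspace_eq_top _)
  rw [eq_top_iff, ← h1]
  refine iSup_le fun χ => ?_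
  refine le_trans ?_ (le_iSup (fun χ : ℂ × ℂ => f.maxGenEigenspace χ.1 ⊓ g.maxGenEigenspace χ.2)
    (χ true, χ false))
  exact le_inf (iInf_le _ true) (iInf_le _ false)

/-- A generic combination separates the joint eigenvalues. -/
theorem bas_t [FiniteDimensional ℂ V] (f g : Module.End ℂ V) :
    ∃ t : ℂ, ∀ α α' β β' : ℂ, f.HasEigenvalue α → f.HasEigenvalue α' → g.HasEigenvalue β →
      g.HasEigenvalue β' → α + t * β = α' + t * β' → α = α' ∧ β = β' := by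
  classical
  have hf := f.finite_hasEigenvalue
  have hg := g.finite_hasEigenvalue
  have hS := ((hf.prod hf).prod (hg.prod hg)).image
    (fun z : (ℂ × ℂ) × (ℂ × ℂ) => (z.1.2 - z.1.1) / (z.2.1 - z.2.2))
  obtain ⟨t, ht⟩ := hS.infinite_compl.nonempty
  refine ⟨t, fun α α' β β' h1 h2 h3 h4 h5 => ?_⟩
  by_cases hβ : β = β'
  · subst hβ
    exact ⟨by linear_combination h5, rfl⟩
  · exfalso
    apply ht
    refine ⟨((α, α'), (β, β')), ⟨⟨h1, h2⟩, ⟨h3, h4⟩⟩, ?_⟩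
    show (α' - α) / (β - β') = t
    rw [div_eq_iff (sub_ne_zero.2 hβ)]
    linear_combination -h5

theorem bas_eig (f : Module.End ℂ V) (α : ℂ) (h : f.maxGenEigenspace α ≠ ⊥) :
    f.HasEigenvalue α :=
  HasUnifEigenvalue.lt zero_lt_one h

/-- The generalized eigenspace of the generic combination. -/
theorem bas_eq [FiniteDimensional ℂ V] (f g : Module.End ℂ V) (hfg : Commute f g) (t : ℂ)
    (ht : ∀ α α' β β' : ℂ, f.HasEigenvalue α → f.HasEigenvalue α' → g.HasEigenvalue β →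
      g.HasEigenvalue β' → α + t * β = α' + t * β' → α = α' ∧ β = β') (α β : ℂ)
    (hne : f.maxGenEigenspace α ⊓ g.maxGenEigenspace β ≠ ⊥) :
    (f + t • g).maxGenEigenspace (α + t * β) =
      f.maxGenEigenspace α ⊓ g.maxGenEigenspace β := by
  refine le_antisymm ?_ (bas_le f g hfg α β t)
  intro x hx
  have hα : f.HasEigenvalue α := bas_eig f α fun h => hne (by rw [h, bot_inf_eq])
  have hβ : g.HasEigenvalue β := bas_eig g β fun h => hne (by rw [h, inf_bot_eq])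
  have h1 : (⊤ : Submodule ℂ V) ≤ (f.maxGenEigenspace α ⊓ g.maxGenEigenspace β) ⊔
      ⨆ μ, ⨆ (_ : μ ≠ α + t * β), (f + t • g).maxGenEigenspace μ := by
    rw [← bas_top f g hfg]
    refine iSup_le fun χ => ?_
    by_cases hb : f.maxGenEigenspace χ.1 ⊓ g.maxGenEigenspace χ.2 = ⊥
    · rw [hb]
      exact bot_le
    by_cases hχ : χ.1 + t * χ.2 = α + t * β
    · have h2 : f.HasEigenvalue χ.1 := bas_eig f _ fun h => hb (by rw [h, bot_inf_eq])
      have h3 : g.HasEigenvalue χ.2 := bas_eig g _ fun h => hb (by rw [h, inf_bot_eq])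
      obtain ⟨h4, h5⟩ := ht _ _ _ _ h2 hα h3 hβ hχ
      rw [h4, h5]
      exact le_sup_left
    · refine le_trans ((bas_le f g hfg χ.1 χ.2 t).trans ?_) le_sup_right
      exact le_iSup₂ (f := fun μ (_ : μ ≠ α + t * β) => (f + t • g).maxGenEigenspace μ)
        (χ.1 + t * χ.2) hχ
  obtain ⟨y, hy, z, hz, hyz⟩ := Submodule.mem_sup.1 (h1 (Submodule.mem_top (x := x)))
  have h2 : z ∈ (f + t • g).maxGenEigenspace (α + t * β) := by
    have h3 := Submodule.sub_mem _ hx (bas_le f g hfg α β t hy)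
    rwa [← hyz, add_sub_cancel_left] at h3
  have h3 := (independent_maxGenEigenspace (f + t • g)) (α + t * β)
  have h4 : z = 0 := Submodule.disjoint_def.1 h3 z h2 hz
  rw [h4, add_zero] at hyz
  rw [← hyz]
  exact hy

/-- The complement. -/
def basU (c : Module.End ℂ V) (γ : ℂ) : Submodule ℂ V :=
  ⨆ μ, ⨆ (_ : μ ≠ γ), c.maxGenEigenspace μ

theorem basU_compl [FiniteDimensional ℂ V] (c : Module.End ℂ V) (γ : ℂ) :
    IsCompl (c.maxGenEigenspace γ) (basU c γ) := by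
  refine ⟨(independent_maxGenEigenspace c) γ, ?_⟩
  rw [codisjoint_iff_le_sup, ← iSup_maxGenEigenspace_eq_top c]
  refine iSup_le fun μ => ?_
  by_cases hμ : μ = γ
  · rw [hμ]
    exact le_sup_left
  · refine le_trans ?_ le_sup_right
    exact le_iSup₂ (f := fun μ (_ : μ ≠ γ) => c.maxGenEigenspace μ) μ hμ

theorem basU_mapsTo (c f : Module.End ℂ V) (h : Commute c f) (γ : ℂ) :
    ∀ x ∈ basU c γ, f x ∈ basU c γ := by
  have h1 : (basU c γ).map f ≤ basU c γ := by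
    unfold basU
    simp_rw [Submodule.map_iSup]
    refine iSup₂_mono fun μ _ => ?_
    rintro - ⟨u, hu, rfl⟩
    exact mapsTo_maxGenEigenspace_of_comm h μ hu
  exact fun x hx => h1 (Submodule.mem_map_of_mem hx)

end gen

/-- The matrix of a block. -/
theorem bas_blk {n n₁ n₂ : ℕ} (e : Fin n ≃ Fin n₁ ⊕ Fin n₂)
    (ψ : (Fin n → ℂ) ≃ₗ[ℂ] (Fin n → ℂ)) (φ₁ : (Fin n₁ → ℂ) →ₗ[ℂ] (Fin n → ℂ))
    (φ₂ : (Fin n₂ → ℂ) →ₗ[ℂ] (Fin n → ℂ))
    (hψ : ∀ w, ψ w = φ₁ ((w ∘ e.symm) ∘ Sum.inl) + φ₂ ((w ∘ e.symm) ∘ Sum.inr))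
    (Q : (Matrix (Fin n) (Fin n) ℂ)ˣ) (hQ : Q.val = LinearMap.toMatrix' ψ.toLinearMap)
    (A : Matrix (Fin n) (Fin n) ℂ) (A₁ : Matrix (Fin n₁) (Fin n₁) ℂ)
    (A₂ : Matrix (Fin n₂) (Fin n₂) ℂ) (h₁ : ∀ w, A *ᵥ (φ₁ w) = φ₁ (A₁ *ᵥ w))
    (h₂ : ∀ w, A *ᵥ (φ₂ w) = φ₂ (A₂ *ᵥ w)) :
    Matrix.reindex e e ((Q⁻¹ : (Matrix (Fin n) (Fin n) ℂ)ˣ).val * A * Q.val) =
      Matrix.fromBlocks A₁ 0 0 A₂ := by
  have hQv : ∀ w, Q.val *ᵥ w = ψ w := by
    intro w
    rw [hQ, ← Matrix.toLin'_apply, Matrix.toLin'_toMatrix']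
    rfl
  have key : A * Q.val = Q.val * (Matrix.fromBlocks A₁ 0 0 A₂).submatrix e e := by
    apply Matrix.toLin'.injective
    refine LinearMap.ext fun w => ?_
    rw [Matrix.toLin'_apply, Matrix.toLin'_apply, ← Matrix.mulVec_mulVec, ← Matrix.mulVec_mulVec,
      hQv, hQv, hψ, hψ, Matrix.mulVec_add, h₁, h₂, Matrix.submatrix_mulVec_equiv,
      Matrix.fromBlocks_mulVec]
    congr 2
    · funext i
      simp
    · funext i
      simp
  rw [mul_assoc, key, ← mul_assoc, Units.inv_mul, one_mul, Matrix.reindex_apply,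
    Matrix.submatrix_submatrix]
  simp

theorem thm_Bas : St_Bas := by
  intro n A B hn hAB
  classical
  have : Nonempty (Fin n) := ⟨⟨0, hn⟩⟩
  set f : Module.End ℂ (Fin n → ℂ) := Matrix.toLin' A with hf
  set g : Module.End ℂ (Fin n → ℂ) := Matrix.toLin' B with hg
  have hfg : Commute f g := by
    show f * g = g * f
    rw [hf, hg, Module.End.mul_eq_comp, Module.End.mul_eq_comp, ← Matrix.toLin'_mul,
      ← Matrix.toLin'_mul, hAB]
  obtain ⟨t, ht⟩ := bas_t f g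
  have hex : ∃ α β : ℂ, f.maxGenEigenspace α ⊓ g.maxGenEigenspace β ≠ ⊥ := by
    by_contra hno
    push Not at hno
    have h1 := bas_top f g hfg
    have h2 : ⨆ χ : ℂ × ℂ, f.maxGenEigenspace χ.1 ⊓ g.maxGenEigenspace χ.2 = ⊥ := by
      rw [iSup_eq_bot]
      exact fun χ => hno χ.1 χ.2
    rw [h2] at h1
    exact bot_ne_top h1
  obtain ⟨α, β, hne⟩ := hex
  set c : Module.End ℂ (Fin n → ℂ) := f + t • g with hc
  set γ : ℂ := α + t * β with hγ
  have hU : c.maxGenEigenspace γ = f.maxGenEigenspace α ⊓ g.maxGenEigenspace β :=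
    bas_eq f g hfg t ht α β hne
  have hcf : Commute c f := (Commute.refl f).add_left (hfg.symm.smul_left t)
  have hcg : Commute c g := hfg.add_left ((Commute.refl g).smul_left t)
  set U₁ : Submodule ℂ (Fin n → ℂ) := c.maxGenEigenspace γ with hU₁
  set U₂ : Submodule ℂ (Fin n → ℂ) := basU c γ with hU₂
  have hcompl : IsCompl U₁ U₂ := basU_compl c γ
  have hf1 : ∀ x ∈ U₁, f x ∈ U₁ := fun x hx => mapsTo_maxGenEigenspace_of_comm hcf γ hx
  have hg1 : ∀ x ∈ U₁, g x ∈ U₁ := fun x hx => mapsTo_maxGenEigenspace_of_comm hcg γ hx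
  have hf2 : ∀ x ∈ U₂, f x ∈ U₂ := basU_mapsTo c f hcf γ
  have hg2 : ∀ x ∈ U₂, g x ∈ U₂ := basU_mapsTo c g hcg γ
  set b₁ := Module.finBasis ℂ U₁ with hb₁
  set b₂ := Module.finBasis ℂ U₂ with hb₂
  set φ₁ : (Fin (Module.finrank ℂ U₁) → ℂ) →ₗ[ℂ] (Fin n → ℂ) :=
    U₁.subtype ∘ₗ b₁.equivFun.symm.toLinearMap with hφ₁
  set φ₂ : (Fin (Module.finrank ℂ U₂) → ℂ) →ₗ[ℂ] (Fin n → ℂ) :=
    U₂.subtype ∘ₗ b₂.equivFun.symm.toLinearMap with hφ₂
  have hφ₁i : Function.Injective φ₁ := by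
    rw [hφ₁, LinearMap.coe_comp]
    exact (Submodule.injective_subtype U₁).comp b₁.equivFun.symm.injective
  have hφ₂i : Function.Injective φ₂ := by
    rw [hφ₂, LinearMap.coe_comp]
    exact (Submodule.injective_subtype U₂).comp b₂.equivFun.symm.injective
  have hφ₁m : ∀ w, φ₁ w ∈ U₁ := fun w => (b₁.equivFun.symm w).2
  have hφ₂m : ∀ w, φ₂ w ∈ U₂ := fun w => (b₂.equivFun.symm w).2
  have hmk1 : ∀ (k : Module.End ℂ (Fin n → ℂ)) (hk : ∀ x ∈ U₁, k x ∈ U₁) w,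
      k (φ₁ w) = φ₁ (LinearMap.toMatrix' (b₁.equivFun.toLinearMap ∘ₗ (k.restrict hk) ∘ₗ
        b₁.equivFun.symm.toLinearMap) *ᵥ w) := by
    intro k hk w
    rw [← Matrix.toLin'_apply, Matrix.toLin'_toMatrix']
    simp [hφ₁]
  have hmk2 : ∀ (k : Module.End ℂ (Fin n → ℂ)) (hk : ∀ x ∈ U₂, k x ∈ U₂) w,
      k (φ₂ w) = φ₂ (LinearMap.toMatrix' (b₂.equivFun.toLinearMap ∘ₗ (k.restrict hk) ∘ₗ
        b₂.equivFun.symm.toLinearMap) *ᵥ w) := by
    intro k hk w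
    rw [← Matrix.toLin'_apply, Matrix.toLin'_toMatrix']
    simp [hφ₂]
  obtain ⟨A₁, hA₁⟩ : ∃ A₁ : Matrix (Fin (Module.finrank ℂ U₁)) (Fin (Module.finrank ℂ U₁)) ℂ,
      ∀ w, f (φ₁ w) = φ₁ (A₁ *ᵥ w) := ⟨_, hmk1 f hf1⟩
  obtain ⟨B₁, hB₁⟩ : ∃ A₁ : Matrix (Fin (Module.finrank ℂ U₁)) (Fin (Module.finrank ℂ U₁)) ℂ,
      ∀ w, g (φ₁ w) = φ₁ (A₁ *ᵥ w) := ⟨_, hmk1 g hg1⟩
  obtain ⟨A₂, hA₂⟩ : ∃ A₂ : Matrix (Fin (Module.finrank ℂ U₂)) (Fin (Module.finrank ℂ U₂)) ℂ,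
      ∀ w, f (φ₂ w) = φ₂ (A₂ *ᵥ w) := ⟨_, hmk2 f hf2⟩
  obtain ⟨B₂, hB₂⟩ : ∃ A₂ : Matrix (Fin (Module.finrank ℂ U₂)) (Fin (Module.finrank ℂ U₂)) ℂ,
      ∀ w, g (φ₂ w) = φ₂ (A₂ *ᵥ w) := ⟨_, hmk2 g hg2⟩
  have hdim : n = Module.finrank ℂ U₁ + Module.finrank ℂ U₂ := by
    rw [Submodule.finrank_add_eq_of_isCompl hcompl]
    simp
  set e : Fin n ≃ Fin (Module.finrank ℂ U₁) ⊕ Fin (Module.finrank ℂ U₂) :=
    (finCongr hdim).trans finSumFinEquiv.symm with he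
  set ψ : (Fin n → ℂ) ≃ₗ[ℂ] (Fin n → ℂ) :=
    (LinearEquiv.funCongrLeft ℂ ℂ e.symm).trans
      ((LinearEquiv.sumArrowLequivProdArrow _ _ ℂ ℂ).trans
        ((b₁.equivFun.symm.prodCongr b₂.equivFun.symm).trans
          (Submodule.prodEquivOfIsCompl U₁ U₂ hcompl))) with hψd
  have hψ : ∀ w, ψ w = φ₁ ((w ∘ e.symm) ∘ Sum.inl) + φ₂ ((w ∘ e.symm) ∘ Sum.inr) := by
    intro w
    rfl
  set Q : (Matrix (Fin n) (Fin n) ℂ)ˣ :=
    { val := LinearMap.toMatrix' ψ.toLinearMap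
      inv := LinearMap.toMatrix' ψ.symm.toLinearMap
      val_inv := by
        rw [← LinearMap.toMatrix'_comp]
        simp
      inv_val := by
        rw [← LinearMap.toMatrix'_comp]
        simp } with hQ
  have hblkA := bas_blk e ψ φ₁ φ₂ hψ Q rfl A A₁ A₂ (fun w => hA₁ w) (fun w => hA₂ w)
  have hblkB := bas_blk e ψ φ₁ φ₂ hψ Q rfl B B₁ B₂ (fun w => hB₁ w) (fun w => hB₂ w)
  have hc1 : ∀ w, c (φ₁ w) = φ₁ ((A₁ + t • B₁) *ᵥ w) := by
    intro w
    rw [hc, LinearMap.add_apply, LinearMap.smul_apply, hA₁, hB₁, Matrix.add_mulVec,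
      Matrix.smul_mulVec, map_add, map_smul]
  have hc2 : ∀ w, c (φ₂ w) = φ₂ ((A₂ + t • B₂) *ᵥ w) := by
    intro w
    rw [hc, LinearMap.add_apply, LinearMap.smul_apply, hA₂, hB₂, Matrix.add_mulVec,
      Matrix.smul_mulVec, map_add, map_smul]
  refine ⟨α, β, t, Module.finrank ℂ U₁, Module.finrank ℂ U₂, e, Q, A₁, B₁, A₂, B₂, ?_, hblkA,
    hblkB, ?_, ?_, ?_⟩
  · rw [Nat.pos_iff_ne_zero]
    intro h0
    rw [Submodule.finrank_eq_zero] at h0
    exact hne (hU ▸ h0)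
  · refine (Polynomial.isCoprime_iff_aeval_ne_zero_of_isAlgClosed ℂ ℂ _ _).2 fun a => ?_
    by_contra hcon
    push Not at hcon
    obtain ⟨h1, h2⟩ := hcon
    rw [Polynomial.coe_aeval_eq_eval] at h1 h2
    have h3 : Module.End.HasEigenvalue (Matrix.toLin' (A₁ + t • B₁)) a := by
      rw [hasEigenvalue_iff_isRoot_charpoly, Matrix.charpoly_toLin']
      exact h1
    have h4 : Module.End.HasEigenvalue (Matrix.toLin' (A₂ + t • B₂)) a := by
      rw [hasEigenvalue_iff_isRoot_charpoly, Matrix.charpoly_toLin']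
      exact h2
    obtain ⟨w₁, hw₁⟩ := h3.exists_hasEigenvector
    obtain ⟨w₂, hw₂⟩ := h4.exists_hasEigenvector
    have h5 : φ₁ w₁ ∈ c.maxGenEigenspace a := by
      rw [← bas_tr c (Matrix.toLin' (A₁ + t • B₁)) φ₁ hφ₁i (fun w => hc1 w) a w₁]
      exact eigenspace_le_maxGenEigenspace hw₁.1
    have h6 : φ₂ w₂ ∈ c.maxGenEigenspace a := by
      rw [← bas_tr c (Matrix.toLin' (A₂ + t • B₂)) φ₂ hφ₂i (fun w => hc2 w) a w₂]
      exact eigenspace_le_maxGenEigenspace hw₂.1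
    by_cases ha : a = γ
    · rw [ha] at h6
      have h7 := Submodule.disjoint_def.1 hcompl.disjoint (φ₂ w₂) h6 (hφ₂m w₂)
      exact hw₂.2 (hφ₂i (by rw [h7, map_zero]))
    · have h7 : Disjoint (c.maxGenEigenspace a) (c.maxGenEigenspace γ) :=
        disjoint_genEigenspace c ha ⊤ ⊤
      have h8 := Submodule.disjoint_def.1 h7 (φ₁ w₁) h5 (hφ₁m w₁)
      exact hw₁.2 (hφ₁i (by rw [h8, map_zero]))
  · rw [eq_top_iff]
    intro w _
    have h1 := hU.le (hφ₁m w)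
    exact ⟨(bas_tr f (Matrix.toLin' A₁) φ₁ hφ₁i (fun w => hA₁ w) α w).2 h1.1,
      (bas_tr g (Matrix.toLin' B₁) φ₁ hφ₁i (fun w => hB₁ w) β w).2 h1.2⟩
  · rw [eq_bot_iff]
    rintro w ⟨h1, h2⟩
    have h3 : φ₂ w ∈ U₁ := hU.ge
      ⟨(bas_tr f (Matrix.toLin' A₂) φ₂ hφ₂i (fun w => hA₂ w) α w).1 h1,
        (bas_tr g (Matrix.toLin' B₂) φ₂ hφ₂i (fun w => hB₂ w) β w).1 h2⟩
    have h4 := Submodule.disjoint_def.1 hcompl.disjoint (φ₂ w) h3 (hφ₂m w)
    rw [Submodule.mem_bot]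
    exact hφ₂i (by rw [h4, map_zero])

end Pool.Agent.ANC
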