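import Pool.Agent.ANC.St

/-!
# ANC, module Brg: the discriminant is not a zero divisor modulo the covector
-/

set_option autoImplicit false

noncomputable section

namespace Pool.Agent.ANC

open Matrix Pool.Agent.CTR

/-! ### functoriality -/

section functor

variable {R T : Type} [CommRing R] [CommRing T] (f : R →+* T)

theorem brg_AC {ι : Type} [Fintype ι] {x y : Matrix ι ι R} {v j : ι → R} (h : AC x y v j) :
    AC (x.map f) (y.map f) (f ∘ v) (f ∘ j) := by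
  unfold AC at h ⊢
  have h1 : (x * y - y * x + vecMulVec v j).map f = 0 := by
    rw [h]
    ext i k
    simp
  rw [← h1]
  ext i k
  simp [Matrix.mul_apply, vecMulVec_apply, Matrix.map_apply]

theorem brg_wd {ι : Type} [Fintype ι] [DecidableEq ι] (x y : Matrix ι ι R) (w : List Bool) :
    (wd x y w).map f = wd (x.map f) (y.map f) w := by
  induction w with
  | nil =>
    simp [wd]
  | cons b w ih =>
    rw [wd, wd, Matrix.map_mul, ih]
    congr 1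
    cases b <;> rfl

theorem brg_fr {m : ℕ} (W : Fin m → List Bool) (x y : Matrix (Ix m) (Ix m) R) (v : Ix m → R) :
    (fr W x y v).map f = fr W (x.map f) (y.map f) (f ∘ v) := by
  ext i s
  rcases s with a | a
  · show f ((wd x y (W a) *ᵥ v) i) = (wd (x.map f) (y.map f) (W a) *ᵥ (f ∘ v)) i
    rw [← brg_wd, RingHom.map_mulVec]
  · show f (if i = Sum.inr () then 1 else 0) = if i = Sum.inr () then 1 else 0
    rw [apply_ite f, map_one, map_zero]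

theorem brg_frH {m : ℕ} (W : Fin m → List Bool) (x y : Matrix (Fin m) (Fin m) R) (v : Fin m → R) :
    (frH W x y v).map f = frH W (x.map f) (y.map f) (f ∘ v) := by
  ext i a
  show f ((wd x y (W a) *ᵥ v) i) = (wd (x.map f) (y.map f) (W a) *ᵥ (f ∘ v)) i
  rw [← brg_wd, RingHom.map_mulVec]

theorem brg_dsx {ι : Type} [Fintype ι] [DecidableEq ι] (n : ℕ) (A : Matrix ι ι R) :
    f (dsx n A) = dsx n (A.map f) := by
  unfold dsx
  rw [RingHom.map_det]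
  congr 1
  ext a b
  show f ((A ^ ((a : ℕ) + b)).trace) = ((A.map f) ^ ((a : ℕ) + b)).trace
  have h1 : (A.map f) ^ ((a : ℕ) + b) = (A ^ ((a : ℕ) + b)).map f :=
    (map_pow f.mapMatrix A ((a : ℕ) + b)).symm
  rw [h1]
  simp [Matrix.trace, map_sum]

theorem brg_un {m : ℕ} (z : Fin m → R) : (un z).map f = un (f ∘ z) := by
  unfold un
  rw [Matrix.fromBlocks_map]
  congr 1
  · simp
  · ext i k
    simp
  · simp

theorem brg_bl {m : ℕ} (A : Matrix (Fin m) (Fin m) R) (a : Fin m → R) (α : R) :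
    (bl A a α).map f = bl (A.map f) (f ∘ a) (f α) := by
  unfold bl
  rw [Matrix.fromBlocks_map]
  congr 1
  ext i k
  simp

theorem brg_zt {m : ℕ} (z : Fin m → R) : f ∘ zt z = zt (f ∘ z) := by
  ext i
  rcases i with i | i
  · rfl
  · exact map_one f

theorem brg_E2 {m : ℕ} {A B : Matrix (Fin m) (Fin m) R} {v a b : Fin m → R} {α β c : R}
    (h : E2 A B v a b α β c) :
    E2 (A.map f) (B.map f) (f ∘ v) (f ∘ a) (f ∘ b) (f α) (f β) (f c) := by
  unfold E2 at h ⊢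
  ext i
  have h1 := congrArg f (congrFun h i)
  simp only [Pi.add_apply, Pi.sub_apply, Pi.smul_apply, smul_eq_mul, map_add, map_sub, map_mul,
    Pi.zero_apply, map_zero] at h1
  rw [RingHom.map_mulVec, RingHom.map_mulVec] at h1
  simp only [Pi.add_apply, Pi.sub_apply, Pi.smul_apply, smul_eq_mul, Pi.zero_apply,
    Function.comp_apply]
  exact h1

theorem brg_elim {m : ℕ} (v : Fin m → R) (c : R) :
    f ∘ (Sum.elim v fun _ => c : Ix m → R) = Sum.elim (f ∘ v) fun _ => f c := by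
  ext i
  rcases i with i | i <;> rfl

theorem brg_mulVec {ι : Type} [Fintype ι] (M : Matrix ι ι R) (v : ι → R) :
    f ∘ (M *ᵥ v) = M.map f *ᵥ (f ∘ v) := by
  ext i
  exact RingHom.map_mulVec f M v i

theorem brg_vecMul {ι : Type} [Fintype ι] (M : Matrix ι ι R) (v : ι → R) :
    f ∘ (v ᵥ* M) = (f ∘ v) ᵥ* M.map f := by
  ext i
  exact RingHom.map_vecMul f M v i

theorem brg_neg {m : ℕ} (z : Fin m → R) : f ∘ (-z) = -(f ∘ z) := by
  ext i
  exact map_neg f (z i)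

end functor

/-- the passage to the quotient by the ideal of the common covector -/
theorem brg_quot {m : ℕ} {R : Type} [CommRing R] (z : Fin m → R) (x y : Matrix (Ix m) (Ix m) R)
    (v : Ix m → R) {T : Type} [CommRing T] (f : R →+* T) (hf : ∀ r ∈ bI z x y v, f r = 0) :
    zt (f ∘ z) ᵥ* x.map f = f ((zt z ᵥ* x) (Sum.inr ())) • zt (f ∘ z) ∧
    zt (f ∘ z) ᵥ* y.map f = f ((zt z ᵥ* y) (Sum.inr ())) • zt (f ∘ z) ∧
    zt (f ∘ z) ⬝ᵥ (f ∘ v) = 0 := by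
  rw [← brg_zt]
  refine ⟨?_, ?_, ?_⟩
  · rw [← brg_vecMul]
    ext i
    have h1 := hf _ (Ideal.subset_span (Or.inl ⟨i, rfl⟩))
    rw [Pi.sub_apply, map_sub, sub_eq_zero, Pi.smul_apply, smul_eq_mul, map_mul] at h1
    exact h1
  · rw [← brg_vecMul]
    ext i
    have h1 := hf _ (Ideal.subset_span (Or.inr (Or.inl ⟨i, rfl⟩)))
    rw [Pi.sub_apply, map_sub, sub_eq_zero, Pi.smul_apply, smul_eq_mul, map_mul] at h1
    exact h1
  · have h1 := hf _ (Ideal.subset_span (Or.inr (Or.inr rfl)))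
    rw [RingHom.map_dotProduct] at h1
    exact h1

/-- the homomorphisms from the polynomial rings with given values -/
theorem brg_kQ (m : ℕ) {T : Type} [CommRing T] (ρ : ℂ →+* T) (A B : Matrix (Fin m) (Fin m) T)
    (v j a b z : Fin m → T) (α β c : T) :
    ∃ κ : RQ m →+* T, (∀ r, κ (MvPolynomial.C r) = ρ r) ∧ (qA m).map κ = A ∧ (qB m).map κ = B ∧
      κ ∘ qv m = v ∧ κ ∘ qj m = j ∧ κ ∘ qw m 0 = a ∧ κ ∘ qw m 1 = b ∧ κ ∘ qw m 2 = z ∧
      κ (qs m 0) = α ∧ κ (qs m 1) = β ∧ κ (qs m 2) = c := by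
  refine ⟨MvPolynomial.eval₂Hom ρ (coQ A B v j a b z α β c), fun r => MvPolynomial.eval₂Hom_C _ _ _,
    ?_, ?_, ?_, ?_, ?_, ?_, ?_, ?_, ?_, ?_⟩
  · ext i k
    exact MvPolynomial.eval₂Hom_X' _ _ _
  · ext i k
    exact MvPolynomial.eval₂Hom_X' _ _ _
  · ext i
    exact MvPolynomial.eval₂Hom_X' _ _ _
  · ext i
    exact MvPolynomial.eval₂Hom_X' _ _ _
  · ext i
    exact MvPolynomial.eval₂Hom_X' _ _ _
  · ext i
    exact MvPolynomial.eval₂Hom_X' _ _ _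
  · ext i
    exact MvPolynomial.eval₂Hom_X' _ _ _
  · exact MvPolynomial.eval₂Hom_X' _ _ _
  · exact MvPolynomial.eval₂Hom_X' _ _ _
  · exact MvPolynomial.eval₂Hom_X' _ _ _

theorem brg_kI (ι : Type) {T : Type} [CommRing T] (ρ : ℂ →+* T) (A B : Matrix ι ι T)
    (v j : ι → T) :
    ∃ κ : RI ι →+* T, (∀ r, κ (MvPolynomial.C r) = ρ r) ∧ (gX ι).map κ = A ∧ (gY ι).map κ = B ∧
      κ ∘ gv ι = v ∧ κ ∘ gj ι = j := by
  refine ⟨MvPolynomial.eval₂Hom ρ (coI A B v j), fun r => MvPolynomial.eval₂Hom_C _ _ _,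
    ?_, ?_, ?_, ?_⟩
  · ext i k
    exact MvPolynomial.eval₂Hom_X' _ _ _
  · ext i k
    exact MvPolynomial.eval₂Hom_X' _ _ _
  · ext i
    exact MvPolynomial.eval₂Hom_X' _ _ _
  · ext i
    exact MvPolynomial.eval₂Hom_X' _ _ _

theorem brg_extI (ι : Type) {T : Type} [CommRing T] (f g : RI ι →+* T)
    (h0 : ∀ r, f (MvPolynomial.C r) = g (MvPolynomial.C r)) (h1 : (gX ι).map f = (gX ι).map g)
    (h2 : (gY ι).map f = (gY ι).map g) (h3 : f ∘ gv ι = g ∘ gv ι) (h4 : f ∘ gj ι = g ∘ gj ι) :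
    f = g := by
  refine MvPolynomial.ringHom_ext h0 fun t => ?_
  rcases t with ⟨s, i, k⟩ | ⟨s, i⟩
  · fin_cases s
    · exact congrFun (congrFun h1 i) k
    · exact congrFun (congrFun h2 i) k
  · fin_cases s
    · exact congrFun h3 i
    · exact congrFun h4 i

/-- the chase for abstract rings -/
theorem brg_core (hFrm : St_Frm) (hNrA : St_NrA) (hNrB : St_NrB) (hChs : St_Chs)
    (m : ℕ) (W : Fin m → List Bool) (R Q : Type) [CommRing R] [Algebra ℂ R] [CommRing Q]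
    (ja : RI (Ix m) →+* R) (jq : RQ m →+* Q)
    (hAC : AC ((gX (Ix m)).map ja) ((gY (Ix m)).map ja) (ja ∘ gv (Ix m)) (ja ∘ gj (Ix m)))
    (hu : IsUnit (fr W ((gX (Ix m)).map ja) ((gY (Ix m)).map ja) (ja ∘ gv (Ix m))).det)
    (hext : ∀ (T : Type) [CommRing T] (f g : R →+* T), f.comp ja = g.comp ja → f = g)
    (hAC2 : AC ((qA m).map jq) ((qB m).map jq) (jq ∘ qv m) (jq ∘ qj m))
    (hE2 : E2 ((qA m).map jq) ((qB m).map jq) (jq ∘ qv m) (jq ∘ qw m 0) (jq ∘ qw m 1)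
      (jq (qs m 0)) (jq (qs m 1)) (jq (qs m 2)))
    (hu2 : IsUnit (frH W ((qA m).map jq) ((qB m).map jq) (jq ∘ qv m)).det)
    (HmR : ∀ (T : Type) [CommRing T] (κ : RI (Ix m) →+* T),
      AC ((gX (Ix m)).map κ) ((gY (Ix m)).map κ) (κ ∘ gv (Ix m)) (κ ∘ gj (Ix m)) →
      IsUnit (fr W ((gX (Ix m)).map κ) ((gY (Ix m)).map κ) (κ ∘ gv (Ix m))).det →
      ∃ φ : R →+* T, φ.comp ja = κ)
    (HmQ : ∀ (T : Type) [CommRing T] (κ : RQ m →+* T),
      AC ((qA m).map κ) ((qB m).map κ) (κ ∘ qv m) (κ ∘ qj m) →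
      E2 ((qA m).map κ) ((qB m).map κ) (κ ∘ qv m) (κ ∘ qw m 0) (κ ∘ qw m 1) (κ (qs m 0))
        (κ (qs m 1)) (κ (qs m 2)) →
      IsUnit (frH W ((qA m).map κ) ((qB m).map κ) (κ ∘ qv m)).det →
      ∃ φ : Q →+* T, φ.comp jq = κ)
    (hKA : ∀ q : Q,
      jq (qs m 2) * q ∈ Ideal.span {jq (dsx (m + 1) (bl (qA m) (qw m 0) (qs m 0)))} →
      q ∈ Ideal.span {jq (dsx (m + 1) (bl (qA m) (qw m 0) (qs m 0)))})
    (hNA : ∀ g : R, ja (dsx (m + 1) (gX (Ix m))) * g = 0 → g = 0) (N : ℕ) (f : R)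
    (hf : ja (dsx (m + 1) (gX (Ix m))) ^ N * f ∈ Ideal.span {ja (gj (Ix m) (Sum.inr ()))}) :
    f ∈ Ideal.span {ja (gj (Ix m) (Sum.inr ()))} := by
  obtain ⟨z, hz, hb⟩ := hFrm m R W _ _ _ _ hAC hu
  -- the homomorphism to the quotient
  obtain ⟨b, hbdef⟩ : ∃ b : Ideal R, b = bI z ((gX (Ix m)).map ja) ((gY (Ix m)).map ja)
    (ja ∘ gv (Ix m)) := ⟨_, rfl⟩
  rw [← hbdef] at hb
  have hπ : ∀ r ∈ bI z ((gX (Ix m)).map ja) ((gY (Ix m)).map ja) (ja ∘ gv (Ix m)),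
      Ideal.Quotient.mk b r = 0 := by
    intro r hr
    rw [hbdef]
    exact Ideal.Quotient.eq_zero_iff_mem.2 hr
  obtain ⟨q1, q2, q3⟩ := brg_quot z _ _ _ (Ideal.Quotient.mk b) hπ
  have hACq := brg_AC (Ideal.Quotient.mk b) hAC
  obtain ⟨A, B, v₁, j₁, a, b₁, p1, p2, p3, p4, p5, p6, p7⟩ :=
    hNrB m (R ⧸ b) W _ _ _ _ _ _ _ hACq q1 q2 q3
  obtain ⟨κ, k0, k1, k2, k3, k4, k5, k6, k7, k8, k9, k10⟩ := brg_kQ m
    ((Ideal.Quotient.mk b).comp (ja.comp MvPolynomial.C)) A B v₁ j₁ a b₁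
    (Ideal.Quotient.mk b ∘ z)
    (Ideal.Quotient.mk b ((zt z ᵥ* (gX (Ix m)).map ja) (Sum.inr ())))
    (Ideal.Quotient.mk b ((zt z ᵥ* (gY (Ix m)).map ja) (Sum.inr ())))
    ((Ideal.Quotient.mk b ∘ (ja ∘ gj (Ix m))) (Sum.inr ()))
  obtain ⟨ψ, hψ⟩ := HmQ (R ⧸ b) κ (by rw [k1, k2, k3, k4]; exact p1)
    (by rw [k1, k2, k3, k5, k6, k8, k9, k10]; exact p2)
    (by
      rw [k1, k2, k3, p3, ← brg_fr, ← RingHom.mapMatrix_apply, ← RingHom.map_det]
      exact hu.map _)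
  have hψ1 : ∀ t, ψ (jq t) = κ t := fun t => by
    rw [← hψ]
    rfl
  -- the homomorphism to the triangular form
  obtain ⟨s1, s2, s3, s4⟩ := hNrA m Q W _ _ _ _ _ _ (jq ∘ qw m 2) _ _ _ hAC2 hE2
  obtain ⟨κ', l0, l1, l2, l3, l4⟩ := brg_kI (Ix m) (jq.comp MvPolynomial.C)
    (un (-(jq ∘ qw m 2)) * bl ((qA m).map jq) (jq ∘ qw m 0) (jq (qs m 0)) * un (jq ∘ qw m 2))
    (un (-(jq ∘ qw m 2)) * bl ((qB m).map jq) (jq ∘ qw m 1) (jq (qs m 1)) * un (jq ∘ qw m 2))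
    (un (-(jq ∘ qw m 2)) *ᵥ Sum.elim (jq ∘ qv m) (fun _ => 0))
    (Sum.elim (jq ∘ qj m) (fun _ => jq (qs m 2)) ᵥ* un (jq ∘ qw m 2))
  obtain ⟨φ, hφ⟩ := HmR Q κ' (by rw [l1, l2, l3, l4]; exact s1)
    (by rw [l1, l2, l3, s2]; exact hu2)
  have hφ1 : ∀ t, φ (ja t) = κ' t := fun t => by
    rw [← hφ]
    rfl
  -- the composition
  have hψA : ((qA m).map jq).map ψ = A := by
    rw [← k1]
    ext i k
    exact hψ1 _
  have hψB : ((qB m).map jq).map ψ = B := by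
    rw [← k2]
    ext i k
    exact hψ1 _
  have hψw : ∀ s, ψ ∘ (jq ∘ qw m s) = κ ∘ qw m s := by
    intro s
    ext i
    exact hψ1 _
  have hcomp : ψ.comp φ = Ideal.Quotient.mk b := by
    refine hext _ _ _ (brg_extI (Ix m) _ _ (fun r => ?_) ?_ ?_ ?_ ?_)
    · show ψ (φ (ja (MvPolynomial.C r))) = _
      rw [hφ1, l0]
      show ψ (jq (MvPolynomial.C r)) = _
      rw [hψ1, k0]
      rfl
    · have e1 : (gX (Ix m)).map ((ψ.comp φ).comp ja) = ((gX (Ix m)).map κ').map ψ := by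
        ext i k
        show ψ (φ (ja _)) = ψ (κ' _)
        rw [hφ1]
      have e2 : (gX (Ix m)).map ((Ideal.Quotient.mk b).comp ja) =
          ((gX (Ix m)).map ja).map (Ideal.Quotient.mk b) := rfl
      rw [e1, e2, p4, l1, Matrix.map_mul, Matrix.map_mul, brg_un, brg_un, brg_bl, brg_neg, hψA,
        hψw 0, hψw 2, k5, k7, hψ1, k8]
    · have e1 : (gY (Ix m)).map ((ψ.comp φ).comp ja) = ((gY (Ix m)).map κ').map ψ := by
        ext i k
        show ψ (φ (ja _)) = ψ (κ' _)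
        rw [hφ1]
      have e2 : (gY (Ix m)).map ((Ideal.Quotient.mk b).comp ja) =
          ((gY (Ix m)).map ja).map (Ideal.Quotient.mk b) := rfl
      rw [e1, e2, p5, l2, Matrix.map_mul, Matrix.map_mul, brg_un, brg_un, brg_bl, brg_neg, hψB,
        hψw 1, hψw 2, k6, k7, hψ1, k9]
    · have e1 : ((ψ.comp φ).comp ja) ∘ gv (Ix m) = ψ ∘ (κ' ∘ gv (Ix m)) := by
        ext i
        show ψ (φ (ja _)) = ψ (κ' _)
        rw [hφ1]
      have e2 : ((Ideal.Quotient.mk b).comp ja) ∘ gv (Ix m) =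
          Ideal.Quotient.mk b ∘ (ja ∘ gv (Ix m)) := rfl
      have e3 : ψ ∘ (jq ∘ qv m) = κ ∘ qv m := by
        ext i
        exact hψ1 _
      rw [e1, e2, p6, l3, brg_mulVec, brg_un, brg_neg, hψw 2, k7, brg_elim, e3, k3, map_zero]
    · have e1 : ((ψ.comp φ).comp ja) ∘ gj (Ix m) = ψ ∘ (κ' ∘ gj (Ix m)) := by
        ext i
        show ψ (φ (ja _)) = ψ (κ' _)
        rw [hφ1]
      have e2 : ((Ideal.Quotient.mk b).comp ja) ∘ gj (Ix m) =
          Ideal.Quotient.mk b ∘ (ja ∘ gj (Ix m)) := rfl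
      have e3 : ψ ∘ (jq ∘ qj m) = κ ∘ qj m := by
        ext i
        exact hψ1 _
      rw [e1, e2, p7, l4, brg_vecMul, brg_un, hψw 2, k7, brg_elim, e3, k4, hψ1, k10]
  have hc : φ (ja (gj (Ix m) (Sum.inr ()))) = jq (qs m 2) := by
    rw [hφ1, ← s4, ← l4]
    rfl
  have hD : φ (ja (dsx (m + 1) (gX (Ix m)))) =
      jq (dsx (m + 1) (bl (qA m) (qw m 0) (qs m 0))) := by
    rw [hφ1, brg_dsx, l1, s3, brg_dsx, brg_bl]
  refine hChs R Q b φ ψ _ _ (fun r => ?_) hb hNA (fun q hq => ?_) N f hf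
  · rw [← hcomp]
    rfl
  · have hc' : φ ((ja ∘ gj (Ix m)) (Sum.inr ())) = jq (qs m 2) := hc
    rw [hc', hD] at hq
    rw [hD]
    exact hKA q hq

/-! ### the two rings -/

theorem brg_ACI (ι : Type) [Fintype ι] : AC ((gX ι).map (Ideal.Quotient.mk (IA ι)))
    ((gY ι).map (Ideal.Quotient.mk (IA ι))) (Ideal.Quotient.mk (IA ι) ∘ gv ι)
    (Ideal.Quotient.mk (IA ι) ∘ gj ι) := by
  unfold AC
  ext i k
  have h1 : (gX ι * gY ι - gY ι * gX ι + vecMulVec (gv ι) (gj ι)) i k ∈ IA ι :=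
    Ideal.subset_span ⟨(i, k), rfl⟩
  have h2 := Ideal.Quotient.eq_zero_iff_mem.2 h1
  rw [Matrix.zero_apply, ← h2]
  simp [Matrix.mul_apply, vecMulVec_apply, Matrix.map_apply]

theorem brg_ACQ (m : ℕ) : AC ((qA m).map (Ideal.Quotient.mk (IQ m)))
    ((qB m).map (Ideal.Quotient.mk (IQ m))) (Ideal.Quotient.mk (IQ m) ∘ qv m)
    (Ideal.Quotient.mk (IQ m) ∘ qj m) := by
  unfold AC
  ext i k
  have h1 : (qA m * qB m - qB m * qA m + vecMulVec (qv m) (qj m)) i k ∈ IQ m :=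
    Ideal.subset_span ⟨Sum.inl (i, k), rfl⟩
  have h2 := Ideal.Quotient.eq_zero_iff_mem.2 h1
  rw [Matrix.zero_apply, ← h2]
  simp [Matrix.mul_apply, vecMulVec_apply, Matrix.map_apply]

theorem brg_E2Q (m : ℕ) {T : Type} [CommRing T] (f : RQ m →+* T) (hf : ∀ r ∈ IQ m, f r = 0) :
    E2 ((qA m).map f) ((qB m).map f) (f ∘ qv m) (f ∘ qw m 0) (f ∘ qw m 1)
      (f (qs m 0)) (f (qs m 1)) (f (qs m 2)) := by
  unfold E2
  ext i
  have h1 : (qA m *ᵥ qw m 1 - qs m 0 • qw m 1 - (qB m *ᵥ qw m 0 - qs m 1 • qw m 0) +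
      qs m 2 • qv m) i ∈ IQ m := Ideal.subset_span ⟨Sum.inr i, rfl⟩
  have h2 := hf _ h1
  simp only [Pi.add_apply, Pi.sub_apply, Pi.smul_apply, smul_eq_mul, map_add, map_sub,
    map_mul] at h2
  rw [RingHom.map_mulVec, RingHom.map_mulVec] at h2
  simp only [Pi.add_apply, Pi.sub_apply, Pi.smul_apply, smul_eq_mul, Pi.zero_apply,
    Function.comp_apply]
  exact h2

theorem brg_extL {A : Type} [CommRing A] (I : Ideal A) (x : A ⧸ I) {T : Type} [CommRing T]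
    (f g : Localization.Away x →+* T)
    (h : f.comp ((algebraMap (A ⧸ I) (Localization.Away x)).comp (Ideal.Quotient.mk I)) =
      g.comp ((algebraMap (A ⧸ I) (Localization.Away x)).comp (Ideal.Quotient.mk I))) : f = g := by
  refine IsLocalization.ringHom_ext (Submonoid.powers x) (Ideal.Quotient.ringHom_ext ?_)
  rw [RingHom.comp_assoc, RingHom.comp_assoc]
  exact h

theorem thm_Brg (hFrm : St_Frm) (hNrA : St_NrA) (hNrB : St_NrB) (hChs : St_Chs) (hKA : St_KA)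
    (hNA : St_NA) (hHmR : St_HmR) (hHmQ : St_HmQ) : St_Brg := by
  intro m W N f hf
  refine brg_core hFrm hNrA hNrB hChs m W (RA m W) (QA m W) (ja m W) (jq m W)
    (brg_AC (algebraMap (RI (Ix m) ⧸ IA (Ix m)) (RA m W)) (brg_ACI (Ix m))) ?_ (fun T _ g g' h => brg_extL _ _ g g' h)
    (brg_AC (algebraMap (RQ m ⧸ IQ m) (QA m W)) (brg_ACQ m)) (brg_E2Q m (jq m W) fun r hr => ?_) ?_
    (hHmR m W) (hHmQ m W) (hKA m W) (hNA m W) N f hf
  · rw [← brg_fr, ← RingHom.mapMatrix_apply, ← RingHom.map_det]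
    exact IsLocalization.Away.algebraMap_isUnit
      (Ideal.Quotient.mk (IA (Ix m)) (fr W (gX (Ix m)) (gY (Ix m)) (gv (Ix m))).det)
  · show algebraMap (RQ m ⧸ IQ m) (QA m W) (Ideal.Quotient.mk (IQ m) r) = 0
    rw [Ideal.Quotient.eq_zero_iff_mem.2 hr, map_zero]
  · rw [← brg_frH, ← RingHom.mapMatrix_apply, ← RingHom.map_det]
    exact IsLocalization.Away.algebraMap_isUnit
      (Ideal.Quotient.mk (IQ m) (frH W (qA m) (qB m) (qv m)).det)

end Pool.Agent.ANC
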