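import Pool.Agent.ANC.St
import Pool.Agent.ACV.CI
import Pool.Agent.ACV.CMl
import Pool.Agent.ACV.Ass

/-!
# ANC, CIa: complete intersections with an element inverted (helper65)
-/

set_option autoImplicit false
set_option linter.unusedVariables false

noncomputable section

namespace Pool.Agent.ANC

open MvPolynomial RingTheory.Sequence

/-- the translation to the point `a` -/
private def cia_tr {k : Type} [Field k] {σ : Type} (a : σ → k) :
    MvPolynomial σ k ≃ₐ[k] MvPolynomial σ k :=
  AlgEquiv.ofAlgHom (aeval fun i => X i - C (a i)) (aeval fun i => X i + C (a i))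
    (by ext i; simp) (by ext i; simp)

private theorem cia_weak {k : Type} [Field k] {σ : Type} {c : ℕ} (e : Fin c ≃ σ) (a : σ → k) :
    IsWeaklyRegular (MvPolynomial σ k)
      (List.ofFn fun i => (X (e i) - C (a (e i)) : MvPolynomial σ k)) := by
  have h := (cia_tr a).toLinearEquiv.toAddEquiv.isWeaklyRegular_congr
    (as := List.ofFn fun i => (X (e i) : MvPolynomial σ k))
    (bs := List.ofFn fun i => (X (e i) - C (a (e i)) : MvPolynomial σ k)) (by
      rw [List.forall₂_iff_get]
      refine ⟨by simp, ?_⟩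
      intro i h1 h2 x
      simp only [List.get_eq_getElem, List.getElem_ofFn, smul_eq_mul]
      show cia_tr a (X _ * x) = _ * cia_tr a x
      rw [map_mul]
      congr 1
      simp [cia_tr])
  exact h.1 (Pool.Agent.ACV.ci_weak e)

/-- the dimension of a quotient of a localization -/
private theorem cia_dim (S : Type) [CommRing S] (p : Ideal S) [p.IsPrime] (J : Ideal S)
    (s t : ℕ)
    (h : ∀ P : Ideal S, P.IsPrime → J ≤ P → P ≤ p →
      ringKrullDim (S ⧸ P) + ((t : ℕ) : WithBot ℕ∞) ≤ ((s : ℕ) : WithBot ℕ∞)) :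
    ringKrullDim (Localization.AtPrime p ⧸ J.map (algebraMap S (Localization.AtPrime p))) +
      ((t : ℕ) : WithBot ℕ∞) ≤ ((s : ℕ) : WithBot ℕ∞) := by
  classical
  set R := Localization.AtPrime p with hR
  have key : ∀ l : LTSeries (PrimeSpectrum.zeroLocus
      ((J.map (algebraMap S R) : Ideal R) : Set R)), l.length + t ≤ s := by
    intro l
    set P : PrimeSpectrum S := PrimeSpectrum.comap (algebraMap S R) l.head.1 with hP
    have hJP : J ≤ P.asIdeal := by
      have h1 : J.map (algebraMap S R) ≤ l.head.1.asIdeal := l.head.2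
      exact Ideal.map_le_iff_le_comap.1 h1
    have hPp : P.asIdeal ≤ p := by
      intro x hx
      by_contra hxp
      have h1 : IsUnit (algebraMap S R x) :=
        IsLocalization.map_units R (⟨x, hxp⟩ : p.primeCompl)
      have h2 : algebraMap S R x ∈ l.head.1.asIdeal := hx
      exact l.head.1.isPrime.ne_top (Ideal.eq_top_of_isUnit_mem _ h2 h1)
    have hstrict : ∀ Q Q' : PrimeSpectrum R, Q < Q' →
        PrimeSpectrum.comap (algebraMap S R) Q < PrimeSpectrum.comap (algebraMap S R) Q' := by
      intro Q Q' hQ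
      refine lt_of_le_of_ne ?_ ?_
      · exact Ideal.comap_mono (le_of_lt hQ)
      · intro he
        exact (ne_of_lt hQ) (PrimeSpectrum.localization_comap_injective R p.primeCompl he)
    let l' : LTSeries (PrimeSpectrum.zeroLocus ((P.asIdeal : Ideal S) : Set S)) :=
      { length := l.length
        toFun := fun i => ⟨PrimeSpectrum.comap (algebraMap S R) (l i).1, by
          have h1 : l.head ≤ l i := LTSeries.head_le l i
          exact Ideal.comap_mono h1⟩
        step := fun i => hstrict _ _ (l.step i) }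
    have h2 := h P.asIdeal P.isPrime hJP hPp
    have h3 : ((l.length : ℕ) : WithBot ℕ∞) ≤ ringKrullDim (S ⧸ P.asIdeal) := by
      rw [ringKrullDim_quotient]
      exact le_iSup (fun q : LTSeries (PrimeSpectrum.zeroLocus ((P.asIdeal : Ideal S) : Set S)) =>
        ((q.length : ℕ) : WithBot ℕ∞)) l'
    have h4 : ((l.length : ℕ) : WithBot ℕ∞) + ((t : ℕ) : WithBot ℕ∞) ≤ ((s : ℕ) : WithBot ℕ∞) :=
      (add_le_add_left h3 _).trans h2
    exact_mod_cast h4
  rw [ringKrullDim_quotient]
  rcases isEmpty_or_nonempty (PrimeSpectrum.zeroLocus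
      ((J.map (algebraMap S R) : Ideal R) : Set R)) with hE | hN
  · rw [Order.krullDim_eq_bot]
    simp
  · obtain ⟨q⟩ := hN
    have hts : t ≤ s := le_trans (Nat.le_add_left _ _) (key (RelSeries.singleton _ q))
    have h1 : Order.krullDim (PrimeSpectrum.zeroLocus
        ((J.map (algebraMap S R) : Ideal R) : Set R)) ≤ ((s - t : ℕ) : WithBot ℕ∞) := by
      rw [Order.krullDim]
      refine iSup_le fun l => ?_
      have := key l
      exact_mod_cast (Nat.le_sub_of_add_le this)
    refine (add_le_add_left h1 _).trans ?_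
    have h2 : (s - t) + t = s := Nat.sub_add_cancel hts
    exact_mod_cast h2.le

/-- the local statement -/
private theorem cia_pt {k : Type} [Field k] {σ : Type} [Fintype σ] {τ : Type} [Fintype τ]
    (f : τ → MvPolynomial σ k) (c θ : MvPolynomial σ k)
    (hdim : ∀ P : Ideal (MvPolynomial σ k), P.IsPrime → (∀ i, f i ∈ P) → c ∈ P → θ ∉ P →
      ringKrullDim (MvPolynomial σ k ⧸ P) + ((Fintype.card τ + 1 : ℕ) : WithBot ℕ∞) ≤
        ((Fintype.card σ : ℕ) : WithBot ℕ∞))
    (q : MvPolynomial σ k) (hq : c * q ∈ Ideal.span (Set.range f)) (a : σ → k)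
    (hfa : ∀ i, eval a (f i) = 0) (hca : eval a c = 0) (hθ : eval a θ ≠ 0) :
    ∃ u : MvPolynomial σ k, eval a u ≠ 0 ∧ u * q ∈ Ideal.span (Set.range f) := by
  classical
  have hCMl := Pool.Agent.ACV.thm_CMl Pool.Agent.ACV.thm_Ass
  set O : Ideal (MvPolynomial σ k) := RingHom.ker (eval a : MvPolynomial σ k →+* k) with hO
  have hOm : O.IsMaximal :=
    RingHom.ker_isMaximal_of_surjective _ (fun b => ⟨C b, eval_C _⟩)
  have hOp : O.IsPrime := hOm.isPrime
  have mem_O : ∀ u : MvPolynomial σ k, u ∈ O ↔ eval a u = 0 := fun u => RingHom.mem_ker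
  set R := Localization.AtPrime O with hR
  have hmaxR : ∀ u : MvPolynomial σ k, eval a u = 0 →
      algebraMap (MvPolynomial σ k) R u ∈ IsLocalRing.maximalIdeal R := fun u hu =>
    (IsLocalization.AtPrime.to_map_mem_maximal_iff R O u).2 ((mem_O u).2 hu)
  let eσ : Fin (Fintype.card σ) ≃ σ := (Fintype.equivFin σ).symm
  let eτ : Fin (Fintype.card τ) ≃ τ := (Fintype.equivFin τ).symm
  have hreg : IsRegular R ((List.ofFn fun i => (X (eσ i) - C (a (eσ i)) : MvPolynomial σ k)).map
      (algebraMap (MvPolynomial σ k) R)) := by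
    refine (cia_weak eσ a).isRegular_of_isLocalization_of_mem (S := R) O ?_
    intro r hr
    rw [List.mem_ofFn] at hr
    obtain ⟨v, rfl⟩ := hr
    rw [mem_O]
    simp
  have hmem : ∀ r ∈ ((List.ofFn fun i => (X (eσ i) - C (a (eσ i)) : MvPolynomial σ k)).map
      (algebraMap (MvPolynomial σ k) R)), r ∈ IsLocalRing.maximalIdeal R := by
    intro r hr
    rw [List.mem_map] at hr
    obtain ⟨u, hu, rfl⟩ := hr
    rw [List.mem_ofFn] at hu
    obtain ⟨v, rfl⟩ := hu
    exact hmaxR _ (by simp)
  have hrange : Ideal.span (Set.range fun i => algebraMap (MvPolynomial σ k) R (f (eτ i))) =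
      (Ideal.span (Set.range f)).map (algebraMap (MvPolynomial σ k) R) := by
    rw [Ideal.map_span]
    congr 1
    ext x
    constructor
    · rintro ⟨i, rfl⟩
      exact ⟨f (eτ i), ⟨eτ i, rfl⟩, rfl⟩
    · rintro ⟨_, ⟨i, rfl⟩, rfl⟩
      exact ⟨eτ.symm i, by simp⟩
  have hsup : Ideal.span (Set.range fun i => algebraMap (MvPolynomial σ k) R (f (eτ i))) ⊔
      Ideal.span {algebraMap (MvPolynomial σ k) R c} =
      (Ideal.span (Set.range f) ⊔ Ideal.span {c}).map (algebraMap (MvPolynomial σ k) R) := by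
    rw [hrange, Ideal.map_sup, Ideal.map_span _ {c}, Set.image_singleton]
  have hdimR : ringKrullDim (R ⧸ (Ideal.span (Set.range fun i =>
      algebraMap (MvPolynomial σ k) R (f (eτ i))) ⊔
      Ideal.span {algebraMap (MvPolynomial σ k) R c})) +
      ((Fintype.card τ + 1 : ℕ) : WithBot ℕ∞) ≤ ((Fintype.card σ : ℕ) : WithBot ℕ∞) := by
    rw [hsup]
    refine cia_dim (MvPolynomial σ k) O _ (Fintype.card σ) (Fintype.card τ + 1) ?_
    intro P hP hle hPO
    refine hdim P hP (fun i => hle ?_) (hle ?_) ?_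
    · exact Ideal.mem_sup_left (Ideal.subset_span ⟨i, rfl⟩)
    · exact Ideal.mem_sup_right (Ideal.subset_span rfl)
    · intro hθP
      exact hθ ((mem_O θ).1 (hPO hθP))
  have hloc := hCMl R (Fintype.card σ) (Fintype.card τ) _ hmem hreg (by simp)
    (fun i => algebraMap (MvPolynomial σ k) R (f (eτ i))) (algebraMap (MvPolynomial σ k) R c)
    (fun i => hmaxR _ (hfa (eτ i))) (hmaxR _ hca) hdimR
  have h1 : algebraMap (MvPolynomial σ k) R q ∈
      (Ideal.span (Set.range f)).map (algebraMap (MvPolynomial σ k) R) := by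
    rw [← hrange]
    refine hloc _ ?_
    rw [hrange, ← map_mul]
    exact Ideal.mem_map_of_mem _ hq
  rw [IsLocalization.algebraMap_mem_map_algebraMap_iff O.primeCompl] at h1
  obtain ⟨u, hu, huq⟩ := h1
  refine ⟨u, fun h => hu ((mem_O u).2 h), ?_⟩
  exact huq

theorem thm_CIa : St_CIa := by
  classical
  intro k _ _ σ _ τ _ f c θ hdim q hq
  let 𝔞 : Ideal (MvPolynomial σ k) :=
    { carrier := {h | h * q ∈ Ideal.span (Set.range f)}
      zero_mem' := by
        show (0 : MvPolynomial σ k) * q ∈ Ideal.span (Set.range f)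
        rw [zero_mul]
        exact Ideal.zero_mem _
      add_mem' := by
        intro x y hx hy
        show (x + y) * q ∈ Ideal.span (Set.range f)
        rw [add_mul]
        exact Ideal.add_mem _ hx hy
      smul_mem' := by
        intro r x hx
        show (r * x) * q ∈ Ideal.span (Set.range f)
        rw [mul_assoc]
        exact Ideal.mul_mem_left _ _ hx }
  have mem_a : ∀ h, h ∈ 𝔞 ↔ h * q ∈ Ideal.span (Set.range f) := fun h => Iff.rfl
  have hrad : θ ∈ 𝔞.radical := by
    rw [← MvPolynomial.vanishingIdeal_zeroLocus_eq_radical (K := k) 𝔞]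
    rw [MvPolynomial.mem_vanishingIdeal_iff]
    intro a ha
    rw [MvPolynomial.mem_zeroLocus_iff] at ha
    have ha' : ∀ p, p * q ∈ Ideal.span (Set.range f) → eval a p = 0 := by
      intro p hp
      have := ha p ((mem_a p).2 hp)
      rwa [MvPolynomial.aeval_eq_eval] at this
    rw [MvPolynomial.aeval_eq_eval]
    by_contra hne
    obtain ⟨u, hu, huq⟩ := cia_pt f c θ hdim q hq a
      (fun i => ha' _ (Ideal.mul_mem_right _ _ (Ideal.subset_span ⟨i, rfl⟩))) (ha' c hq) hne
    exact hu (ha' u huq)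
  obtain ⟨N, hN⟩ := hrad
  exact ⟨N, hN⟩

end Pool.Agent.ANC
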