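import Pool.Agent.ANC.St

/-!
# ANC, module Cdb: the dimension condition passes to blocks

Helper74, for MP_c67a3f_ag.
-/

set_option autoImplicit false

noncomputable section

namespace Pool.Agent.ANC

open Matrix

private theorem cdb_dim {V W : Type} [AddCommGroup V] [Module ℂ V] [FiniteDimensional ℂ V]
    [AddCommGroup W] [Module ℂ W] [FiniteDimensional ℂ W] (f : V →ₗ[ℂ] W)
    (E F : Submodule ℂ V) (E₁ F₁ : Submodule ℂ W) (hF : F ≤ E) (hF₁ : F₁ ≤ E₁)
    (h1 : ∀ x ∈ E, f x ∈ E₁) (h2 : ∀ y ∈ E₁, ∃ x ∈ E, f x = y) (h3 : ∀ x ∈ F, f x ∈ F₁)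
    (h : Module.finrank ℂ E ≤ Module.finrank ℂ F + 1) :
    Module.finrank ℂ E₁ ≤ Module.finrank ℂ F₁ + 1 := by
  let g : E →ₗ[ℂ] E₁ := f.restrict h1
  let q : (E ⧸ Submodule.comap E.subtype F) →ₗ[ℂ] (E₁ ⧸ Submodule.comap E₁.subtype F₁) :=
    Submodule.mapQ _ _ g (fun x hx => h3 _ hx)
  have hq : Function.Surjective q := by
    intro y
    obtain ⟨y, rfl⟩ := Submodule.mkQ_surjective _ y
    obtain ⟨x, hx, hxy⟩ := h2 y.1 y.2
    refine ⟨Submodule.mkQ _ ⟨x, hx⟩, ?_⟩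
    show Submodule.mkQ _ (g ⟨x, hx⟩) = Submodule.mkQ _ y
    congr 1
    exact Subtype.ext hxy
  have k1 := LinearMap.finrank_le_finrank_of_surjective hq
  have k2 := Submodule.finrank_quotient_add_finrank (Submodule.comap E.subtype F)
  have k3 := Submodule.finrank_quotient_add_finrank (Submodule.comap E₁.subtype F₁)
  have k4 := (Submodule.comapSubtypeEquivOfLe hF).finrank_eq
  have k5 := (Submodule.comapSubtypeEquivOfLe hF₁).finrank_eq
  omega

private theorem cdb_pow {V W : Type} [AddCommGroup V] [Module ℂ V] [AddCommGroup W] [Module ℂ W]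
    (p : V →ₗ[ℂ] W) (f : Module.End ℂ V) (f₁ : Module.End ℂ W) (μ : ℂ)
    (h : ∀ x, p (f x) = f₁ (p x)) (k : ℕ) :
    ∀ x, p (((f - μ • (1 : Module.End ℂ V)) ^ k) x) = ((f₁ - μ • (1 : Module.End ℂ W)) ^ k) (p x) := by
  induction k with
  | zero => intro x; rfl
  | succ k ih =>
    intro x
    rw [pow_succ, pow_succ, Module.End.mul_apply, Module.End.mul_apply, ih]
    congr 1
    simp [h]

private theorem cdb_gen {V W : Type} [AddCommGroup V] [Module ℂ V] [AddCommGroup W] [Module ℂ W]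
    (p : V →ₗ[ℂ] W) (f : Module.End ℂ V) (f₁ : Module.End ℂ W) (μ : ℂ)
    (h : ∀ x, p (f x) = f₁ (p x)) {x : V} (hx : x ∈ f.maxGenEigenspace μ) :
    p x ∈ f₁.maxGenEigenspace μ := by
  rw [Module.End.mem_maxGenEigenspace] at hx ⊢
  obtain ⟨k, hk⟩ := hx
  exact ⟨k, by rw [← cdb_pow p f f₁ μ h, hk, map_zero]⟩

private theorem cdb_key {n k : ℕ} (A B : Matrix (Fin n) (Fin n) ℂ)
    (A₁ B₁ : Matrix (Fin k) (Fin k) ℂ) (I : Matrix (Fin n) (Fin k) ℂ)
    (P : Matrix (Fin k) (Fin n) ℂ) (h : P * I = 1) (hA : A * I = I * A₁) (hB : B * I = I * B₁)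
    (hA' : P * A = A₁ * P) (hB' : P * B = B₁ * P) (α β : ℂ) (hc : Cd A B α β) :
    Cd A₁ B₁ α β := by
  obtain ⟨v, hv⟩ := hc
  refine ⟨P *ᵥ v, ?_⟩
  have hpA : ∀ a : ℕ, P * A ^ a = A₁ ^ a * P := by
    intro a
    induction a with
    | zero => simp
    | succ a ih =>
      rw [pow_succ, pow_succ, ← Matrix.mul_assoc, ih, Matrix.mul_assoc, hA', Matrix.mul_assoc]
  have hpB : ∀ a : ℕ, P * B ^ a = B₁ ^ a * P := by
    intro a
    induction a with
    | zero => simp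
    | succ a ih =>
      rw [pow_succ, pow_succ, ← Matrix.mul_assoc, ih, Matrix.mul_assoc, hB', Matrix.mul_assoc]
  have hgen : ∀ x ∈ gen A B v, P *ᵥ x ∈ gen A₁ B₁ (P *ᵥ v) := by
    have : gen A B v ≤ Submodule.comap (Matrix.toLin' P) (gen A₁ B₁ (P *ᵥ v)) := by
      unfold gen
      rw [Submodule.span_le]
      rintro _ ⟨p, rfl⟩
      rw [SetLike.mem_coe, Submodule.mem_comap]
      show Matrix.toLin' P ((A ^ p.1 * B ^ p.2) *ᵥ v) ∈ _
      rw [Matrix.toLin'_apply, Matrix.mulVec_mulVec, ← Matrix.mul_assoc, hpA, Matrix.mul_assoc,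
        hpB, ← Matrix.mul_assoc, ← Matrix.mulVec_mulVec]
      exact Submodule.subset_span ⟨p, rfl⟩
    intro x hx
    have := this hx
    rw [Submodule.mem_comap, Matrix.toLin'_apply] at this
    exact this
  have hE : ∀ x ∈ gE A B α β, P *ᵥ x ∈ gE A₁ B₁ α β := by
    rintro x ⟨hx1, hx2⟩
    refine ⟨?_, ?_⟩
    · have := cdb_gen (Matrix.toLin' P) (Matrix.toLin' A) (Matrix.toLin' A₁) α (fun y => by
        simp only [Matrix.toLin'_apply, Matrix.mulVec_mulVec, hA']) hx1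
      rw [Matrix.toLin'_apply] at this
      exact this
    · have := cdb_gen (Matrix.toLin' P) (Matrix.toLin' B) (Matrix.toLin' B₁) β (fun y => by
        simp only [Matrix.toLin'_apply, Matrix.mulVec_mulVec, hB']) hx2
      rw [Matrix.toLin'_apply] at this
      exact this
  have hI : ∀ x ∈ gE A₁ B₁ α β, I *ᵥ x ∈ gE A B α β := by
    rintro x ⟨hx1, hx2⟩
    refine ⟨?_, ?_⟩
    · have := cdb_gen (Matrix.toLin' I) (Matrix.toLin' A₁) (Matrix.toLin' A) α (fun y => by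
        simp only [Matrix.toLin'_apply, Matrix.mulVec_mulVec, hA]) hx1
      rw [Matrix.toLin'_apply] at this
      exact this
    · have := cdb_gen (Matrix.toLin' I) (Matrix.toLin' B₁) (Matrix.toLin' B) β (fun y => by
        simp only [Matrix.toLin'_apply, Matrix.mulVec_mulVec, hB]) hx2
      rw [Matrix.toLin'_apply] at this
      exact this
  refine cdb_dim (Matrix.toLin' P) (gE A B α β) (gE A B α β ⊓ gen A B v) (gE A₁ B₁ α β)
    (gE A₁ B₁ α β ⊓ gen A₁ B₁ (P *ᵥ v)) inf_le_left inf_le_left ?_ ?_ ?_ hv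
  · intro x hx
    rw [Matrix.toLin'_apply]
    exact hE x hx
  · intro y hy
    refine ⟨I *ᵥ y, hI y hy, ?_⟩
    rw [Matrix.toLin'_apply, Matrix.mulVec_mulVec, h, Matrix.one_mulVec]
  · rintro x ⟨hx1, hx2⟩
    rw [Matrix.toLin'_apply]
    exact ⟨hE x hx1, hgen x hx2⟩

private theorem cdb_both {n n₁ n₂ : ℕ} (A B : Matrix (Fin n) (Fin n) ℂ)
    (e : Fin n ≃ Fin n₁ ⊕ Fin n₂) (P P' : Matrix (Fin n) (Fin n) ℂ)
    (A₁ B₁ : Matrix (Fin n₁) (Fin n₁) ℂ) (A₂ B₂ : Matrix (Fin n₂) (Fin n₂) ℂ)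
    (h1 : P * P' = 1) (h2 : P' * P = 1)
    (hA : Matrix.reindex e e (P' * A * P) = Matrix.fromBlocks A₁ 0 0 A₂)
    (hB : Matrix.reindex e e (P' * B * P) = Matrix.fromBlocks B₁ 0 0 B₂) (α β : ℂ)
    (hc : Cd A B α β) : Cd A₁ B₁ α β ∧ Cd A₂ B₂ α β := by
  set R : Matrix (Fin n) (Fin n₁ ⊕ Fin n₂) ℂ := P.submatrix id e.symm with hR
  set R' : Matrix (Fin n₁ ⊕ Fin n₂) (Fin n) ℂ := P'.submatrix e.symm id with hR'
  have r1 : R' * R = 1 := by
    show P'.submatrix e.symm (Equiv.refl (Fin n)) * P.submatrix (Equiv.refl (Fin n)) e.symm = 1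
    rw [Matrix.submatrix_mul_equiv, h2, Matrix.submatrix_one_equiv]
  have r2 : R * R' = 1 := by
    show P.submatrix id e.symm * P'.submatrix e.symm id = 1
    rw [Matrix.submatrix_mul_equiv, h1, Matrix.submatrix_id_id]
  have rX : ∀ (X : Matrix (Fin n) (Fin n) ℂ) (D : Matrix (Fin n₁ ⊕ Fin n₂) (Fin n₁ ⊕ Fin n₂) ℂ),
      Matrix.reindex e e (P' * X * P) = D → X * R = R * D ∧ R' * X = D * R' := by
    intro X D hX
    have h3 : R' * X * R = D := by
      rw [← hX, Matrix.reindex_apply]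
      show P'.submatrix e.symm (Equiv.refl (Fin n)) *
        X.submatrix (Equiv.refl (Fin n)) (Equiv.refl (Fin n)) *
        P.submatrix (Equiv.refl (Fin n)) e.symm = _
      rw [Matrix.submatrix_mul_equiv, Matrix.submatrix_mul_equiv]
    constructor
    · rw [← h3, ← Matrix.mul_assoc, ← Matrix.mul_assoc, r2, Matrix.one_mul]
    · rw [← h3, Matrix.mul_assoc, r2, Matrix.mul_one]
  obtain ⟨a1, a2⟩ := rX A _ hA
  obtain ⟨b1, b2⟩ := rX B _ hB
  have c1 : ∀ (X : Matrix (Fin n) (Fin n) ℂ) (X₁ : Matrix (Fin n₁) (Fin n₁) ℂ)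
      (X₂ : Matrix (Fin n₂) (Fin n₂) ℂ), X * R = R * Matrix.fromBlocks X₁ 0 0 X₂ →
      X * R.submatrix id Sum.inl = R.submatrix id Sum.inl * X₁ ∧
      X * R.submatrix id Sum.inr = R.submatrix id Sum.inr * X₂ := by
    intro X X₁ X₂ hX
    constructor
    · ext i j
      have := congrFun (congrFun hX i) (Sum.inl j)
      rw [Matrix.mul_apply, Matrix.mul_apply, Fintype.sum_sum_type] at this
      simp only [Matrix.fromBlocks_apply₁₁, Matrix.fromBlocks_apply₂₁, Matrix.zero_apply, mul_zero,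
        Finset.sum_const_zero, add_zero] at this
      rw [Matrix.mul_apply, Matrix.mul_apply]
      exact this
    · ext i j
      have := congrFun (congrFun hX i) (Sum.inr j)
      rw [Matrix.mul_apply, Matrix.mul_apply, Fintype.sum_sum_type] at this
      simp only [Matrix.fromBlocks_apply₁₂, Matrix.fromBlocks_apply₂₂, Matrix.zero_apply, mul_zero,
        Finset.sum_const_zero, zero_add] at this
      rw [Matrix.mul_apply, Matrix.mul_apply]
      exact this
  have c2 : ∀ (X : Matrix (Fin n) (Fin n) ℂ) (X₁ : Matrix (Fin n₁) (Fin n₁) ℂ)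
      (X₂ : Matrix (Fin n₂) (Fin n₂) ℂ), R' * X = Matrix.fromBlocks X₁ 0 0 X₂ * R' →
      R'.submatrix Sum.inl id * X = X₁ * R'.submatrix Sum.inl id ∧
      R'.submatrix Sum.inr id * X = X₂ * R'.submatrix Sum.inr id := by
    intro X X₁ X₂ hX
    constructor
    · ext i j
      have := congrFun (congrFun hX (Sum.inl i)) j
      rw [Matrix.mul_apply, Matrix.mul_apply, Fintype.sum_sum_type] at this
      simp only [Matrix.fromBlocks_apply₁₁, Matrix.fromBlocks_apply₁₂, Matrix.zero_apply, zero_mul,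
        Finset.sum_const_zero, add_zero] at this
      rw [Matrix.mul_apply, Matrix.mul_apply]
      exact this
    · ext i j
      have := congrFun (congrFun hX (Sum.inr i)) j
      rw [Matrix.mul_apply, Matrix.mul_apply, Fintype.sum_sum_type] at this
      simp only [Matrix.fromBlocks_apply₂₁, Matrix.fromBlocks_apply₂₂, Matrix.zero_apply, zero_mul,
        Finset.sum_const_zero, zero_add] at this
      rw [Matrix.mul_apply, Matrix.mul_apply]
      exact this
  have d1 : R'.submatrix Sum.inl id * R.submatrix id Sum.inl = 1 := by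
    ext i j
    have := congrFun (congrFun r1 (Sum.inl i)) (Sum.inl j)
    rw [Matrix.mul_apply] at this ⊢
    show (∑ k, R' (Sum.inl i) k * R k (Sum.inl j)) = _
    rw [this, Matrix.one_apply, Matrix.one_apply]
    simp only [Sum.inl.injEq]
  have d2 : R'.submatrix Sum.inr id * R.submatrix id Sum.inr = 1 := by
    ext i j
    have := congrFun (congrFun r1 (Sum.inr i)) (Sum.inr j)
    rw [Matrix.mul_apply] at this ⊢
    show (∑ k, R' (Sum.inr i) k * R k (Sum.inr j)) = _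
    rw [this, Matrix.one_apply, Matrix.one_apply]
    simp only [Sum.inr.injEq]
  exact ⟨cdb_key A B A₁ B₁ _ _ d1 (c1 A A₁ A₂ a1).1 (c1 B B₁ B₂ b1).1 (c2 A A₁ A₂ a2).1
    (c2 B B₁ B₂ b2).1 α β hc, cdb_key A B A₂ B₂ _ _ d2 (c1 A A₁ A₂ a1).2 (c1 B B₁ B₂ b1).2
    (c2 A A₁ A₂ a2).2 (c2 B B₁ B₂ b2).2 α β hc⟩

theorem thm_Cdb : St_Cdb := by
  intro n n₁ n₂ A B e Q A₁ B₁ A₂ B₂ t _ hA hB _ α β
  refine ⟨cdb_both A B e Q.val (Q⁻¹ : (Matrix (Fin n) (Fin n) ℂ)ˣ).val A₁ B₁ A₂ B₂ (Units.mul_inv Q)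
    (Units.inv_mul Q) hA hB α β, ?_⟩
  refine cdb_both Aᵀ Bᵀ e ((Q⁻¹ : (Matrix (Fin n) (Fin n) ℂ)ˣ).val)ᵀ (Q.val)ᵀ A₁ᵀ B₁ᵀ A₂ᵀ B₂ᵀ
    ?_ ?_ ?_ ?_ α β
  · rw [← Matrix.transpose_mul, Units.mul_inv, Matrix.transpose_one]
  · rw [← Matrix.transpose_mul, Units.inv_mul, Matrix.transpose_one]
  · have h := congrArg Matrix.transpose hA
    rw [Matrix.fromBlocks_transpose, Matrix.transpose_zero, Matrix.transpose_zero] at h
    rw [← h]
    simp only [Matrix.reindex_apply, Matrix.transpose_submatrix, Matrix.transpose_mul, mul_assoc]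
  · have h := congrArg Matrix.transpose hB
    rw [Matrix.fromBlocks_transpose, Matrix.transpose_zero, Matrix.transpose_zero] at h
    rw [← h]
    simp only [Matrix.reindex_apply, Matrix.transpose_submatrix, Matrix.transpose_mul, mul_assoc]

end Pool.Agent.ANC
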