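import Pool.Agent.ANC.St

/-!
# ANC, module Chs: the chase
-/

set_option autoImplicit false

noncomputable section

namespace Pool.Agent.ANC

private theorem chs_one (R Q : Type) [CommRing R] [CommRing Q] (b : Ideal R) (φ : R →+* Q)
    (ψ : Q →+* R ⧸ b) (D c : R) (h1 : ∀ r, ψ (φ r) = Ideal.Quotient.mk b r) (h2 : ∀ r ∈ b, c * r = 0)
    (h3 : ∀ r, D * r = 0 → r = 0) (h4 : ∀ q, φ c * q ∈ Ideal.span {φ D} → q ∈ Ideal.span {φ D})
    (f : R) (hf : D * f ∈ Ideal.span {c}) : f ∈ Ideal.span {c} := by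
  obtain ⟨g, hg⟩ := Ideal.mem_span_singleton.1 hf
  have h5 : φ c * φ g ∈ Ideal.span {φ D} := by
    refine Ideal.mem_span_singleton.2 ⟨φ f, ?_⟩
    rw [← map_mul, ← map_mul, hg]
  obtain ⟨q, hq⟩ := Ideal.mem_span_singleton.1 (h4 _ h5)
  obtain ⟨r, hr⟩ := Ideal.Quotient.mk_surjective (ψ q)
  have h6 : Ideal.Quotient.mk b g = Ideal.Quotient.mk b (D * r) := by
    rw [← h1 g, hq, map_mul, h1 D, map_mul, hr]
  have h7 : g - D * r ∈ b := Ideal.Quotient.eq.1 h6
  have h8 := h2 _ h7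
  have h9 : D * (f - c * r) = 0 := by
    have e1 : D * (f - c * r) = c * (g - D * r) := by
      rw [mul_sub, hg]
      ring
    rw [e1, h8]
  have h10 := h3 _ h9
  exact Ideal.mem_span_singleton.2 ⟨r, sub_eq_zero.1 h10⟩

theorem thm_Chs : St_Chs := by
  intro R Q _ _ b φ ψ D c h1 h2 h3 h4 N
  induction N with
  | zero =>
    intro f hf
    rwa [pow_zero, one_mul] at hf
  | succ N ih =>
    intro f hf
    refine chs_one R Q b φ ψ D c h1 h2 h3 h4 f (ih (D * f) ?_)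
    rwa [← mul_assoc, ← pow_succ]

end Pool.Agent.ANC
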