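import Pool.Agent.ANC.St
import Pool.Agent.CTR.GL

/-!
# ANC: conjugation and reindexing

Helper2, for MP_c67a3f_ag (statement of helper40, `ANC.St_Cnj`).
-/

set_option autoImplicit false

noncomputable section

namespace Pool.Agent.ANC

open Matrix Pool.Agent.CTR

/-- `glM` with the coefficients `1, 0`. -/
theorem cnj_glX {S : Type} [CommRing S] [Algebra ℂ S] {ι κ : Type} [Fintype ι] [Fintype κ]
    [DecidableEq ι] [DecidableEq κ] (e : ι ≃ κ) (Q Q' : Matrix ι ι ℂ) (X Y : Matrix ι ι S) :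
    glM e Q Q' 1 0 X Y =
      Matrix.reindex e e (Q'.map (algebraMap ℂ S) * X * Q.map (algebraMap ℂ S)) := by
  unfold glM
  rw [one_smul, zero_smul, add_zero]

/-- `glM` with the coefficients `0, 1`. -/
theorem cnj_glY {S : Type} [CommRing S] [Algebra ℂ S] {ι κ : Type} [Fintype ι] [Fintype κ]
    [DecidableEq ι] [DecidableEq κ] (e : ι ≃ κ) (Q Q' : Matrix ι ι ℂ) (X Y : Matrix ι ι S) :
    glM e Q Q' 0 1 X Y =
      Matrix.reindex e e (Q'.map (algebraMap ℂ S) * Y * Q.map (algebraMap ℂ S)) := by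
  unfold glM
  rw [one_smul, zero_smul, zero_add]

/-- **Cnj** -/
theorem thm_Cnj : St_Cnj := by
  intro ι κ _ _ _ _ e Q A B hRd f hf
  obtain ⟨m, hfm⟩ := hf
  have hQ1 : Q.val * (Q⁻¹ : (Matrix ι ι ℂ)ˣ).val = 1 := Q.mul_inv
  have hQ2 : (Q⁻¹ : (Matrix ι ι ℂ)ˣ).val * Q.val = 1 := Q.inv_mul
  set Q' := (Q⁻¹ : (Matrix ι ι ℂ)ˣ).val with hQ'
  -- the homomorphisms
  let α : Rg κ ℂ →ₐ[ℂ] Rg ι ℂ :=
    ev (glM e Q.val Q' 1 0 (mX ι ℂ) (mY ι ℂ)) (glM e Q.val Q' 0 1 (mX ι ℂ) (mY ι ℂ))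
  let α' : Rg ι ℂ →ₐ[ℂ] Rg κ ℂ :=
    ev (glM e.symm (Matrix.reindex e e Q') (Matrix.reindex e e Q.val) 1 0 (mX κ ℂ) (mY κ ℂ))
      (glM e.symm (Matrix.reindex e e Q') (Matrix.reindex e e Q.val) 0 1 (mX κ ℂ) (mY κ ℂ))
  have hcomp : α.comp α' = AlgHom.id ℂ _ := by
    apply gl_ext
    · have h1 : (mX ι ℂ).map (α.comp α') = ((mX ι ℂ).map α').map α := rfl
      rw [h1, gl_ev_X, glM_map, gl_ev_X, gl_ev_Y, glM_inv e _ _ hQ1]
      rw [mul_one, mul_zero, mul_zero, zero_mul, add_zero, add_zero, one_smul, zero_smul, add_zero]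
      rfl
    · have h1 : (mY ι ℂ).map (α.comp α') = ((mY ι ℂ).map α').map α := rfl
      rw [h1, gl_ev_Y, glM_map, gl_ev_X, gl_ev_Y, glM_inv e _ _ hQ1]
      rw [zero_mul, zero_mul, mul_zero, mul_one, add_zero, zero_add, one_smul, zero_smul, zero_add]
      rfl
  have hα : comI κ ℂ ≤ (comI ι ℂ).comap α := by
    apply gl_le
    rw [gl_ev_X, gl_ev_Y]
    have h1 := glM_comm e Q.val Q' hQ1 1 0 0 1 _ _ (gl_comm ι ℂ)
    have h2 : ∀ u v : ℂ, (glM e Q.val Q' u v (mX ι ℂ) (mY ι ℂ)).map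
        (Ideal.Quotient.mk (comI ι ℂ)) =
        glM e Q.val Q' u v ((mX ι ℂ).map (Ideal.Quotient.mk (comI ι ℂ)))
          ((mY ι ℂ).map (Ideal.Quotient.mk (comI ι ℂ))) := fun u v =>
      glM_map e Q.val Q' u v _ _ (Ideal.Quotient.mkₐ ℂ (comI ι ℂ))
    rw [h2, h2]
    exact h1
  have hα' : comI ι ℂ ≤ (comI κ ℂ).comap α' := by
    apply gl_le
    rw [gl_ev_X, gl_ev_Y]
    have hQ3 : Matrix.reindex e e Q' * Matrix.reindex e e Q.val = 1 := by
      have h0 := map_mul (Matrix.reindexAlgEquiv ℂ ℂ e) Q' Q.val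
      rw [hQ2, map_one] at h0
      exact h0.symm
    have h1 := glM_comm e.symm _ _ hQ3 1 0 0 1 _ _ (gl_comm κ ℂ)
    have h2 : ∀ u v : ℂ, (glM e.symm (Matrix.reindex e e Q') (Matrix.reindex e e Q.val) u v
        (mX κ ℂ) (mY κ ℂ)).map (Ideal.Quotient.mk (comI κ ℂ)) =
        glM e.symm (Matrix.reindex e e Q') (Matrix.reindex e e Q.val) u v
          ((mX κ ℂ).map (Ideal.Quotient.mk (comI κ ℂ)))
          ((mY κ ℂ).map (Ideal.Quotient.mk (comI κ ℂ))) := fun u v =>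
      glM_map e.symm _ _ u v _ _ (Ideal.Quotient.mkₐ ℂ (comI κ ℂ))
    rw [h2, h2]
    exact h1
  obtain ⟨g, hg1, hg2⟩ := hRd (α' f) ⟨m, by
    rw [← map_pow]
    exact hα' hfm⟩
  have hid : ∀ M : Matrix ι ι ℂ, M.map (algebraMap ℂ ℂ) = M := by
    intro M
    ext i j
    simp
  have hev : (ev A B).comp α =
      ev (Matrix.reindex e e (Q' * A * Q.val)) (Matrix.reindex e e (Q' * B * Q.val)) := by
    apply gl_ext
    · have h1 : (mX κ ℂ).map ((ev A B).comp α) = ((mX κ ℂ).map α).map (ev A B) := rfl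
      rw [h1, gl_ev_X, glM_map, gl_ev_X, gl_ev_Y, gl_ev_X, cnj_glX, hid, hid]
    · have h1 : (mY κ ℂ).map ((ev A B).comp α) = ((mY κ ℂ).map α).map (ev A B) := rfl
      rw [h1, gl_ev_Y, glM_map, gl_ev_X, gl_ev_Y, gl_ev_Y, cnj_glY, hid, hid]
  refine ⟨α g, ?_, ?_⟩
  · have h1 : (ev A B) (α g) = ((ev A B).comp α) g := rfl
    rw [h1, hev]
    exact hg1
  · have h1 := hα hg2
    rw [Ideal.mem_comap, map_mul] at h1
    have h2 : α (α' f) = f := congrFun (congrArg DFunLike.coe hcomp) f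
    rwa [h2] at h1

end Pool.Agent.ANC
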