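import Pool.Agent.ANC.St
import Pool.Agent.ACV.Der

/-!
# ANC: DQ, the dimension of the bad part of the triangular form (offer 16341, helper81)
-/

set_option autoImplicit false

noncomputable section

namespace Pool.Agent.ANC

open Matrix Pool.Agent.CTR

theorem dq_wd {ι R S : Type} [Fintype ι] [DecidableEq ι] [CommRing R] [CommRing S] (f : R →+* S)
    (x y : Matrix ι ι R) (w : List Bool) : wd (x.map f) (y.map f) w = (wd x y w).map f := by
  induction w with
  | nil =>
    show (1 : Matrix ι ι S) = (1 : Matrix ι ι R).map f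
    rw [Matrix.map_one f (map_zero f) (map_one f)]
  | cons b w ih =>
    show (if b then x.map f else y.map f) * wd (x.map f) (y.map f) w =
      ((if b then x else y) * wd x y w).map f
    rw [ih, Matrix.map_mul]
    cases b <;> rfl

theorem dq_frH {m : ℕ} {R S : Type} [CommRing R] [CommRing S] (f : R →+* S)
    (W : Fin m → List Bool) (x y : Matrix (Fin m) (Fin m) R) (v : Fin m → R) :
    (frH W (x.map f) (y.map f) (fun i => f (v i))).det = f (frH W x y v).det := by
  rw [RingHom.map_det]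
  congr 1
  ext i a
  show (wd (x.map f) (y.map f) (W a) *ᵥ fun i => f (v i)) i = f ((wd x y (W a) *ᵥ v) i)
  rw [dq_wd]
  simp only [Matrix.mulVec, dotProduct, Matrix.map_apply, map_sum, map_mul]

theorem dq_dsx {ι R S : Type} [Fintype ι] [DecidableEq ι] [CommRing R] [CommRing S] (f : R →+* S)
    (n : ℕ) (M : Matrix ι ι R) : dsx n (M.map f) = f (dsx n M) := by
  unfold dsx
  rw [RingHom.map_det]
  congr 1
  ext a b
  simp only [RingHom.mapMatrix_apply, Matrix.map_apply, Matrix.of_apply]
  have h1 : (M.map f) ^ ((a : ℕ) + b) = (M ^ ((a : ℕ) + b)).map f :=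
    (map_pow (RingHom.mapMatrix f) M ((a : ℕ) + b)).symm
  rw [h1]
  simp only [Matrix.trace, Matrix.diag_apply, Matrix.map_apply, map_sum]

theorem dq_bl {m : ℕ} {R S : Type} [CommRing R] [CommRing S] (f : R →+* S)
    (A : Matrix (Fin m) (Fin m) R) (a : Fin m → R) (α : R) :
    bl (A.map f) (fun i => f (a i)) (f α) = (bl A a α).map f := by
  unfold bl
  rw [Matrix.fromBlocks_map]
  congr 1
  ext i j
  show (0 : S) = f 0
  rw [map_zero]

/-- **DQ** -/
theorem thm_DQ (hTQ : St_TQ) : St_DQ := by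
  intro m W P hP hI hd hc hfr
  classical
  let L := AlgebraicClosure (FractionRing (RQ m ⧸ P))
  let φ : RQ m →+* L := (algebraMap (RQ m ⧸ P) L).comp (Ideal.Quotient.mk P)
  have hφ : ∀ f ∈ P, φ f = 0 := by
    intro f hf
    change algebraMap (RQ m ⧸ P) L (Ideal.Quotient.mk P f) = 0
    rw [Ideal.Quotient.eq_zero_iff_mem.mpr hf, map_zero]
  have hφ' : ∀ f, φ f = 0 → f ∈ P := by
    intro f hf
    have h1 : Function.Injective (algebraMap (RQ m ⧸ P) L) := by
      rw [IsScalarTower.algebraMap_eq (RQ m ⧸ P) (FractionRing (RQ m ⧸ P)) L]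
      exact (FaithfulSMul.algebraMap_injective (FractionRing (RQ m ⧸ P)) L).comp
        (IsFractionRing.injective (RQ m ⧸ P) (FractionRing (RQ m ⧸ P)))
    have h2 : Ideal.Quotient.mk P f = 0 := by
      apply h1
      rw [map_zero]
      exact hf
    exact Ideal.Quotient.eq_zero_iff_mem.1 h2
  let A : Matrix (Fin m) (Fin m) L := (qA m).map φ
  let B : Matrix (Fin m) (Fin m) L := (qB m).map φ
  let v : Fin m → L := fun i => φ (qv m i)
  let j : Fin m → L := fun i => φ (qj m i)
  let a : Fin m → L := fun i => φ (qw m 0 i)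
  let b : Fin m → L := fun i => φ (qw m 1 i)
  let z : Fin m → L := fun i => φ (qw m 2 i)
  let α : L := φ (qs m 0)
  let β : L := φ (qs m 1)
  have hc0 : φ (qs m 2) = 0 := hφ _ hc
  have hAC : AC A B v j := by
    unfold AC
    ext r s
    have h1 : φ (eqQ m (Sum.inl (r, s))) = 0 := hφ _ (hI (Ideal.subset_span ⟨Sum.inl (r, s), rfl⟩))
    have h2 : φ (eqQ m (Sum.inl (r, s))) = (A * B - B * A + vecMulVec v j) r s := by
      simp only [eqQ, Sum.elim_inl, Matrix.add_apply, Matrix.sub_apply, Matrix.mul_apply,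
        vecMulVec_apply, map_add, map_sub, map_sum, map_mul, A, B, v, j, Matrix.map_apply]
    rw [← h2, h1, Matrix.zero_apply]
  have hE2 : E2 A B v a b α β 0 := by
    unfold E2
    ext i
    have h1 : φ (eqQ m (Sum.inr i)) = 0 := hφ _ (hI (Ideal.subset_span ⟨Sum.inr i, rfl⟩))
    have h2 : φ (eqQ m (Sum.inr i)) =
        (A *ᵥ b - α • b - (B *ᵥ a - β • a) + (0 : L) • v) i := by
      simp only [eqQ, Sum.elim_inr, Pi.add_apply, Pi.sub_apply, Pi.smul_apply, Matrix.mulVec,
        dotProduct, map_add, map_sub, map_sum, map_mul, smul_eq_mul, A, B, v, a, b, α, β,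
        Matrix.map_apply, hc0]
    rw [← h2, h1, Pi.zero_apply]
  have hdet : (frH W A B v).det ≠ 0 := by
    intro h
    apply hfr
    apply hφ'
    rw [← dq_frH φ W (qA m) (qB m) (qv m)]
    exact h
  have hdsx : dsx (m + 1) (bl A a α) = 0 := by
    have h1 : bl A a α = (bl (qA m) (qw m 0) (qs m 0)).map φ := dq_bl φ (qA m) (qw m 0) (qs m 0)
    rw [h1, dq_dsx, hφ _ hd]
  obtain ⟨T, hT, hδ⟩ := hTQ L m W A B v j a b z α β hAC hE2 hdet hdsx
  have hco : ∀ i, coQ A B v j a b z α β 0 i = algebraMap (RQ m ⧸ P) L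
      (Ideal.Quotient.mk P (MvPolynomial.X i)) := by
    rintro ((⟨s, r, t⟩ | ⟨s, r⟩) | (⟨s, r⟩ | s))
    · fin_cases s <;> rfl
    · fin_cases s <;> rfl
    · fin_cases s <;> rfl
    · fin_cases s
      · rfl
      · rfl
      · exact hc0.symm
  have hdim := Pool.Agent.ACV.thm_Der ℂ (Qv m) P T (fun δ => by
    have h3 := hδ δ
    simp_rw [hco] at h3
    exact h3)
  exact hdim.trans (by exact_mod_cast hT)

end Pool.Agent.ANC
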