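import Pool.Agent.ANC.St

/-!
# ANC: the theorem (Dec)
-/

set_option autoImplicit false

namespace Pool.Agent.ANC

open Matrix Pool.Agent.CTR

private theorem dec_top {n : ℕ} (A : Matrix (Fin n) (Fin n) ℂ) (α : ℂ) :
    Module.End.maxGenEigenspace (Matrix.toLin' A) α = ⊤ ↔
      (A - α • (1 : Matrix (Fin n) (Fin n) ℂ)) ^ n = 0 := by
  rw [Module.End.maxGenEigenspace_eq_genEigenspace_finrank, Module.End.genEigenspace_nat,
    LinearMap.ker_eq_top]
  have h : Matrix.toLin' A - α • (1 : Module.End ℂ (Fin n → ℂ)) =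
      Matrix.toLin' (A - α • (1 : Matrix (Fin n) (Fin n) ℂ)) := by
    rw [map_sub, map_smul, Matrix.toLin'_one]
    rfl
  rw [h, Module.finrank_fin_fun, ← Matrix.toLin'_pow]
  constructor
  · intro h2
    exact Matrix.toLin'.injective (by rw [h2, map_zero])
  · intro h2
    rw [h2, map_zero]

private theorem dec_tr {n : ℕ} (A : Matrix (Fin n) (Fin n) ℂ) (α : ℂ)
    (h : Module.End.maxGenEigenspace (Matrix.toLin' A) α = ⊤) :
    Module.End.maxGenEigenspace (Matrix.toLin' Aᵀ) α = ⊤ := by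
  rw [dec_top] at h ⊢
  have h2 : Aᵀ - α • (1 : Matrix (Fin n) (Fin n) ℂ) =
      (A - α • (1 : Matrix (Fin n) (Fin n) ℂ))ᵀ := by
    rw [transpose_sub, transpose_smul, transpose_one]
  rw [h2, ← transpose_pow, h, transpose_zero]

private theorem dec_gE {n : ℕ} (A B : Matrix (Fin n) (Fin n) ℂ) (α β : ℂ)
    (h : gE A B α β = ⊤) : gE Aᵀ Bᵀ α β = ⊤ := by
  unfold gE at h ⊢
  rw [inf_eq_top_iff] at h ⊢
  exact ⟨dec_tr A α h.1, dec_tr B β h.2⟩

/-- **Dec.** The theorem. -/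
theorem thm_Dec (hNC : St_NC) (hPrd : St_Prd) (hCnj : St_Cnj) (hBas : St_Bas) (hCdb : St_Cdb) :
    St_Dec := by
  intro n
  induction n using Nat.strong_induction_on with
  | _ n ih =>
  intro A B hAB hCd
  rcases Nat.eq_zero_or_pos n with rfl | hn
  · exact hNC 0 A B (Or.inl ⟨0, by omega⟩)
  · obtain ⟨α, β, t, n₁, n₂, e, Q, A₁, B₁, A₂, B₂, hn1, hA, hB, hco, hg1, -⟩ := hBas n A B hn hAB
    have hcomm : Matrix.fromBlocks A₁ 0 0 A₂ * Matrix.fromBlocks B₁ 0 0 B₂ =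
        Matrix.fromBlocks B₁ 0 0 B₂ * Matrix.fromBlocks A₁ 0 0 A₂ := by
      rw [← hA, ← hB]
      simp only [Matrix.reindex_apply, Matrix.submatrix_mul_equiv]
      congr 1
      have hQ : Q.val * (Q⁻¹ : (Matrix (Fin n) (Fin n) ℂ)ˣ).val = 1 := Q.mul_inv
      calc (Q⁻¹ : (Matrix (Fin n) (Fin n) ℂ)ˣ).val * A * Q.val *
            ((Q⁻¹ : (Matrix (Fin n) (Fin n) ℂ)ˣ).val * B * Q.val)
          = (Q⁻¹ : (Matrix (Fin n) (Fin n) ℂ)ˣ).val * A *
            (Q.val * (Q⁻¹ : (Matrix (Fin n) (Fin n) ℂ)ˣ).val) * B * Q.val := by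
            simp only [mul_assoc]
        _ = (Q⁻¹ : (Matrix (Fin n) (Fin n) ℂ)ˣ).val * (A * B) * Q.val := by
            rw [hQ]; simp only [mul_assoc, one_mul]
        _ = (Q⁻¹ : (Matrix (Fin n) (Fin n) ℂ)ˣ).val * B *
            (Q.val * (Q⁻¹ : (Matrix (Fin n) (Fin n) ℂ)ˣ).val) * A * Q.val := by
            rw [hQ, hAB]; simp only [mul_assoc, one_mul]
        _ = _ := by simp only [mul_assoc]
    rw [Matrix.fromBlocks_multiply, Matrix.fromBlocks_multiply, Matrix.fromBlocks_inj] at hcomm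
    simp only [Matrix.mul_zero, Matrix.zero_mul, add_zero, zero_add] at hcomm
    obtain ⟨hc1, -, -, hc2⟩ := hcomm
    have hcard : n = n₁ + n₂ := by simpa using Fintype.card_congr e
    have hC := hCdb n n₁ n₂ A B e Q A₁ B₁ A₂ B₂ t hAB hA hB hco
    have hR1 : Rd A₁ B₁ := by
      apply hNC
      rcases hCd α β with h | h
      · left
        obtain ⟨v, hv⟩ := ((hC α β).1 h).1
        rw [hg1, top_inf_eq, finrank_top, Module.finrank_fin_fun] at hv
        exact ⟨v, hv⟩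
      · right
        obtain ⟨v, hv⟩ := ((hC α β).2 h).1
        rw [dec_gE _ _ _ _ hg1, top_inf_eq, finrank_top, Module.finrank_fin_fun] at hv
        exact ⟨v, hv⟩
    have hR2 : Rd A₂ B₂ := by
      refine ih n₂ (by omega) A₂ B₂ hc2 fun α' β' => ?_
      rcases hCd α' β' with h | h
      · exact Or.inl ((hC α' β').1 h).2
      · exact Or.inr ((hC α' β').2 h).2
    refine hCnj _ _ e Q A B ?_
    rw [hA, hB]
    exact hPrd n₁ n₂ A₁ B₁ A₂ B₂ t hc1 hc2 hco hR1 hR2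

end Pool.Agent.ANC
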