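import Pool.Agent.ANC.St

/-! # ANC.Frm (MP_c67a3f_ag): the functional `ζ = (z, 1)` -/

set_option autoImplicit false

noncomputable section

namespace Pool.Agent.ANC

open Matrix Pool.Agent.CTR

theorem frm_inl {m : ℕ} {R : Type} [CommRing R] (W : Fin m → List Bool)
    (x y : Matrix (Ix m) (Ix m) R) (v w : Ix m → R) (a : Fin m) :
    (w ᵥ* fr W x y v) (Sum.inl a) = w ⬝ᵥ (wd x y (W a) *ᵥ v) := by
  simp only [Matrix.vecMul, dotProduct, fr, Sum.elim_inl]

theorem frm_inr {m : ℕ} {R : Type} [CommRing R] (W : Fin m → List Bool)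
    (x y : Matrix (Ix m) (Ix m) R) (v w : Ix m → R) :
    (w ᵥ* fr W x y v) (Sum.inr ()) = w (Sum.inr ()) := by
  simp only [Matrix.vecMul, dotProduct, fr, Sum.elim_inr, mul_ite, mul_one, mul_zero,
    Finset.sum_ite_eq', Finset.mem_univ, if_true]

theorem frm_inj {m : ℕ} {R : Type} [CommRing R] (W : Fin m → List Bool)
    (x y : Matrix (Ix m) (Ix m) R) (v : Ix m → R) (hu : IsUnit (fr W x y v).det)
    (w w' : Ix m → R) (h : w ᵥ* fr W x y v = w' ᵥ* fr W x y v) : w = w' := by
  have h1 : w ᵥ* fr W x y v ᵥ* (fr W x y v)⁻¹ = w' ᵥ* fr W x y v ᵥ* (fr W x y v)⁻¹ := by rw [h]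
  rw [Matrix.vecMul_vecMul, Matrix.vecMul_vecMul, Matrix.mul_nonsing_inv _ hu,
    Matrix.vecMul_one, Matrix.vecMul_one] at h1
  exact h1

theorem thm_Frm (hWrd : St_Wrd) : St_Frm := by
  intro m R _ _ W x y v j hAC hu
  set G := fr W x y v with hG
  set ζ : Ix m → R := (G⁻¹) (Sum.inr ()) with hζ
  have hζG : ζ ᵥ* G = (1 : Matrix (Ix m) (Ix m) R) (Sum.inr ()) := by
    have h1 : G⁻¹ * G = 1 := Matrix.nonsing_inv_mul _ hu
    rw [← h1]
    funext s
    rw [Matrix.mul_apply]
    rfl
  have hζ1 : ζ (Sum.inr ()) = 1 := by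
    rw [← frm_inr W x y v ζ, ← hG, hζG, Matrix.one_apply_eq]
  have hzt : zt (fun a => ζ (Sum.inl a)) = ζ := by
    funext s
    rcases s with a | ⟨⟩
    · rfl
    · exact hζ1.symm
  have hj : j = j (Sum.inr ()) • ζ := by
    apply frm_inj W x y v hu
    funext s
    rcases s with a | ⟨⟩
    · rw [frm_inl, hWrd (Ix m) R x y v j hAC, Matrix.smul_vecMul, Pi.smul_apply, ← hG, hζG,
        Matrix.one_apply_ne (by simp), smul_zero]
    · rw [frm_inr, frm_inr, Pi.smul_apply, hζ1, smul_eq_mul, mul_one]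
  refine ⟨fun a => ζ (Sum.inl a), ?_, ?_⟩
  · rw [hzt]; exact hj
  · have key : ∀ (b : Bool) (i : Ix m), j (Sum.inr ()) * ((ζ ᵥ* (if b then x else y)) -
        ((ζ ᵥ* (if b then x else y)) (Sum.inr ())) • ζ) i = 0 := by
      intro b i
      set t := if b then x else y with ht
      set α := (ζ ᵥ* t) (Sum.inr ()) with hα
      have h0 : j (Sum.inr ()) • (ζ ᵥ* t - α • ζ) = 0 := by
        apply frm_inj W x y v hu
        have e : j (Sum.inr ()) • (ζ ᵥ* t - α • ζ) = j ᵥ* t - α • j := by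
          rw [smul_sub, smul_comm, ← Matrix.smul_vecMul, ← hj]
        funext s
        rcases s with a | ⟨⟩
        · rw [e, Matrix.zero_vecMul, frm_inl, sub_dotProduct, smul_dotProduct,
            hWrd (Ix m) R x y v j hAC, smul_zero, sub_zero, Pi.zero_apply,
            ← Matrix.dotProduct_mulVec, Matrix.mulVec_mulVec]
          exact hWrd (Ix m) R x y v j hAC (b :: W a)
        · rw [frm_inr, Matrix.zero_vecMul, Pi.zero_apply, Pi.smul_apply, Pi.sub_apply,
            Pi.smul_apply, hζ1, ← hα, smul_eq_mul, smul_eq_mul, mul_one, sub_self, mul_zero]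
      have h1 := congrFun h0 i
      rwa [Pi.smul_apply, smul_eq_mul, Pi.zero_apply] at h1
    intro r hr
    unfold bI at hr
    rw [hzt] at hr
    induction hr using Submodule.span_induction with
    | mem r h =>
      rcases h with ⟨i, rfl⟩ | ⟨i, rfl⟩ | rfl
      · exact key true i
      · exact key false i
      · have h1 := hWrd (Ix m) R x y v j hAC []
        rw [wd, Matrix.one_mulVec] at h1
        rw [← smul_eq_mul, ← smul_dotProduct, ← hj]
        exact h1
    | zero => exact mul_zero _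
    | add a b _ _ ha hb => rw [mul_add, ha, hb, add_zero]
    | smul a b _ hb => rw [smul_eq_mul, mul_left_comm, hb, mul_zero]

end Pool.Agent.ANC
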