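import Pool.Agent.ANC.St

/-!
# ANC, module HmQ: the universal property, second ring
-/

set_option autoImplicit false

noncomputable section

namespace Pool.Agent.ANC

open Matrix Pool.Agent.CTR

theorem hmq_wd {ι R T : Type} [Fintype ι] [DecidableEq ι] [CommRing R] [CommRing T] (κ : R →+* T)
    (x y : Matrix ι ι R) (w : List Bool) :
    (wd x y w).map κ = wd (x.map κ) (y.map κ) w := by
  induction w with
  | nil => exact Matrix.map_one κ (map_zero κ) (map_one κ)
  | cons b w ih =>
    show ((if b then x else y) * wd x y w).map κ =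
      (if b then x.map κ else y.map κ) * wd (x.map κ) (y.map κ) w
    rw [Matrix.map_mul, ih]
    cases b <;> rfl

theorem thm_HmQ : St_HmQ := by
  intro m W T _ κ hAC hE2 hdet
  have h0 : ∀ a ∈ IQ m, κ a = 0 := by
    have h1 : IQ m ≤ RingHom.ker κ := by
      rw [IQ, Ideal.span_le]
      rintro _ ⟨t, rfl⟩
      rw [SetLike.mem_coe, RingHom.mem_ker]
      rcases t with ⟨i, j⟩ | i
      · show κ ((qA m * qB m - qB m * qA m + vecMulVec (qv m) (qj m)) i j) = 0
        have h2 := congrFun (congrFun hAC i) j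
        rw [← Matrix.map_mul, ← Matrix.map_mul] at h2
        simp only [Matrix.add_apply, Matrix.sub_apply, Matrix.map_apply, Matrix.zero_apply,
          vecMulVec_apply, Function.comp_apply] at h2 ⊢
        rw [map_add, map_sub, map_mul]
        exact h2
      · show κ ((qA m *ᵥ qw m 1 - qs m 0 • qw m 1 - (qB m *ᵥ qw m 0 - qs m 1 • qw m 0) +
          qs m 2 • qv m) i) = 0
        have h2 := congrFun hE2 i
        simp only [Pi.add_apply, Pi.sub_apply, Pi.smul_apply, smul_eq_mul, Pi.zero_apply,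
          Function.comp_apply] at h2 ⊢
        rw [map_add, map_sub, map_sub, map_sub, map_mul, map_mul, map_mul,
          RingHom.map_mulVec, RingHom.map_mulVec]
        exact h2
    exact fun a ha => h1 ha
  obtain ⟨ψ, hψ⟩ : ∃ ψ : RQ m ⧸ IQ m →+* T, ψ.comp (Ideal.Quotient.mk (IQ m)) = κ :=
    ⟨Ideal.Quotient.lift (IQ m) κ h0, Ideal.Quotient.lift_comp_mk _ _ _⟩
  have h3 : IsUnit (ψ (Ideal.Quotient.mk (IQ m) (frH W (qA m) (qB m) (qv m)).det)) := by
    have h4 : ψ (Ideal.Quotient.mk (IQ m) (frH W (qA m) (qB m) (qv m)).det) =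
        κ (frH W (qA m) (qB m) (qv m)).det := by
      rw [← hψ]
      rfl
    rw [h4, RingHom.map_det]
    have h5 : κ.mapMatrix (frH W (qA m) (qB m) (qv m)) =
        frH W ((qA m).map κ) ((qB m).map κ) (κ ∘ qv m) := by
      ext i a
      show κ ((wd (qA m) (qB m) (W a) *ᵥ qv m) i) =
        (wd ((qA m).map κ) ((qB m).map κ) (W a) *ᵥ (κ ∘ qv m)) i
      rw [RingHom.map_mulVec, hmq_wd]
    rw [h5]
    exact hdet
  refine ⟨IsLocalization.Away.lift
    (Ideal.Quotient.mk (IQ m) (frH W (qA m) (qB m) (qv m)).det) h3, ?_⟩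
  unfold jq
  rw [← RingHom.comp_assoc, IsLocalization.Away.lift_comp, hψ]

end Pool.Agent.ANC
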