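import Pool.Agent.ANC.St

/-!
# ANC.HmR: universal property of `RA m W` (MP_c67a3f_ag)
-/

set_option autoImplicit false

noncomputable section

namespace Pool.Agent.ANC

open Matrix Pool.Agent.CTR

private theorem hmr_wd {ι R T : Type} [Fintype ι] [DecidableEq ι] [CommRing R] [CommRing T] (κ : R →+* T)
    (x y : Matrix ι ι R) (w : List Bool) : (wd x y w).map κ = wd (x.map κ) (y.map κ) w := by
  induction w with
  | nil => exact Matrix.map_one κ (map_zero κ) (map_one κ)
  | cons b w ih =>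
    simp only [wd]
    rw [Matrix.map_mul, ih]
    cases b <;> rfl

private theorem hmr_fr {m : ℕ} {R T : Type} [CommRing R] [CommRing T] (κ : R →+* T) (W : Fin m → List Bool)
    (x y : Matrix (Ix m) (Ix m) R) (v : Ix m → R) :
    (fr W x y v).map κ = fr W (x.map κ) (y.map κ) (κ ∘ v) := by
  ext i s
  rcases s with a | s
  · show κ ((wd x y (W a) *ᵥ v) i) = (wd (x.map κ) (y.map κ) (W a) *ᵥ (κ ∘ v)) i
    rw [RingHom.map_mulVec, hmr_wd]
  · show κ (if i = Sum.inr () then 1 else 0) = if i = Sum.inr () then 1 else 0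
    split_ifs <;> simp

private theorem hmr_eq {ι R T : Type} [Fintype ι] [DecidableEq ι] [CommRing R] [CommRing T] (κ : R →+* T)
    (x y : Matrix ι ι R) (v j : ι → R) :
    (x * y - y * x + vecMulVec v j).map κ =
      x.map κ * y.map κ - y.map κ * x.map κ + vecMulVec (κ ∘ v) (κ ∘ j) := by
  rw [← Matrix.map_mul, ← Matrix.map_mul]
  ext a b
  simp only [Matrix.map_apply, Matrix.add_apply, Matrix.sub_apply, vecMulVec_apply, map_add, map_sub, map_mul,
    Function.comp]

theorem thm_HmR : St_HmR := by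
  intro m W T _ κ hAC hU
  have hk : ∀ a ∈ IA (Ix m), κ a = 0 := by
    have h1 : IA (Ix m) ≤ RingHom.ker κ := by
      unfold IA
      rw [Ideal.span_le]
      rintro _ ⟨t, rfl⟩
      have h2 := hmr_eq κ (gX (Ix m)) (gY (Ix m)) (gv (Ix m)) (gj (Ix m))
      unfold AC at hAC
      rw [hAC] at h2
      have h3 := congrFun (congrFun h2 t.1) t.2
      exact h3
    intro a ha
    exact h1 ha
  let φ₀ : (RI (Ix m) ⧸ IA (Ix m)) →+* T := Ideal.Quotient.lift (IA (Ix m)) κ hk
  have hφ : ∀ a, φ₀ (Ideal.Quotient.mk (IA (Ix m)) a) = κ a := fun a => Ideal.Quotient.lift_mk _ _ _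
  have hu : IsUnit (φ₀ (Ideal.Quotient.mk (IA (Ix m)) (fr W (gX (Ix m)) (gY (Ix m)) (gv (Ix m))).det)) := by
    rw [hφ, RingHom.map_det, RingHom.mapMatrix_apply, hmr_fr]
    exact hU
  refine ⟨IsLocalization.Away.lift (S := RA m W)
    (Ideal.Quotient.mk (IA (Ix m)) (fr W (gX (Ix m)) (gY (Ix m)) (gv (Ix m))).det) hu, ?_⟩
  ext a
  · simp [ja, hφ, IsLocalization.Away.lift_eq]
  · simp [ja, hφ, IsLocalization.Away.lift_eq]

end Pool.Agent.ANC
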