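import Pool.Agent.ANC.St

/-!
# ANC: KA

The element `c` is not a zero divisor modulo the discriminant in the localization: clearing denominators.
-/

set_option autoImplicit false

noncomputable section

namespace Pool.Agent.ANC

open Matrix Pool.Agent.CTR

/-- Clearing denominators. -/
theorem ka_gen {R : Type} [CommRing R] (I : Ideal R) (θ c d : R)
    (h : ∀ q : R, c * q ∈ I ⊔ Ideal.span {d} → ∃ N : ℕ, θ ^ N * q ∈ I ⊔ Ideal.span {d})
    (q : Localization.Away (Ideal.Quotient.mk I θ))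
    (hq : ((algebraMap (R ⧸ I) (Localization.Away (Ideal.Quotient.mk I θ))).comp
      (Ideal.Quotient.mk I)) c * q ∈ Ideal.span
        {((algebraMap (R ⧸ I) (Localization.Away (Ideal.Quotient.mk I θ))).comp
      (Ideal.Quotient.mk I)) d}) :
    q ∈ Ideal.span {((algebraMap (R ⧸ I) (Localization.Away (Ideal.Quotient.mk I θ))).comp
      (Ideal.Quotient.mk I)) d} := by
  set j : R →+* Localization.Away (Ideal.Quotient.mk I θ) :=
    (algebraMap (R ⧸ I) (Localization.Away (Ideal.Quotient.mk I θ))).comp (Ideal.Quotient.mk I)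
    with hj
  have hsurj : ∀ x : Localization.Away (Ideal.Quotient.mk I θ), ∃ (n : ℕ) (a : R),
      x * j θ ^ n = j a := by
    intro x
    obtain ⟨n, a, ha⟩ := IsLocalization.Away.surj (Ideal.Quotient.mk I θ) x
    obtain ⟨b, rfl⟩ := Ideal.Quotient.mk_surjective a
    exact ⟨n, b, by simpa [hj] using ha⟩
  have hunit : IsUnit (j θ) := by
    have := IsLocalization.Away.algebraMap_isUnit
      (S := Localization.Away (Ideal.Quotient.mk I θ)) (Ideal.Quotient.mk I θ)
    simpa [hj] using this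
  have hzero : ∀ x : R, j x = 0 → ∃ k : ℕ, θ ^ k * x ∈ I := by
    intro x hx
    have hx' : algebraMap (R ⧸ I) (Localization.Away (Ideal.Quotient.mk I θ))
        (Ideal.Quotient.mk I x) = 0 := by simpa [hj] using hx
    rw [IsLocalization.map_eq_zero_iff (Submonoid.powers (Ideal.Quotient.mk I θ))] at hx'
    obtain ⟨⟨_, k, rfl⟩, hk⟩ := hx'
    refine ⟨k, ?_⟩
    have hk' : Ideal.Quotient.mk I (θ ^ k * x) = 0 := by
      rw [map_mul, map_pow]; exact hk
    exact Ideal.Quotient.eq_zero_iff_mem.mp hk'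
  have hI : ∀ x ∈ I, j x = 0 := by
    intro x hx
    simp [hj, Ideal.Quotient.eq_zero_iff_mem.mpr hx]
  obtain ⟨n, q₁, hq₁⟩ := hsurj q
  obtain ⟨t, ht⟩ := Ideal.mem_span_singleton'.mp hq
  obtain ⟨n', t₁, ht₁⟩ := hsurj t
  have hz : j (c * q₁ * θ ^ n' - d * t₁ * θ ^ n) = 0 := by
    have e : j c * j q₁ * j θ ^ n' - j d * j t₁ * j θ ^ n = 0 := by
      rw [← hq₁, ← ht₁]
      have : j c * (q * j θ ^ n) * j θ ^ n' = (j c * q) * (j θ ^ n * j θ ^ n') := by ring
      rw [this, ← ht]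
      ring
    simpa [map_sub, map_mul, map_pow] using e
  obtain ⟨k, hk⟩ := hzero _ hz
  have hmem : c * (θ ^ (k + n') * q₁) ∈ I ⊔ Ideal.span {d} := by
    have e : c * (θ ^ (k + n') * q₁) =
        θ ^ k * (c * q₁ * θ ^ n' - d * t₁ * θ ^ n) + (θ ^ k * t₁ * θ ^ n) * d := by
      rw [pow_add]; ring
    rw [e]
    exact Ideal.add_mem _ (Ideal.mem_sup_left hk)
      (Ideal.mem_sup_right (Ideal.mul_mem_left _ _ (Ideal.mem_span_singleton_self d)))
  obtain ⟨N, hN⟩ := h _ hmem
  obtain ⟨a, ha, b, hb, hab⟩ := Submodule.mem_sup.mp hN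
  obtain ⟨s, rfl⟩ := Ideal.mem_span_singleton'.mp hb
  have e1 : j θ ^ N * (j θ ^ (k + n') * j q₁) = j s * j d := by
    have := congrArg j hab
    rw [map_add, hI a ha, zero_add] at this
    simpa [map_mul, map_pow] using this.symm
  have e2 : j θ ^ (N + (k + n') + n) * q = j s * j d := by
    rw [← e1, ← hq₁, pow_add, pow_add]
    ring
  have hu : IsUnit (j θ ^ (N + (k + n') + n)) := hunit.pow _
  obtain ⟨u, hu⟩ := hu
  rw [← hu] at e2
  have e3 : q = (↑u⁻¹ * j s) * j d := by
    calc q = ↑u⁻¹ * (↑u * q) := by simp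
      _ = ↑u⁻¹ * (j s * j d) := by rw [e2]
      _ = (↑u⁻¹ * j s) * j d := by ring
  rw [e3]
  exact Ideal.mul_mem_left _ _ (Ideal.mem_span_singleton_self _)

/-- **KA.** The same in the localization. -/
theorem thm_KA (hKQ : St_KQ) : St_KA := by
  intro m W q hq
  exact ka_gen (IQ m) _ _ _ (fun q hq => hKQ m W q hq) q hq

end Pool.Agent.ANC
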