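import Pool.Agent.ANC.St

/-!
# ANC: the scalar `c` is not a zero divisor modulo the equations and the discriminant (KQ)
-/

set_option autoImplicit false

namespace Pool.Agent.ANC

open Matrix Pool.Agent.CTR

/-- **KQ.** The scalar `c` is not a zero divisor modulo the equations and the discriminant, where the frame is a
basis. -/
theorem thm_KQ (hCIa : St_CIa) (hDQ : St_DQ) : St_KQ := by
  intro m W q hq
  have hspan : Ideal.span (Set.range (Sum.elim (eqQ m)
      (fun _ : Unit => dsx (m + 1) (bl (qA m) (qw m 0) (qs m 0))))) =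
      IQ m ⊔ Ideal.span {dsx (m + 1) (bl (qA m) (qw m 0) (qs m 0))} := by
    rw [Set.Sum.elim_range, Ideal.span_union]
    congr 1
    congr 1
    ext x
    simp
  have key := hCIa ℂ (Qv m) (((Fin m × Fin m) ⊕ Fin m) ⊕ Unit)
    (Sum.elim (eqQ m) (fun _ : Unit => dsx (m + 1) (bl (qA m) (qw m 0) (qs m 0)))) (qs m 2)
    (frH W (qA m) (qB m) (qv m)).det ?_ q (by rwa [hspan])
  · obtain ⟨N, hN⟩ := key
    exact ⟨N, by rwa [hspan] at hN⟩
  · intro P hP hf hc hθ
    have := hP
    have hIQ : IQ m ≤ P := by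
      unfold IQ
      rw [Ideal.span_le]
      rintro x ⟨i, rfl⟩
      exact hf (Sum.inl i)
    have hD : dsx (m + 1) (bl (qA m) (qw m 0) (qs m 0)) ∈ P := hf (Sum.inr ())
    have h := hDQ m W P hIQ hD hc hθ
    have hτ : Fintype.card (((Fin m × Fin m) ⊕ Fin m) ⊕ Unit) = m * m + m + 1 := by
      simp
    have hσ : Fintype.card (Qv m) = (m ^ 2 + 4 * m + 1) + (m * m + m + 1 + 1) := by
      simp only [Qv, Sv, Fintype.card_sum, Fintype.card_prod, Fintype.card_fin]
      ring
    rw [hτ, hσ]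
    rw [Nat.cast_add (m ^ 2 + 4 * m + 1)]
    exact add_le_add h le_rfl

end Pool.Agent.ANC
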