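import Pool.Agent.ANC.St

/-!
# ANC, module Loc: the commuting scheme is reduced where the frame is a basis (helper68)

Statement and proof: `St_Loc` in `ANC/St.lean`.
-/

set_option autoImplicit false

noncomputable section

namespace Pool.Agent.ANC

open Matrix Pool.Agent.CTR

/-! ### homomorphisms -/

private theorem loc_wd {ι R S : Type} [Fintype ι] [DecidableEq ι] [CommRing R] [CommRing S]
    (φ : R →+* S) (x y : Matrix ι ι R) (w : List Bool) :
    wd (x.map φ) (y.map φ) w = (wd x y w).map φ := by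
  induction w with
  | nil =>
    show (1 : Matrix ι ι S) = (1 : Matrix ι ι R).map φ
    rw [Matrix.map_one φ (map_zero φ) (map_one φ)]
  | cons b w ih =>
    show (if b then x.map φ else y.map φ) * wd (x.map φ) (y.map φ) w
      = ((if b then x else y) * wd x y w).map φ
    rw [ih, Matrix.map_mul]
    cases b <;> rfl

private theorem loc_fr {m : ℕ} {R S : Type} [CommRing R] [CommRing S] (φ : R →+* S)
    (W : Fin m → List Bool) (x y : Matrix (Ix m) (Ix m) R) (v : Ix m → R) :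
    fr W (x.map φ) (y.map φ) (φ ∘ v) = (fr W x y v).map φ := by
  ext i s
  rcases s with a | u
  · show (wd (x.map φ) (y.map φ) (W a) *ᵥ (φ ∘ v)) i = φ ((wd x y (W a) *ᵥ v) i)
    rw [loc_wd, RingHom.map_mulVec]
  · show (if i = Sum.inr () then (1 : S) else 0) = φ (if i = Sum.inr () then (1 : R) else 0)
    split_ifs
    · rw [map_one]
    · rw [map_zero]

private theorem loc_frdet {m : ℕ} {R S : Type} [CommRing R] [CommRing S] (φ : R →+* S)
    (W : Fin m → List Bool) (x y : Matrix (Ix m) (Ix m) R) (v : Ix m → R) :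
    (fr W (x.map φ) (y.map φ) (φ ∘ v)).det = φ (fr W x y v).det := by
  rw [loc_fr, RingHom.map_det, RingHom.mapMatrix_apply]

private theorem loc_dsx {ι R S : Type} [Fintype ι] [DecidableEq ι] [CommRing R] [CommRing S]
    (φ : R →+* S) (n : ℕ) (x : Matrix ι ι R) : dsx n (x.map φ) = φ (dsx n x) := by
  unfold dsx
  rw [RingHom.map_det]
  congr 1
  ext a b
  show ((x.map φ) ^ ((a : ℕ) + b)).trace = φ ((x ^ ((a : ℕ) + b)).trace)
  have h1 : (x.map φ) ^ ((a : ℕ) + b) = (x ^ ((a : ℕ) + b)).map φ := by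
    rw [← RingHom.mapMatrix_apply, ← RingHom.mapMatrix_apply, map_pow]
  rw [h1]
  unfold Matrix.trace
  rw [map_sum]
  rfl

/-! ### the embedding and the retraction -/

/-- the polynomials in `x, y` as polynomials in `x, y, v, j` -/
private def locE (ι : Type) : Rg ι ℂ →+* RI ι :=
  (MvPolynomial.rename (Sum.inl : Fin 2 × ι × ι → Sv ι)).toRingHom

private theorem locE_X (ι : Type) (t : Fin 2 × ι × ι) :
    locE ι (MvPolynomial.X t) = MvPolynomial.X (Sum.inl t) :=
  MvPolynomial.rename_X _ _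

private theorem locE_mX (ι : Type) : (mX ι ℂ).map (locE ι) = gX ι := by
  ext1 i j
  exact locE_X ι _

private theorem locE_mY (ι : Type) : (mY ι ℂ).map (locE ι) = gY ι := by
  ext1 i j
  exact locE_X ι _

/-- the retraction `v ↦ v`, `j ↦ 0` -/
private def locC (ι : Type) (v : ι → ℂ) : RI ι →+* Rg ι ℂ :=
  (MvPolynomial.aeval (R := ℂ) (Sum.elim (fun t : Fin 2 × ι × ι => (MvPolynomial.X t : Rg ι ℂ))
    (fun t : Fin 2 × ι => if t.1 = 0 then MvPolynomial.C (v t.2) else 0))).toRingHom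

private theorem locC_l (ι : Type) (v : ι → ℂ) (t : Fin 2 × ι × ι) :
    locC ι v (MvPolynomial.X (Sum.inl t)) = MvPolynomial.X t :=
  MvPolynomial.aeval_X _ _

private theorem locC_r (ι : Type) (v : ι → ℂ) (t : Fin 2 × ι) :
    locC ι v (MvPolynomial.X (Sum.inr t)) = if t.1 = 0 then MvPolynomial.C (v t.2) else 0 :=
  MvPolynomial.aeval_X _ _

private theorem locC_E (ι : Type) (v : ι → ℂ) (f : Rg ι ℂ) : locC ι v (locE ι f) = f := by
  have h : (MvPolynomial.aeval (R := ℂ) (Sum.elim (fun t : Fin 2 × ι × ι => (MvPolynomial.X t : Rg ι ℂ))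
    (fun t : Fin 2 × ι => if t.1 = 0 then MvPolynomial.C (v t.2) else 0))).comp
      (MvPolynomial.rename (Sum.inl : Fin 2 × ι × ι → Sv ι)) = AlgHom.id ℂ (Rg ι ℂ) := by
    apply MvPolynomial.algHom_ext
    intro t
    rw [AlgHom.comp_apply, MvPolynomial.rename_X, MvPolynomial.aeval_X]
    rfl
  exact DFunLike.congr_fun h f

private theorem locC_gX (ι : Type) (v : ι → ℂ) : (gX ι).map (locC ι v) = mX ι ℂ := by
  ext1 i j
  exact locC_l ι v _

private theorem locC_gY (ι : Type) (v : ι → ℂ) : (gY ι).map (locC ι v) = mY ι ℂ := by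
  ext1 i j
  exact locC_l ι v _

private theorem locC_gv (ι : Type) (v : ι → ℂ) :
    (locC ι v) ∘ gv ι = fun i => MvPolynomial.C (v i) := by
  funext i
  exact (locC_r ι v _).trans (if_pos rfl)

private theorem locC_gj (ι : Type) (v : ι → ℂ) (i : ι) : locC ι v (gj ι i) = 0 := by
  refine (locC_r ι v _).trans (if_neg ?_)
  show ¬ ((1 : Fin 2) = 0)
  decide

private theorem loc_comm {ι R S : Type} [Fintype ι] [CommRing R] [CommRing S]
    (φ : R →+* S) (x y : Matrix ι ι R) (s t : ι) :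
    φ ((x * y - y * x) s t) = (x.map φ * y.map φ - y.map φ * x.map φ) s t := by
  rw [← Matrix.map_mul, ← Matrix.map_mul]
  show φ ((x * y) s t - (y * x) s t) = φ ((x * y) s t) - φ ((y * x) s t)
  rw [map_sub]

private theorem locC_IA {ι : Type} [Fintype ι] (v : ι → ℂ) {g : RI ι} (h : g ∈ IA ι) :
    locC ι v g ∈ comI ι ℂ := by
  have : IA ι ≤ (comI ι ℂ).comap (locC ι v) := by
    unfold IA
    rw [Ideal.span_le]
    rintro r ⟨⟨s, t⟩, rfl⟩
    show locC ι v ((gX ι * gY ι - gY ι * gX ι) s t + gv ι s * gj ι t) ∈ comI ι ℂ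
    rw [map_add, map_mul, locC_gj, mul_zero, add_zero, loc_comm, locC_gX, locC_gY]
    exact Ideal.subset_span ⟨s, t, rfl⟩
  exact this h

private theorem loc_ev {ι : Type} [Fintype ι] [DecidableEq ι] (A B : Matrix ι ι ℂ) :
    (mX ι ℂ).map (ev (k := ℂ) A B).toRingHom = A ∧ (mY ι ℂ).map (ev (k := ℂ) A B).toRingHom = B := by
  constructor
  · ext1 i j
    show ev (k := ℂ) A B (MvPolynomial.X (0, i, j)) = A i j
    unfold ev
    rw [MvPolynomial.aeval_X]
    exact if_pos rfl
  · ext1 i j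
    show ev (k := ℂ) A B (MvPolynomial.X (1, i, j)) = B i j
    unfold ev
    rw [MvPolynomial.aeval_X]
    refine if_neg ?_
    show ¬ ((1 : Fin 2) = 0)
    decide

/-! ### the ring `RA` -/

private theorem loc_jaIA (m : ℕ) (W : Fin m → List Bool) {g : RI (Ix m)} (h : g ∈ IA (Ix m)) :
    ja m W g = 0 := by
  unfold ja
  rw [RingHom.comp_apply, Ideal.Quotient.eq_zero_iff_mem.2 h, map_zero]

/-- the module Loc -/
theorem thm_Loc (hFrm : St_Frm) (hBrg : St_Brg) (hGen : St_Gen) : St_Loc := by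
  intro m W A B v hdet f hf
  obtain ⟨N, hN⟩ := hGen (Ix m) (m + 1) (by simp [Ix]) f hf
  -- the ring `RA`
  have hAC : AC ((gX (Ix m)).map (ja m W)) ((gY (Ix m)).map (ja m W)) (ja m W ∘ gv (Ix m))
      (ja m W ∘ gj (Ix m)) := by
    unfold AC
    ext s t
    show ((gX (Ix m)).map (ja m W) * (gY (Ix m)).map (ja m W)
      - (gY (Ix m)).map (ja m W) * (gX (Ix m)).map (ja m W)) s t
      + ja m W (gv (Ix m) s) * ja m W (gj (Ix m) t) = 0
    rw [← loc_comm, ← map_mul, ← map_add]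
    apply loc_jaIA
    exact Ideal.subset_span ⟨(s, t), rfl⟩
  have hU : IsUnit (fr W ((gX (Ix m)).map (ja m W)) ((gY (Ix m)).map (ja m W))
      (ja m W ∘ gv (Ix m))).det := by
    rw [loc_frdet]
    exact IsLocalization.Away.algebraMap_isUnit
      (Ideal.Quotient.mk (IA (Ix m)) (fr W (gX (Ix m)) (gY (Ix m)) (gv (Ix m))).det)
  obtain ⟨z, hz, _⟩ := hFrm m (RA m W) W _ _ _ _ hAC hU
  -- the entries of the commutator
  have hcom : ∀ g ∈ comI (Ix m) ℂ, ja m W (locE (Ix m) g)
      ∈ Ideal.span {ja m W (gj (Ix m) (Sum.inr ()))} := by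
    have : comI (Ix m) ℂ ≤ (Ideal.span {ja m W (gj (Ix m) (Sum.inr ()))}).comap
        ((ja m W).comp (locE (Ix m))) := by
      unfold comI
      rw [Ideal.span_le]
      rintro r ⟨s, t, rfl⟩
      show ja m W (locE (Ix m) ((mX (Ix m) ℂ * mY (Ix m) ℂ - mY (Ix m) ℂ * mX (Ix m) ℂ) s t))
        ∈ Ideal.span {ja m W (gj (Ix m) (Sum.inr ()))}
      rw [loc_comm, locE_mX, locE_mY, loc_comm]
      have h1 : ((gX (Ix m)).map (ja m W) * (gY (Ix m)).map (ja m W)
        - (gY (Ix m)).map (ja m W) * (gX (Ix m)).map (ja m W)) s t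
        + ja m W (gv (Ix m) s) * ja m W (gj (Ix m) t) = 0 := congrFun (congrFun hAC s) t
      have h2 : ja m W (gj (Ix m) t) = ja m W (gj (Ix m) (Sum.inr ())) * zt z t := congrFun hz t
      rw [h2] at h1
      have h3 : ((gX (Ix m)).map (ja m W) * (gY (Ix m)).map (ja m W)
        - (gY (Ix m)).map (ja m W) * (gX (Ix m)).map (ja m W)) s t
        = (-(ja m W (gv (Ix m) s) * zt z t)) * ja m W (gj (Ix m) (Sum.inr ())) := by
        linear_combination h1
      rw [h3]
      exact Ideal.mul_mem_left _ _ (Ideal.subset_span rfl)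
    exact fun g hg => this hg
  have h1 := hcom _ hN
  rw [map_mul, map_mul, map_pow, map_pow, ← loc_dsx (locE (Ix m)), locE_mX] at h1
  have h2 := hBrg m W N _ h1
  obtain ⟨r, hr⟩ := Ideal.mem_span_singleton'.1 h2
  -- clearing denominators
  set θ : RI (Ix m) := (fr W (gX (Ix m)) (gY (Ix m)) (gv (Ix m))).det with hθ
  obtain ⟨M, a, ha⟩ := IsLocalization.Away.surj (Ideal.Quotient.mk (IA (Ix m)) θ) r
  obtain ⟨h, rfl⟩ := Ideal.Quotient.mk_surjective a
  have h3 : algebraMap (RI (Ix m) ⧸ IA (Ix m)) (RA m W)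
      (Ideal.Quotient.mk (IA (Ix m)) (θ ^ M * locE (Ix m) f))
      = algebraMap (RI (Ix m) ⧸ IA (Ix m)) (RA m W)
      (Ideal.Quotient.mk (IA (Ix m)) (gj (Ix m) (Sum.inr ()) * h)) := by
    rw [map_mul (Ideal.Quotient.mk (IA (Ix m))), map_mul (Ideal.Quotient.mk (IA (Ix m))), map_mul,
      map_mul, ← ha, map_pow, map_pow]
    have hr' : r * algebraMap (RI (Ix m) ⧸ IA (Ix m)) (RA m W)
        (Ideal.Quotient.mk (IA (Ix m)) (gj (Ix m) (Sum.inr ())))
        = algebraMap (RI (Ix m) ⧸ IA (Ix m)) (RA m W)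
        (Ideal.Quotient.mk (IA (Ix m)) (locE (Ix m) f)) := hr
    rw [← hr']
    ring
  obtain ⟨⟨c, K, hK⟩, hc⟩ := (IsLocalization.eq_iff_exists
    (Submonoid.powers (Ideal.Quotient.mk (IA (Ix m)) θ)) (RA m W)).1 h3
  have hK' : (Ideal.Quotient.mk (IA (Ix m)) θ) ^ K = c := hK
  have hc' : c * Ideal.Quotient.mk (IA (Ix m)) (θ ^ M * locE (Ix m) f)
      = c * Ideal.Quotient.mk (IA (Ix m)) (gj (Ix m) (Sum.inr ()) * h) := hc
  rw [← hK', ← map_pow, ← map_mul, ← map_mul, Ideal.Quotient.eq] at hc'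
  -- the retraction
  have h4 := locC_IA v hc'
  rw [map_sub, map_mul, map_mul, map_mul, map_mul, locC_gj, zero_mul, mul_zero, sub_zero, locC_E,
    map_pow, map_pow] at h4
  refine ⟨locC (Ix m) v θ ^ (K + M), ?_, ?_⟩
  · have h5 : locC (Ix m) v θ = (fr W (mX (Ix m) ℂ) (mY (Ix m) ℂ)
        (fun i => MvPolynomial.C (v i))).det := by
      rw [hθ, ← loc_frdet, locC_gX, locC_gY, locC_gv]
    rw [h5, map_pow]
    apply pow_ne_zero
    have h6 : ev A B (fr W (mX (Ix m) ℂ) (mY (Ix m) ℂ) (fun i => MvPolynomial.C (v i))).det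
        = (fr W A B v).det := by
      have h7 := loc_frdet (ev (k := ℂ) A B).toRingHom W (mX (Ix m) ℂ) (mY (Ix m) ℂ)
        (fun i => MvPolynomial.C (v i))
      have h8 : (ev (k := ℂ) A B).toRingHom ∘ (fun i : Ix m => MvPolynomial.C (v i)) = v := by
        funext i
        show ev (k := ℂ) A B (MvPolynomial.C (v i)) = v i
        unfold ev
        rw [MvPolynomial.aeval_C]
        rfl
      rw [(loc_ev A B).1, (loc_ev A B).2, h8] at h7
      exact h7.symm
    rw [h6]
    exact hdet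
  · rw [pow_add, mul_assoc]
    exact h4

end Pool.Agent.ANC
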