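import Pool.Agent.ANC.St

/-!
# ANC: the discriminant in the localization
-/

set_option autoImplicit false

noncomputable section

namespace Pool.Agent.ANC

open Matrix Pool.Agent.CTR

/-- A ring element which is regular modulo an ideal stays regular in a localization of the quotient. -/
theorem na_loc {R : Type} [CommRing R] (I : Ideal R) (D : R) (δ : R ⧸ I)
    (hD : ∀ s : R, D * s ∈ I → s ∈ I) (g : Localization.Away δ)
    (h : ((algebraMap (R ⧸ I) (Localization.Away δ)).comp (Ideal.Quotient.mk I)) D * g = 0) :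
    g = 0 := by
  obtain ⟨s, t, rfl⟩ := IsLocalization.exists_mk'_eq (Submonoid.powers δ) g
  rw [RingHom.comp_apply, IsLocalization.mul_mk'_eq_mk'_of_mul, IsLocalization.mk'_eq_zero_iff] at h
  obtain ⟨c, hc⟩ := h
  rw [IsLocalization.mk'_eq_zero_iff]
  refine ⟨c, ?_⟩
  obtain ⟨s', rfl⟩ := Ideal.Quotient.mk_surjective s
  obtain ⟨c', hc'⟩ := Ideal.Quotient.mk_surjective (c : R ⧸ I)
  rw [← hc', ← map_mul, ← map_mul, Ideal.Quotient.eq_zero_iff_mem] at hc
  rw [← hc', ← map_mul, Ideal.Quotient.eq_zero_iff_mem]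
  apply hD
  have : D * (c' * s') = c' * (D * s') := by ring
  rw [this]
  exact hc

/-- **NA.** -/
theorem thm_NA (hNZI : St_NZI) : St_NA := by
  intro m W g h
  exact na_loc (IA (Ix m)) (dsx (m + 1) (gX (Ix m))) _ (hNZI m) g h

end Pool.Agent.ANC
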