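import Pool.Agent.ANC.St

/-!
# ANC: the theorem for one eigenvalue (NC)
-/

set_option autoImplicit false

namespace Pool.Agent.ANC

open Matrix Pool.Agent.CTR

private theorem nc_zero (A B : Matrix (Fin 0) (Fin 0) ℂ) : Rd A B := by
  intro f hf
  obtain ⟨m, hm⟩ := hf
  have h0 : comI (Fin 0) ℂ = ⊥ := by
    unfold comI
    rw [Ideal.span_eq_bot]
    rintro g ⟨i, -⟩
    exact i.elim0
  rw [h0, Ideal.mem_bot] at hm
  refine ⟨1, by simp, ?_⟩
  rw [h0, Ideal.mem_bot, one_mul]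
  by_contra h
  exact pow_ne_zero m h hm

private theorem nc_one (hLoc : St_Loc) (hCnj : St_Cnj) (hPt : St_Pt) (n : ℕ)
    (A B : Matrix (Fin n) (Fin n) ℂ) (v : Fin n → ℂ)
    (h : n ≤ Module.finrank ℂ (gen A B v) + 1) : Rd A B := by
  cases n with
  | zero => exact nc_zero A B
  | succ m =>
    obtain ⟨e, W, hW⟩ := hPt m A B v (by omega)
    have h2 := hLoc m W _ _ _ hW
    refine hCnj _ _ e 1 A B ?_
    simpa using h2

/-- **NC.** The theorem for one eigenvalue. -/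
theorem thm_NC (hLoc : St_Loc) (hCnj : St_Cnj) (hTrn : St_Trn) (hPt : St_Pt) : St_NC := by
  intro n A B h
  rcases h with ⟨v, hv⟩ | ⟨v, hv⟩
  · exact nc_one hLoc hCnj hPt n A B v hv
  · exact hTrn _ A B (nc_one hLoc hCnj hPt n _ _ v hv)

end Pool.Agent.ANC
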