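import Pool.Agent.ANC.St
import Pool.Agent.ACV.All

/-! Module NZI of the campaign ANC: renaming the variables in `ACV.all_NZ`. -/

set_option autoImplicit false

noncomputable section

namespace Pool.Agent.ANC

open Matrix MvPolynomial

/-- The bijection of the indices. -/
def nzi_e (m : ℕ) : Fin (m + 1) ≃ Ix m :=
  Fintype.equivOfCardEq (by simp [Ix])

/-- The bijection of the variables. -/
def nzi_s (m : ℕ) : ACV.Sg (m + 1) ≃ Sv (Ix m) :=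
  Equiv.sumCongr (Equiv.prodCongr (Equiv.refl _) (Equiv.prodCongr (nzi_e m) (nzi_e m)))
    (Equiv.prodCongr (Equiv.refl _) (nzi_e m))

/-- Renaming. -/
def nzi_r (m : ℕ) : ACV.RS ℂ (m + 1) ≃ₐ[ℂ] RI (Ix m) := renameEquiv ℂ (nzi_s m)

theorem nzi_rX (m : ℕ) (s : ACV.Sg (m + 1)) : nzi_r m (X s) = X (nzi_s m s) := by
  rw [nzi_r, renameEquiv_apply, rename_X]

theorem nzi_x (m : ℕ) (i j : Fin (m + 1)) :
    nzi_r m (ACV.sX ℂ (m + 1) i j) = gX (Ix m) (nzi_e m i) (nzi_e m j) :=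
  nzi_rX m _

theorem nzi_y (m : ℕ) (i j : Fin (m + 1)) :
    nzi_r m (ACV.sY ℂ (m + 1) i j) = gY (Ix m) (nzi_e m i) (nzi_e m j) :=
  nzi_rX m _

theorem nzi_v (m : ℕ) (i : Fin (m + 1)) :
    nzi_r m (ACV.sv ℂ (m + 1) i) = gv (Ix m) (nzi_e m i) :=
  nzi_rX m _

theorem nzi_j (m : ℕ) (i : Fin (m + 1)) :
    nzi_r m (ACV.sj ℂ (m + 1) i) = gj (Ix m) (nzi_e m i) :=
  nzi_rX m _

theorem nzi_eqn (m : ℕ) (t : Fin (m + 1) × Fin (m + 1)) :
    nzi_r m (ACV.eqn ℂ (m + 1) t) =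
      (gX (Ix m) * gY (Ix m) - gY (Ix m) * gX (Ix m) + vecMulVec (gv (Ix m)) (gj (Ix m)))
        (nzi_e m t.1) (nzi_e m t.2) := by
  rw [ACV.eqn]
  simp only [Matrix.add_apply, Matrix.sub_apply, Matrix.mul_apply, vecMulVec_apply, map_add,
    map_sub, map_sum, map_mul, nzi_x, nzi_y, nzi_v, nzi_j]
  rw [Equiv.sum_comp (nzi_e m) (fun k => gX (Ix m) (nzi_e m t.1) k * gY (Ix m) k (nzi_e m t.2)),
    Equiv.sum_comp (nzi_e m) (fun k => gY (Ix m) (nzi_e m t.1) k * gX (Ix m) k (nzi_e m t.2))]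

theorem nzi_pow (m : ℕ) (k : ℕ) (i j : Fin (m + 1)) :
    nzi_r m ((ACV.sX ℂ (m + 1) ^ k) i j) = (gX (Ix m) ^ k) (nzi_e m i) (nzi_e m j) := by
  induction k generalizing i j with
  | zero =>
    rw [pow_zero, pow_zero, Matrix.one_apply, Matrix.one_apply]
    by_cases h : i = j
    · rw [if_pos h, if_pos (congrArg _ h), map_one]
    · rw [if_neg h, if_neg (fun h' => h ((nzi_e m).injective h')), map_zero]
  | succ k ih =>
    rw [pow_succ, pow_succ, Matrix.mul_apply, Matrix.mul_apply, map_sum]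
    simp only [map_mul, ih, nzi_x]
    rw [Equiv.sum_comp (nzi_e m)
      (fun l => (gX (Ix m) ^ k) (nzi_e m i) l * gX (Ix m) l (nzi_e m j))]

theorem nzi_dsc (m : ℕ) :
    nzi_r m (ACV.dsc (ACV.sX ℂ (m + 1))) = dsx (m + 1) (gX (Ix m)) := by
  rw [ACV.dsc, dsx, AlgEquiv.map_det]
  apply congrArg
  ext a b : 2
  rw [AlgEquiv.mapMatrix_apply, Matrix.map_apply, Matrix.of_apply, Matrix.of_apply,
    Matrix.trace, Matrix.trace, map_sum]
  simp only [Matrix.diag_apply, nzi_pow]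
  rw [Equiv.sum_comp (nzi_e m) (fun l => (gX (Ix m) ^ ((a : ℕ) + b)) l l)]

theorem nzi_map (m : ℕ) :
    Ideal.map (nzi_r m : ACV.RS ℂ (m + 1) →+* RI (Ix m)) (ACV.IJ ℂ (m + 1)) = IA (Ix m) := by
  rw [ACV.IJ, IA, Ideal.map_span]
  apply congrArg
  ext f
  constructor
  · rintro ⟨_, ⟨t, rfl⟩, rfl⟩
    exact ⟨(nzi_e m t.1, nzi_e m t.2), (nzi_eqn m t).symm⟩
  · rintro ⟨t, rfl⟩
    refine ⟨_, ⟨((nzi_e m).symm t.1, (nzi_e m).symm t.2), rfl⟩, ?_⟩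
    have h := nzi_eqn m ((nzi_e m).symm t.1, (nzi_e m).symm t.2)
    simp only [Equiv.apply_symm_apply] at h
    exact h

theorem nzi_mem (m : ℕ) (f : ACV.RS ℂ (m + 1)) :
    nzi_r m f ∈ IA (Ix m) ↔ f ∈ ACV.IJ ℂ (m + 1) := by
  rw [← nzi_map]
  constructor
  · intro h
    have h1 := Ideal.mem_map_of_equiv (nzi_r m).toRingEquiv (I := ACV.IJ ℂ (m + 1)) (nzi_r m f)
    obtain ⟨x, hx, he⟩ := h1.mp h
    have : x = f := (nzi_r m).injective he
    exact this ▸ hx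
  · intro h
    exact Ideal.mem_map_of_mem _ h

theorem thm_NZI : St_NZI := by
  intro m g hg
  obtain ⟨f, rfl⟩ := (nzi_r m).surjective g
  rw [← nzi_dsc, ← map_mul, nzi_mem] at hg
  rw [nzi_mem]
  exact ACV.all_NZ ℂ (m + 1) f hg

end Pool.Agent.ANC
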