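import Pool.Agent.ANC.St

/-!
# ANC, NrA: from the triangular form to quadruples (helper30)
-/

set_option autoImplicit false

noncomputable section

namespace Pool.Agent.ANC

open Matrix Pool.Agent.CTR

variable {m : ℕ} {R : Type} [CommRing R]

theorem nra_un_eq (z : Fin m → R) :
    un z = Matrix.fromBlocks 1 0 (Matrix.of fun _ i => z i) 1 := rfl

theorem nra_bl_eq (A : Matrix (Fin m) (Fin m) R) (a : Fin m → R) (α : R) :
    bl A a α = Matrix.fromBlocks A (Matrix.of fun i _ => a i) 0 (Matrix.of fun _ _ => α) := rfl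

theorem nra_un (z w : Fin m → R) (h : z + w = 0) : un z * un w = 1 := by
  rw [nra_un_eq, nra_un_eq, Matrix.fromBlocks_multiply, ← Matrix.fromBlocks_one]
  congr 1
  · simp
  · simp
  · ext i k
    have := congrFun h k
    simp only [Pi.add_apply, Pi.zero_apply] at this
    simp [this]
  · simp

theorem nra_blocks (A B : Matrix (Fin m) (Fin m) R) (v j a b : Fin m → R) (α β c : R)
    (h1 : AC A B v j) (h2 : E2 A B v a b α β c) :
    AC (bl A a α) (bl B b β) (Sum.elim v (fun _ => 0)) (Sum.elim j (fun _ => c)) := by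
  unfold AC E2 at *
  rw [nra_bl_eq, nra_bl_eq, Matrix.fromBlocks_multiply, Matrix.fromBlocks_multiply]
  ext i k
  rcases i with i | i <;> rcases k with k | k
  · have := congrFun (congrFun h1 i) k
    simpa [Matrix.vecMulVec_apply] using this
  · have := congrFun h2 i
    simp only [Pi.add_apply, Pi.sub_apply, Pi.smul_apply, smul_eq_mul, Pi.zero_apply] at this
    simp only [Matrix.add_apply, Matrix.sub_apply, Matrix.fromBlocks_apply₁₂, Matrix.mul_apply,
      Matrix.vecMulVec_apply, Sum.elim_inl, Sum.elim_inr, Matrix.zero_apply,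
      Finset.univ_unique, Finset.sum_singleton, Matrix.of_apply]
    simp only [Matrix.mulVec, dotProduct] at this
    linear_combination this
  · simp [Matrix.vecMulVec_apply]
  · simp [Matrix.vecMulVec_apply, Matrix.mul_apply, mul_comm]

theorem nra_conj (P Q X Y : Matrix (Ix m) (Ix m) R) (V J : Ix m → R) (h : Q * P = 1)
    (hA : AC X Y V J) : AC (P * X * Q) (P * Y * Q) (P *ᵥ V) (J ᵥ* Q) := by
  unfold AC at *
  have e1 : P * X * Q * (P * Y * Q) = P * (X * Y) * Q := by
    calc P * X * Q * (P * Y * Q) = P * X * (Q * P) * Y * Q := by simp only [Matrix.mul_assoc]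
      _ = _ := by rw [h, Matrix.mul_one]; simp only [Matrix.mul_assoc]
  have e2 : P * Y * Q * (P * X * Q) = P * (Y * X) * Q := by
    calc P * Y * Q * (P * X * Q) = P * Y * (Q * P) * X * Q := by simp only [Matrix.mul_assoc]
      _ = _ := by rw [h, Matrix.mul_one]; simp only [Matrix.mul_assoc]
  have e3 : vecMulVec (P *ᵥ V) (J ᵥ* Q) = P * vecMulVec V J * Q := by
    rw [Matrix.mul_vecMulVec, Matrix.vecMulVec_mul]
  rw [e1, e2, e3, ← Matrix.sub_mul, ← Matrix.mul_sub, ← Matrix.add_mul, ← Matrix.mul_add, hA,
    Matrix.mul_zero, Matrix.zero_mul]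

theorem nra_wd (P Q X Y : Matrix (Ix m) (Ix m) R) (h : Q * P = 1) (h' : P * Q = 1)
    (w : List Bool) : wd (P * X * Q) (P * Y * Q) w = P * wd X Y w * Q := by
  induction w with
  | nil => simp [wd, h']
  | cons b w ih =>
    unfold wd
    rw [ih]
    cases b
    · simp only [Bool.false_eq_true, if_false]
      calc P * Y * Q * (P * wd X Y w * Q) = P * Y * (Q * P) * wd X Y w * Q := by
            simp only [Matrix.mul_assoc]
        _ = _ := by rw [h, Matrix.mul_one]; simp only [Matrix.mul_assoc]
    · simp only [if_true]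
      calc P * X * Q * (P * wd X Y w * Q) = P * X * (Q * P) * wd X Y w * Q := by
            simp only [Matrix.mul_assoc]
        _ = _ := by rw [h, Matrix.mul_one]; simp only [Matrix.mul_assoc]

theorem nra_bl (A : Matrix (Fin m) (Fin m) R) (a u : Fin m → R) (α : R) :
    bl A a α *ᵥ Sum.elim u (fun _ => 0) = Sum.elim (A *ᵥ u) (fun _ => 0) := by
  rw [nra_bl_eq]
  ext i
  rcases i with i | i
  · simp [Matrix.mulVec, dotProduct]
  · simp [Matrix.mulVec, dotProduct]

theorem nra_wdbl (A B : Matrix (Fin m) (Fin m) R) (a b v : Fin m → R) (α β : R)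
    (w : List Bool) : wd (bl A a α) (bl B b β) w *ᵥ Sum.elim v (fun _ => 0) =
      Sum.elim (wd A B w *ᵥ v) (fun _ => 0) := by
  induction w with
  | nil => simp [wd]
  | cons s w ih =>
    unfold wd
    rw [← Matrix.mulVec_mulVec, ih, ← Matrix.mulVec_mulVec]
    cases s
    · simp only [Bool.false_eq_true, if_false]
      exact nra_bl _ _ _ _
    · simp only [if_true]
      exact nra_bl _ _ _ _

/-- **NrA.** -/
theorem thm_NrA : St_NrA := by
  intro m R _ W A B v j a b z α β c h1 h2
  have hQP : un z * un (-z) = 1 := nra_un z (-z) (by simp)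
  have hPQ : un (-z) * un z = 1 := nra_un (-z) z (by simp)
  refine ⟨nra_conj _ _ _ _ _ _ hQP (nra_blocks A B v j a b α β c h1 h2), ?_, ?_, ?_⟩
  · have e : fr W (un (-z) * bl A a α * un z) (un (-z) * bl B b β * un z)
        (un (-z) *ᵥ Sum.elim v (fun _ => 0)) =
        un (-z) * Matrix.fromBlocks (frH W A B v) 0 0 1 := by
      ext i s
      rcases s with s | s
      · show (wd (un (-z) * bl A a α * un z) (un (-z) * bl B b β * un z) (W s) *ᵥ
          (un (-z) *ᵥ Sum.elim v (fun _ => 0))) i = _
        rw [nra_wd _ _ _ _ hQP hPQ, Matrix.mulVec_mulVec, Matrix.mul_assoc _ (un z), hQP,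
          Matrix.mul_one, ← Matrix.mulVec_mulVec, nra_wdbl]
        rw [Matrix.mul_apply]
        show ∑ k : Ix m, _ = _
        refine Finset.sum_congr rfl fun k _ => ?_
        rcases k with k | k
        · rfl
        · rfl
      · show (if i = Sum.inr () then (1 : R) else 0) = _
        rw [Matrix.mul_apply, nra_un_eq]
        rcases i with i | i
        · simp
        · simp
    have hd : (un (-z)).det = (1 : R) := by
      rw [nra_un_eq, Matrix.det_fromBlocks_zero₁₂, Matrix.det_one, Matrix.det_one, mul_one]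
    rw [e, Matrix.det_mul, hd, one_mul, Matrix.det_fromBlocks_zero₁₂, Matrix.det_one, mul_one]
  · unfold dsx
    congr 1
    ext r s
    have hp : ∀ k : ℕ, (un (-z) * bl A a α * un z) ^ k = un (-z) * (bl A a α) ^ k * un z := by
      intro k
      induction k with
      | zero => simp [hPQ]
      | succ k ih =>
        rw [pow_succ, ih, pow_succ]
        calc un (-z) * bl A a α ^ k * un z * (un (-z) * bl A a α * un z)
            = un (-z) * bl A a α ^ k * (un z * un (-z)) * bl A a α * un z := by
              simp only [Matrix.mul_assoc]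
          _ = _ := by rw [hQP, Matrix.mul_one]; simp only [Matrix.mul_assoc]
    rw [Matrix.of_apply, Matrix.of_apply, hp, Matrix.trace_mul_comm, ← Matrix.mul_assoc, hQP,
      Matrix.one_mul]
  · rw [nra_un_eq]
    simp [Matrix.vecMul, dotProduct]

end Pool.Agent.ANC
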