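import Pool.Agent.ANC.St

/-!
# ANC: from quadruples with a common covector to the triangular form (`St_NrB`)
-/

set_option autoImplicit false

noncomputable section

namespace Pool.Agent.ANC

open Matrix Pool.Agent.CTR

private def nrb_R {m : ℕ} {R : Type} [CommRing R] (z : Fin m → R) : Matrix Unit (Fin m) R :=
  Matrix.of fun _ i => z i

private def nrb_C {m : ℕ} {R : Type} [CommRing R] (a : Fin m → R) : Matrix (Fin m) Unit R :=
  Matrix.of fun i _ => a i

private def nrb_S {R : Type} [CommRing R] (α : R) : Matrix Unit Unit R := Matrix.of fun _ _ => α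

private lemma nrb_un_eq {m : ℕ} {R : Type} [CommRing R] (z : Fin m → R) :
    un z = Matrix.fromBlocks 1 0 (nrb_R z) 1 := rfl

private lemma nrb_bl_eq {m : ℕ} {R : Type} [CommRing R] (A : Matrix (Fin m) (Fin m) R)
    (a : Fin m → R) (α : R) : bl A a α = Matrix.fromBlocks A (nrb_C a) 0 (nrb_S α) := rfl

private lemma nrb_un_mul {m : ℕ} {R : Type} [CommRing R] (z : Fin m → R) : un z * un (-z) = 1 := by
  rw [nrb_un_eq, nrb_un_eq, Matrix.fromBlocks_multiply]
  simp only [Matrix.mul_one, Matrix.one_mul, Matrix.zero_mul, Matrix.mul_zero, add_zero, zero_add]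
  have e : nrb_R z + nrb_R (-z) = 0 := by
    ext a i
    simp [nrb_R]
  rw [e, Matrix.fromBlocks_one]

private lemma nrb_un_mul' {m : ℕ} {R : Type} [CommRing R] (z : Fin m → R) : un (-z) * un z = 1 := by
  have h := nrb_un_mul (-z)
  rwa [neg_neg] at h

private lemma nrb_row {m : ℕ} {R : Type} [CommRing R] (z : Fin m → R) :
    (un z) (Sum.inr ()) = zt z := by
  funext s
  rcases s with i | u
  · rfl
  · simp [nrb_un_eq, zt, Matrix.fromBlocks]

private lemma nrb_det {m : ℕ} {R : Type} [CommRing R] (z : Fin m → R) : (un z).det = 1 := by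
  rw [nrb_un_eq, Matrix.det_fromBlocks_zero₁₂, det_one, det_one, one_mul]

private lemma nrb_form {m : ℕ} {R : Type} [CommRing R] (z : Fin m → R) (x : Matrix (Ix m) (Ix m) R)
    (α : R) (h : zt z ᵥ* x = α • zt z) :
    un z * x * un (-z) = bl (fun i k => (un z * x * un (-z)) (Sum.inl i) (Sum.inl k))
      (fun i => (un z * x * un (-z)) (Sum.inl i) (Sum.inr ())) α := by
  have hrow : (un z * x * un (-z)) (Sum.inr ()) = α • (1 : Matrix (Ix m) (Ix m) R) (Sum.inr ()) := by
    rw [Matrix.mul_apply_eq_vecMul, Matrix.mul_apply_eq_vecMul, nrb_row, h, Matrix.smul_vecMul,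
      ← nrb_row, ← Matrix.mul_apply_eq_vecMul, nrb_un_mul]
  ext s t
  rcases s with i | u
  · rcases t with k | w
    · rfl
    · rfl
  · have h1 := congrFun hrow t
    rw [h1]
    rcases t with k | w
    · show α • (1 : Matrix (Ix m) (Ix m) R) (Sum.inr ()) (Sum.inl k) = 0
      simp
    · show α • (1 : Matrix (Ix m) (Ix m) R) (Sum.inr ()) (Sum.inr w) = α
      simp

private lemma nrb_conj {m : ℕ} {R : Type} [CommRing R] (z : Fin m → R)
    (x y : Matrix (Ix m) (Ix m) R) (w : List Bool) :
    wd x y w = un (-z) * wd (un z * x * un (-z)) (un z * y * un (-z)) w * un z := by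
  induction w with
  | nil =>
    show (1 : Matrix (Ix m) (Ix m) R) = un (-z) * 1 * un z
    rw [Matrix.mul_one, nrb_un_mul']
  | cons b w ih =>
    have e : ∀ t : Matrix (Ix m) (Ix m) R, t * (un (-z) * wd (un z * x * un (-z)) (un z * y * un (-z)) w * un z)
        = un (-z) * ((un z * t * un (-z)) * wd (un z * x * un (-z)) (un z * y * un (-z)) w) * un z := by
      intro t
      calc t * (un (-z) * wd (un z * x * un (-z)) (un z * y * un (-z)) w * un z)
          = (un (-z) * un z) * (t * (un (-z) * wd (un z * x * un (-z)) (un z * y * un (-z)) w * un z)) := by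
            rw [nrb_un_mul', Matrix.one_mul]
        _ = _ := by simp only [Matrix.mul_assoc]
    show (if b then x else y) * wd x y w = _
    rw [ih]
    cases b
    · exact e y
    · exact e x

private lemma nrb_bl_mulVec {m : ℕ} {R : Type} [CommRing R] (A : Matrix (Fin m) (Fin m) R)
    (a : Fin m → R) (α : R) (u : Fin m → R) :
    bl A a α *ᵥ (Sum.elim u fun _ => 0) = Sum.elim (A *ᵥ u) fun _ => 0 := by
  rw [nrb_bl_eq, Matrix.fromBlocks_mulVec]
  have e1 : (Sum.elim u fun (_ : Unit) => (0 : R)) ∘ Sum.inl = u := rfl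
  have e2 : (Sum.elim u fun (_ : Unit) => (0 : R)) ∘ Sum.inr = 0 := rfl
  rw [e1, e2, Matrix.mulVec_zero, Matrix.mulVec_zero, Matrix.zero_mulVec, add_zero, add_zero]
  rfl

private lemma nrb_wd {m : ℕ} {R : Type} [CommRing R] (A B : Matrix (Fin m) (Fin m) R)
    (a b : Fin m → R) (α β : R) (u : Fin m → R) (w : List Bool) :
    wd (bl A a α) (bl B b β) w *ᵥ (Sum.elim u fun _ => 0) = Sum.elim (wd A B w *ᵥ u) fun _ => 0 := by
  induction w with
  | nil =>
    show (1 : Matrix (Ix m) (Ix m) R) *ᵥ _ = Sum.elim ((1 : Matrix (Fin m) (Fin m) R) *ᵥ u) _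
    rw [Matrix.one_mulVec, Matrix.one_mulVec]
  | cons c w ih =>
    show ((if c then bl A a α else bl B b β) * wd (bl A a α) (bl B b β) w) *ᵥ _ =
      Sum.elim (((if c then A else B) * wd A B w) *ᵥ u) _
    rw [← Matrix.mulVec_mulVec, ih, ← Matrix.mulVec_mulVec]
    cases c
    · exact nrb_bl_mulVec B b β _
    · exact nrb_bl_mulVec A a α _

/-- **NrB.** -/
theorem thm_NrB : St_NrB := by
  intro m R _ W x y v j z α β hAC hx hy hv
  set X := un z * x * un (-z) with hX
  set Y := un z * y * un (-z) with hY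
  set V := un z *ᵥ v with hV
  set J := j ᵥ* un (-z) with hJ
  set A : Matrix (Fin m) (Fin m) R := fun i k => X (Sum.inl i) (Sum.inl k) with hA
  set B : Matrix (Fin m) (Fin m) R := fun i k => Y (Sum.inl i) (Sum.inl k) with hB
  set a : Fin m → R := fun i => X (Sum.inl i) (Sum.inr ()) with ha
  set b : Fin m → R := fun i => Y (Sum.inl i) (Sum.inr ()) with hb
  set v₁ : Fin m → R := fun i => V (Sum.inl i) with hv1
  set j₁ : Fin m → R := fun i => J (Sum.inl i) with hj1
  have hXb : X = bl A a α := nrb_form z x α hx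
  have hYb : Y = bl B b β := nrb_form z y β hy
  have hVb : V = Sum.elim v₁ fun _ => 0 := by
    funext s
    rcases s with i | u
    · rfl
    · show (un z *ᵥ v) (Sum.inr u) = 0
      have : (un z *ᵥ v) (Sum.inr ()) = (un z) (Sum.inr ()) ⬝ᵥ v := rfl
      rw [show (Sum.inr u : Ix m) = Sum.inr () from rfl, this, nrb_row]
      exact hv
  have hJb : J = Sum.elim j₁ fun _ => j (Sum.inr ()) := by
    funext s
    rcases s with i | u
    · rfl
    · show (j ᵥ* un (-z)) (Sum.inr u) = j (Sum.inr ())
      simp [Matrix.vecMul, dotProduct, nrb_un_eq, Fintype.sum_sum_type]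
  have hconj : X * Y - Y * X + vecMulVec V J = 0 := by
    have e : X * Y - Y * X + vecMulVec V J = un z * (x * y - y * x + vecMulVec v j) * un (-z) := by
      rw [hV, hJ, ← Matrix.vecMulVec_mul, ← Matrix.mul_vecMulVec, hX, hY]
      have e1 : ∀ s t : Matrix (Ix m) (Ix m) R, un z * s * un (-z) * (un z * t * un (-z)) =
          un z * (s * t) * un (-z) := by
        intro s t
        calc un z * s * un (-z) * (un z * t * un (-z))
            = un z * s * (un (-z) * un z) * (t * un (-z)) := by simp only [Matrix.mul_assoc]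
          _ = _ := by rw [nrb_un_mul', Matrix.mul_one]; simp only [Matrix.mul_assoc]
      rw [e1, e1, Matrix.mul_add, Matrix.mul_sub, Matrix.add_mul, Matrix.sub_mul]
    rw [e, show x * y - y * x + vecMulVec v j = 0 from hAC, Matrix.mul_zero, Matrix.zero_mul]
  have hXY : ∀ s t, (X * Y - Y * X + vecMulVec V J) s t = 0 := fun s t => by rw [hconj]; rfl
  refine ⟨A, B, v₁, j₁, a, b, ?_, ?_, ?_, ?_, ?_, ?_, ?_⟩
  · unfold AC
    ext i k
    have h1 := hXY (Sum.inl i) (Sum.inl k)
    rw [hXb, hYb, hVb, hJb] at h1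
    simp only [Matrix.add_apply, Matrix.sub_apply, Matrix.mul_apply, Fintype.sum_sum_type, nrb_bl_eq,
      Matrix.fromBlocks_apply₁₁, Matrix.fromBlocks_apply₁₂, Matrix.fromBlocks_apply₂₁,
      Matrix.vecMulVec_apply, Sum.elim_inl, Matrix.zero_apply, mul_zero, Finset.sum_const_zero,
      add_zero] at h1
    simp only [Matrix.add_apply, Matrix.sub_apply, Matrix.mul_apply, Matrix.vecMulVec_apply,
      Matrix.zero_apply]
    exact h1
  · unfold E2
    funext i
    have h1 := hXY (Sum.inl i) (Sum.inr ())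
    rw [hXb, hYb, hVb, hJb] at h1
    simp only [Matrix.add_apply, Matrix.sub_apply, Matrix.mul_apply, Fintype.sum_sum_type, nrb_bl_eq,
      Matrix.fromBlocks_apply₁₁, Matrix.fromBlocks_apply₁₂, Matrix.fromBlocks_apply₂₂, nrb_C, nrb_S,
      Matrix.of_apply,
      Matrix.vecMulVec_apply, Sum.elim_inl, Sum.elim_inr, Finset.univ_unique,
      Finset.sum_singleton] at h1
    simp only [Pi.add_apply, Pi.sub_apply, Pi.smul_apply, smul_eq_mul, Matrix.mulVec, dotProduct,
      Pi.zero_apply]
    linear_combination h1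
  · have hfr : fr W x y v = un (-z) * (Matrix.fromBlocks (frH W A B v₁) 0 0 1 : Matrix (Ix m) (Ix m) R) := by
      have hcol : ∀ (s : Ix m) (i : Ix m),
          (un (-z) * (Matrix.fromBlocks (frH W A B v₁) 0 0 1 : Matrix (Ix m) (Ix m) R)) i s =
          (un (-z) *ᵥ fun k => (Matrix.fromBlocks (frH W A B v₁) 0 0 1 : Matrix (Ix m) (Ix m) R) k s) i :=
        fun s i => rfl
      ext i s
      rw [hcol]
      rcases s with c | u
      · show (wd x y (W c) *ᵥ v) i = _
        rw [nrb_conj z x y (W c), ← Matrix.mulVec_mulVec, ← Matrix.mulVec_mulVec, ← hX, ← hY, ← hV,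
          hXb, hYb, hVb, nrb_wd]
        congr 2
        funext k
        rcases k with k | k
        · rfl
        · rfl
      · show (if i = Sum.inr () then (1 : R) else 0) = _
        have e1 : (fun k => (Matrix.fromBlocks (frH W A B v₁) 0 0 1 : Matrix (Ix m) (Ix m) R) k (Sum.inr u)) =
            Pi.single (Sum.inr ()) 1 := by
          funext k
          rcases k with k | k
          · simp
          · simp
        rw [e1, Matrix.mulVec_single_one]
        rcases i with i | i
        · simp [nrb_un_eq, Matrix.col_apply]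
        · simp [nrb_un_eq, Matrix.col_apply]
    rw [hfr, Matrix.det_mul, nrb_det, one_mul, Matrix.det_fromBlocks_zero₂₁, det_one, mul_one]
  · rw [← hXb, hX]
    have : un (-z) * (un z * x * un (-z)) * un z = (un (-z) * un z) * x * (un (-z) * un z) := by
      simp only [Matrix.mul_assoc]
    rw [this, nrb_un_mul', Matrix.one_mul, Matrix.mul_one]
  · rw [← hYb, hY]
    have : un (-z) * (un z * y * un (-z)) * un z = (un (-z) * un z) * y * (un (-z) * un z) := by
      simp only [Matrix.mul_assoc]
    rw [this, nrb_un_mul', Matrix.one_mul, Matrix.mul_one]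
  · rw [← hVb, hV, Matrix.mulVec_mulVec, nrb_un_mul', Matrix.one_mulVec]
  · rw [← hJb, hJ, Matrix.vecMul_vecMul, nrb_un_mul', Matrix.vecMul_one]

end Pool.Agent.ANC
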