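import Pool.Agent.ANC.Defs
import Pool.Agent.ACV.St
import Pool.Agent.CTR.St

/-!
# ANC: statements

THEOREM (MP_c67a3f_ag). Let `A`, `B` be commuting complex matrices of size `n` such that for some vector `v` (or for some
covector `v`) the span of the `A^i B^j v` has codimension at most one. Then the commuting scheme of `gl_n` is reduced at
`(A, B)`. More generally it is enough that this holds for every generalized joint eigenspace of `A`, `B`.

PLAN. Let `S` be the ring of the scheme `[x, y] + v j = 0`, at the points where `W_1 v, .., W_m v, e` is a basis (`W_a` words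
in `x, y`, `e` the last unit vector, `n = m + 1`). All `j w(x, y) v` vanish (Wrd), so `j = c ζ`, `c = j e`, where
`ζ W_a v = 0`, `ζ e = 1`; `c` kills the ideal `𝔟` generated by the entries of `ζ x - α ζ`, `ζ y - β ζ`, `ζ v` (Frm). The ring
`S / 𝔟` is that of the triangular form (`x, y` in a parabolic subalgebra, conjugated by a unipotent matrix): a complete
intersection of the same dimension, in which the discriminant `D` of `x` and `c` form a regular sequence (NrA, NrB, Sp,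
Alg, TQ, DQ, CIa, KQ, KA). As `D` is not a zero divisor in `S` (NZI, NA), `D` is not a zero divisor in `S / (c) = S / (j)`
(Chs, Brg). Nilpotent functions on the commuting scheme are killed by a power of `D` (Gen), so they vanish in `S / (j)`
(Loc). Then points (Pt), transposed matrices (Trn), products (PrT, PrB, Prd, Cnj, Dec).
-/

set_option autoImplicit false
set_option linter.unusedVariables false

noncomputable section

namespace Pool.Agent.ANC

open Matrix Pool.Agent.CTR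

/-! ### identities -/

/-- **Wrd.** `j w(x, y) v = 0` for all words.

Proof. Write `J(w) = j w(x, y) v`. Induction on the length `N` of `w`; assume the claim for shorter words. For words `u`, `u'`
with `|u| + |u'| = N - 2`: `J(u x y u') - J(u y x u') = j u (x y - y x) u' v = - (j u v) (j u' v) = 0`. So for words of length
`N` the value `J(w)` depends only on the number `a` of the `x` in `w` (adjacent transpositions); let `J_a` be this value,
`b = N - a`. Then `tr ((x y - y x) x^a y^b) = - tr (v j x^a y^b) = - J_a`. On the other hand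
`tr (x y x^a y^b) = tr (y x^a y^b x)`, so `tr ((x y - y x) x^a y^b) = tr (y x^a (y^b x - x y^b))` and
`y^b x - x y^b = ∑_(i < b) y^i (y x - x y) y^(b-1-i) = ∑_(i < b) y^i v j y^(b-1-i)`, hence it is
`∑_(i < b) j y^(b-1-i) y x^a y^i v = b J_a`. So `(b + 1) J_a = 0` and `J_a = 0` (`ℂ`-algebra). -/
def St_Wrd : Prop := ∀ (ι R : Type) [Fintype ι] [DecidableEq ι] [CommRing R] [Algebra ℂ R]
  (x y : Matrix ι ι R) (v j : ι → R), AC x y v j → ∀ w : List Bool, j ⬝ᵥ (wd x y w *ᵥ v) = 0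

/-- **Frm.** The functional `ζ = (z, 1)`.

Proof. Let `G = fr W x y v`, `ζ` the last row of `G⁻¹`: `ζ W_a v = 0`, `ζ e = 1` (`e` is the last column of `G`), so
`ζ = zt z`. Let `c = j e = j (inr ())`. `j G = c ζ G`: in the column `a` both sides are `0` by Wrd, in the last column both
are `c`. So `j = c ζ`. `c (ζ x - α ζ) G = 0` with `α = (ζ x) e`: in the column `a` it is `j x W_a v - α j W_a v = 0` (`x W_a`
is a word), in the last column `c (ζ x) e - α c = 0`. The same for `y`. `c ζ v = j v = 0`. -/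
def St_Frm : Prop := ∀ (m : ℕ) (R : Type) [CommRing R] [Algebra ℂ R] (W : Fin m → List Bool)
  (x y : Matrix (Ix m) (Ix m) R) (v j : Ix m → R), AC x y v j → IsUnit (fr W x y v).det →
  ∃ z : Fin m → R, j = j (Sum.inr ()) • zt z ∧ ∀ r ∈ bI z x y v, j (Sum.inr ()) * r = 0

/-- **NrA.** From the triangular form to quadruples.

Proof. `un z * un (-z) = 1`. With `X = bl A a α`, `Y = bl B b β`, `V = (v, 0)`, `J = (j, c)` one has
`X Y - Y X + V J = 0` (blocks: `[A, B] + v j`; `A b + β a - B a - α b` up to order, which is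
`(A b - α b) - (B a - β a)`, plus `c v`; `0`; `α β - β α = 0`), and conjugating by `un z` gives AC. `W_a(x, y)` applied to the
vector is `un (-z) (W_a(A, B) v, 0)`, and the last unit vector is `un (-z) e`, so the frame matrix is
`un (-z) * fromBlocks (frH W A B v) 0 0 1`. Traces of powers are invariant under conjugation. The last column of
`un z` is `e`. -/
def St_NrA : Prop := ∀ (m : ℕ) (R : Type) [CommRing R] (W : Fin m → List Bool)
  (A B : Matrix (Fin m) (Fin m) R) (v j a b z : Fin m → R) (α β c : R),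
  AC A B v j → E2 A B v a b α β c →
  AC (un (-z) * bl A a α * un z) (un (-z) * bl B b β * un z)
    (un (-z) *ᵥ Sum.elim v (fun _ => 0)) (Sum.elim j (fun _ => c) ᵥ* un z) ∧
  (fr W (un (-z) * bl A a α * un z) (un (-z) * bl B b β * un z)
    (un (-z) *ᵥ Sum.elim v (fun _ => 0))).det = (frH W A B v).det ∧
  dsx (m + 1) (un (-z) * bl A a α * un z) = dsx (m + 1) (bl A a α) ∧
  (Sum.elim j (fun _ => c) ᵥ* un z) (Sum.inr ()) = c

/-- **NrB.** From quadruples with a common covector to the triangular form.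

Proof. Let `ζ = zt z`. The last row of `un z` is `ζ`, so `ζ * un (-z) = (0, 1)`, and the last row of
`X = un z * x * un (-z)` is `ζ x un (-z) = α (0, 1)`: `X = bl A a α`. Similarly `Y = un z * y * un (-z) = bl B b β`, and
`un z *ᵥ v = (v₁, ζ v) = (v₁, 0)`, `j ᵥ* un (-z) = (j₁, j e)`. Conjugating AC gives `X Y - Y X + (v₁, 0) (j₁, c) = 0`, whose
blocks are AC for `A, B, v₁, j₁` and E2. The determinants as in NrA. -/
def St_NrB : Prop := ∀ (m : ℕ) (R : Type) [CommRing R] (W : Fin m → List Bool)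
  (x y : Matrix (Ix m) (Ix m) R) (v j : Ix m → R) (z : Fin m → R) (α β : R), AC x y v j →
  zt z ᵥ* x = α • zt z → zt z ᵥ* y = β • zt z → zt z ⬝ᵥ v = 0 →
  ∃ (A B : Matrix (Fin m) (Fin m) R) (v₁ j₁ a b : Fin m → R), AC A B v₁ j₁ ∧
    E2 A B v₁ a b α β (j (Sum.inr ())) ∧ (frH W A B v₁).det = (fr W x y v).det ∧
    x = un (-z) * bl A a α * un z ∧ y = un (-z) * bl B b β * un z ∧
    v = un (-z) *ᵥ Sum.elim v₁ (fun _ => 0) ∧
    j = Sum.elim j₁ (fun _ => j (Sum.inr ())) ᵥ* un z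

/-- **Chs.** The chase.

Proof. Induction on `N`; it is enough to treat `N = 1` (`D (D^(N-1) f) ∈ (c)` gives `D^(N-1) f ∈ (c)`). Let `D f = c g`.
`φ c * φ g = φ D * φ f`, so `φ g = q φ D` for some `q`, and `mk g = ψ (φ g) = ψ q * mk D`; let `mk r = ψ q`. So
`g - r D ∈ b`, `c g = c r D`, `D (f - c r) = 0`, `f = c r`. -/
def St_Chs : Prop := ∀ (R Q : Type) [CommRing R] [CommRing Q] (b : Ideal R) (φ : R →+* Q)
  (ψ : Q →+* R ⧸ b) (D c : R), (∀ r, ψ (φ r) = Ideal.Quotient.mk b r) → (∀ r ∈ b, c * r = 0) →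
  (∀ r, D * r = 0 → r = 0) → (∀ q, φ c * q ∈ Ideal.span {φ D} → q ∈ Ideal.span {φ D}) →
  ∀ (N : ℕ) (f : R), D ^ N * f ∈ Ideal.span {c} → f ∈ Ideal.span {c}

/-! ### dimension of the triangular form -/

/-- **Alg.** Derivations of algebraic elements.

Proof. Let `E` be the set of the `e ∈ L` for which there is a linear functional `ℓ_e` with `δ e = ℓ_e (δ (z i))_i` for all
`δ`. It contains `k` (`ℓ = 0`) and the `z i`, and it is a subfield: `ℓ_(e+e') = ℓ_e + ℓ_e'`,
`ℓ_(e e') = e ℓ_e' + e' ℓ_e`, `ℓ_(e⁻¹) = - e⁻² ℓ_e`. Let `α` be algebraic over `E` with minimal polynomial `p = ∑ p_i t^i`;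
`0 = δ (p (α)) = ∑ α^i δ p_i + p' (α) δ α` and `p' (α) ≠ 0` (characteristic zero), so
`ℓ_α = - p' (α)⁻¹ ∑ α^i ℓ_(p_i)`. -/
def St_Alg : Prop := ∀ (k L : Type) [Field k] [CharZero k] [Field L] [Algebra k L] (σ : Type)
  [Fintype σ] (z : σ → L) (α : L), IsAlgebraic (IntermediateField.adjoin k (Set.range z)) α →
  ∃ ℓ : (σ → L) →ₗ[L] L, ∀ δ : Derivation k L L, δ α = ℓ (fun i => δ (z i))

/-- **Sp.** The discriminant of a block triangular matrix.

Proof. Suppose that `α` is not a root of the characteristic polynomial of `A` and that the number of distinct `μ_i` is at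
least `m`. As the `ℓ_i > 0` have the sum `m`, all `ℓ_i = 1` and the `μ_i` are distinct and `m` in number, the eigenvalues
of `A`; the characteristic polynomial of `bl A a α` is that of `A` times `X - α`, with `m + 1` distinct roots `λ_s`. The
trace of the `r`-th power of `bl A a α` is `∑ λ_s^r` (or: `tr (A^r) + α^r`, block triangular), so the Gram matrix is `Vᵀ V`
with the Vandermonde matrix `V` of the `λ_s` and `dsx ≠ 0`. -/
def St_Sp : Prop := ∀ (L : Type) [Field L] [IsAlgClosed L] [DecidableEq L] (m : ℕ)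
  (A : Matrix (Fin m) (Fin m) L) (κ : Type) [Fintype κ] (ℓ : κ → ℕ) (μ : κ → L)
  (J : Module.Basis (Σ i : κ, Fin (ℓ i)) L (Fin m → L)), Pool.Agent.ACV.JB A ℓ μ J →
  ∀ (a : Fin m → L) (α : L), dsx (m + 1) (bl A a α) = 0 →
    A.charpoly.eval α = 0 ∨ (Finset.univ.image μ).card + 1 ≤ m

/-- **TQ.** The tangent space of the triangular form at a generic point of a bad component.

Proof. `JBx` gives a Jordan basis of `A` with the eigenvalues `μ`; let `r` be the number of distinct `μ_i`, `r ≤ m` (Vd). TA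
gives `T₁` (coordinates of `A, B, v, j`) of dimension `≤ m² + m + r`. Let `F (a', b') = A b' - α b' - (B a' - β a')`,
`L^m × L^m → L^m`, of rank `m - ρ`, where `ρ` is the dimension of the space of the row vectors `η` with `η A = α η`,
`η B = β η`. If such an `η` has `η v = 0`, then `η W_a v = 0` for all `a` and `η = 0`, as the `W_a v` are a basis. So
`ρ ≤ 1`, and if `ρ = 1` then `α`, `β` are eigenvalues of `A`, `B`. Let `s` be the number of true statements among
`A.charpoly.eval α = 0`, `B.charpoly.eval β = 0`. In these cases `α` (or `β`) is algebraic over the field generated by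
the entries of `A` (or `B`), and Alg gives functionals `ℓ_α` (`ℓ_β`). Let `T` be the space of the
`coQ A' B' v' j' a' b' z' α' β' 0` with `(A', B', v', j') ∈ T₁`,
`A' b + A b' - α' b - α b' - (B' a + B a' - β' a - β a') = 0`, `α' = ℓ_α (A')` if `α` is an eigenvalue of `A` and
`β' = ℓ_β (B')` if `β` is one of `B`. It contains the vectors of the derivations. The kernel of the map
`T → T₁ × L²`, to `(A', B', v', j', α', β')`, consists of the `(a', b', z')` with `F (a', b') = 0`: dimension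
`(m + ρ) + m`; the image has dimension `≤ m² + m + r + 2 - s`. So `dim T ≤ m² + 3 m + r + 2 + ρ - s`. If `ρ = 1` then
`s = 2`, `r ≤ m`; if `ρ = 0` and `α` is an eigenvalue of `A`, then `s ≥ 1`, `r ≤ m`; if `ρ = 0` and `α` is not an eigenvalue
of `A`, then `r ≤ m - 1` by Sp. In all cases `dim T ≤ m² + 4 m + 1`. -/
def St_TQ : Prop := ∀ (L : Type) [Field L] [IsAlgClosed L] [Algebra ℂ L] (m : ℕ)
  (W : Fin m → List Bool) (A B : Matrix (Fin m) (Fin m) L) (v j a b z : Fin m → L) (α β : L),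
  AC A B v j → E2 A B v a b α β 0 → (frH W A B v).det ≠ 0 → dsx (m + 1) (bl A a α) = 0 →
  ∃ T : Submodule L (Qv m → L), Module.finrank L T ≤ m ^ 2 + 4 * m + 1 ∧
    ∀ δ : Derivation ℂ L L, (fun i => δ (coQ A B v j a b z α β 0 i)) ∈ T

/-- **DQ.** The dimension of the bad part of the triangular form.

Proof. `L` the algebraic closure of the fraction field of `RQ m ⧸ P`, `A, B, ..` the images of `qA m, ..`; the image of
`qs m 2` is `0`. `Pool.Agent.ACV.St_Der` and TQ. (Compare `Pool/Agent/ACV/Dm.lean`.) -/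
def St_DQ : Prop := ∀ (m : ℕ) (W : Fin m → List Bool) (P : Ideal (RQ m)) [P.IsPrime],
  IQ m ≤ P → dsx (m + 1) (bl (qA m) (qw m 0) (qs m 0)) ∈ P → qs m 2 ∈ P →
  (frH W (qA m) (qB m) (qv m)).det ∉ P →
  ringKrullDim (RQ m ⧸ P) ≤ ((m ^ 2 + 4 * m + 1 : ℕ) : WithBot ℕ∞)

/-- **CIa.** Complete intersections with an element inverted.

Proof. Let `I = (f)`, `𝔞 = {h | h q ∈ I}`. By the Nullstellensatz it is enough that for every `a : σ → k` with
`θ(a) ≠ 0` there is `h ∈ 𝔞` with `h(a) ≠ 0` (then `θ` is in the radical of `𝔞`). If some `f_i(a) ≠ 0` take `h = f_i`, if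
`c(a) ≠ 0` take `h = c`. Otherwise let `R` be the localization of `k[σ]` at the maximal ideal `𝔪` of `a`. It is a local ring
with the regular sequence `X_i - a_i` of length `card σ` (translate to the origin, `ci_weak` in
`Pool/Agent/ACV/CI.lean`), and `dim R / (f, c) + (card τ + 1) ≤ card σ`, as for every prime of `R` containing `f`, `c` the
contraction `P ⊆ 𝔪` does not contain `θ` and `dim R / P R ≤ dim k[σ] / P` (`ci_dim` there). `Pool.Agent.ACV.St_CMl` gives `q ∈ I R`. -/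
def St_CIa : Prop := ∀ (k : Type) [Field k] [IsAlgClosed k] (σ : Type) [Fintype σ] (τ : Type)
  [Fintype τ] (f : τ → MvPolynomial σ k) (c θ : MvPolynomial σ k),
  (∀ P : Ideal (MvPolynomial σ k), P.IsPrime → (∀ i, f i ∈ P) → c ∈ P → θ ∉ P →
    ringKrullDim (MvPolynomial σ k ⧸ P) + ((Fintype.card τ + 1 : ℕ) : WithBot ℕ∞) ≤
      ((Fintype.card σ : ℕ) : WithBot ℕ∞)) →
  ∀ q : MvPolynomial σ k, c * q ∈ Ideal.span (Set.range f) →
    ∃ N : ℕ, θ ^ N * q ∈ Ideal.span (Set.range f)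

/-- **KQ.** `c` is not a zero divisor modulo the equations and the discriminant, where the frame is a basis.

Proof. CIa for `k = ℂ`, `σ = Qv m` with `2 m² + 5 m + 3` elements, `τ` the `m² + m` equations and one more index for the
discriminant, `c = qs m 2`, `θ = det (frH ..)`; DQ: `m² + 4 m + 1 + (m² + m + 1) + 1 = 2 m² + 5 m + 3`. -/
def St_KQ : Prop := ∀ (m : ℕ) (W : Fin m → List Bool) (q : RQ m),
  qs m 2 * q ∈ IQ m ⊔ Ideal.span {dsx (m + 1) (bl (qA m) (qw m 0) (qs m 0))} →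
  ∃ N : ℕ, (frH W (qA m) (qB m) (qv m)).det ^ N * q ∈
    IQ m ⊔ Ideal.span {dsx (m + 1) (bl (qA m) (qw m 0) (qs m 0))}

/-- **KA.** The same in the localization.

Proof. Write `q = jq q₁ / θ^M`; `c q ∈ (D)` gives `θ^M' qs q₁ ∈ IQ + (D)` in `RQ m`, so `θ^(N + M') q₁ ∈ IQ + (D)` by KQ (for
`θ^M' q₁`). -/
def St_KA : Prop := ∀ (m : ℕ) (W : Fin m → List Bool) (q : QA m W),
  jq m W (qs m 2) * q ∈ Ideal.span {jq m W (dsx (m + 1) (bl (qA m) (qw m 0) (qs m 0)))} →
  q ∈ Ideal.span {jq m W (dsx (m + 1) (bl (qA m) (qw m 0) (qs m 0)))}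

/-! ### the almost commuting scheme -/

/-- **NZI.** The discriminant is not a zero divisor modulo the ideal of the almost commuting scheme.

Proof. This is `Pool.Agent.ACV.St_NZ` for `k = ℂ`, `n = m + 1` (proved: `Pool.Agent.ACV.all_NZ` in
`Pool/Agent/ACV/All.lean`), after renaming the variables along a bijection of `Fin (m + 1)` and `Ix m`. -/
def St_NZI : Prop := ∀ (m : ℕ) (g : RI (Ix m)), dsx (m + 1) (gX (Ix m)) * g ∈ IA (Ix m) →
  g ∈ IA (Ix m)

/-- **NA.** The same in the localization.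

Proof. Clear denominators and use NZI. -/
def St_NA : Prop := ∀ (m : ℕ) (W : Fin m → List Bool) (g : RA m W),
  ja m W (dsx (m + 1) (gX (Ix m))) * g = 0 → g = 0

/-- **HmR.** The universal property of `RA m W`.

Proof. `κ` kills the generators of `IA` by AC, so it factors through the quotient; the image of the determinant is the
determinant for the images, a unit. -/
def St_HmR : Prop := ∀ (m : ℕ) (W : Fin m → List Bool) (T : Type) [CommRing T]
  (κ : RI (Ix m) →+* T), AC ((gX (Ix m)).map κ) ((gY (Ix m)).map κ) (κ ∘ gv (Ix m)) (κ ∘ gj (Ix m)) →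
  IsUnit (fr W ((gX (Ix m)).map κ) ((gY (Ix m)).map κ) (κ ∘ gv (Ix m))).det →
  ∃ φ : RA m W →+* T, φ.comp (ja m W) = κ

/-- **HmQ.** The universal property of `QA m W`.

Proof. As HmR. -/
def St_HmQ : Prop := ∀ (m : ℕ) (W : Fin m → List Bool) (T : Type) [CommRing T]
  (κ : RQ m →+* T), AC ((qA m).map κ) ((qB m).map κ) (κ ∘ qv m) (κ ∘ qj m) →
  E2 ((qA m).map κ) ((qB m).map κ) (κ ∘ qv m) (κ ∘ qw m 0) (κ ∘ qw m 1) (κ (qs m 0))
    (κ (qs m 1)) (κ (qs m 2)) →
  IsUnit (frH W ((qA m).map κ) ((qB m).map κ) (κ ∘ qv m)).det →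
  ∃ φ : QA m W →+* T, φ.comp (jq m W) = κ

/-- **Brg.** The discriminant is not a zero divisor modulo `c`.

Proof. Let `R = RA m W` with the images `x, y, v, j` of the variables under `ja`; AC holds and the frame determinant is a
unit. Frm gives `z`; let `b = bI z x y v`, `c = j (inr ())`. (ψ) in `R ⧸ b`, the images of `x, y, v, j`, `z` and of the last
entries `α`, `β` of `ζ x`, `ζ y` satisfy the hypotheses of NrB, which gives `A, B, v₁, j₁, a, b'`. Let `κ : RQ m → R ⧸ b` be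
the homomorphism of `ℂ`-algebras with these values; HmQ gives `ψ : QA m W → R ⧸ b`. (φ) the images in `QA m W` of
`qA m, ..` satisfy AC and E2 and their frame determinant is a unit; NrA gives a quadruple over `QA m W`, HmR gives
`φ : RA m W → QA m W` with these values. `ψ ∘ φ = mk` as both agree on the variables (the last four equations of NrB;
homomorphisms from `RA m W` which agree after composition with `ja m W` are equal) and on `ℂ`. `φ c = jq (qs m 2)`,
`φ (ja D) = jq (dsx (m + 1) (bl ..))` (NrA). Now Chs with KA and NA. -/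
def St_Brg : Prop := ∀ (m : ℕ) (W : Fin m → List Bool) (N : ℕ) (f : RA m W),
  ja m W (dsx (m + 1) (gX (Ix m))) ^ N * f ∈ Ideal.span {ja m W (gj (Ix m) (Sum.inr ()))} →
  f ∈ Ideal.span {ja m W (gj (Ix m) (Sum.inr ()))}

/-- **Gen.** Nilpotent functions are killed by a power of the discriminant.

Proof. We may assume that `ι = Fin n` (rename). Let `𝔞 = {h | h f ∈ comI}`. Let `X₀`, `Y₀` be matrices with
`dsx n X₀ ≠ 0`. Then the minimal polynomial of `X₀` has degree `n` (otherwise a nontrivial combination of the powers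
`X₀^a`, `a < n`, is zero and the Gram matrix is singular), so all eigenspaces of `X₀` have dimension at most `1`, and
`Pool.Agent.CTR.all_GL` (`Pool/Agent/CTR/All.lean`) for `a = 1`, `b = 0` gives `g ∈ 𝔞` with `g (X₀, Y₀) ≠ 0`. So `dsx n (mX)`
vanishes at all zeros of `𝔞` and a power of it is in `𝔞` (Nullstellensatz). -/
def St_Gen : Prop := ∀ (ι : Type) [Fintype ι] [DecidableEq ι] (n : ℕ), Fintype.card ι = n →
  ∀ f : Rg ι ℂ, (∃ m : ℕ, f ^ m ∈ comI ι ℂ) → ∃ N : ℕ, dsx n (mX ι ℂ) ^ N * f ∈ comI ι ℂ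

/-- **Loc.** The commuting scheme is reduced where the frame is a basis.

Proof. Let `f` be nilpotent modulo `comI`, `F` its image in `RI (Ix m)` (no `v`, `j`). By Gen `D^N f ∈ comI`. In `RA m W` the
entries of `x y - y x` are `- v_s j_t = - v_s c ζ_t` (Frm), so `ja (D^N F) ∈ (c)` and by Brg `ja F ∈ (c)`. Clearing
denominators, `θ^M F - gj (inr ()) h ∈ IA` for some `M`, `h`, `θ = det (fr ..)`. Apply the homomorphism `RI (Ix m) → Rg (Ix m) ℂ`
of `ℂ`-algebras with `x, y ↦ mX, mY`, `v ↦` the constants `v`, `j ↦ 0`. It maps `IA` to `comI`, `F` to `f` and `θ` to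
`g₀ = det (fr W mX mY v)`. So `g₀^M f ∈ comI` and `ev A B g₀ = det (fr W A B v) ≠ 0`. -/
def St_Loc : Prop := ∀ (m : ℕ) (W : Fin m → List Bool) (A B : Matrix (Ix m) (Ix m) ℂ)
  (v : Ix m → ℂ), (fr W A B v).det ≠ 0 → Rd A B

/-! ### points -/

/-- **Cnj.** Conjugation and reindexing.

Proof. The automorphism `α` of `ℂ`-algebras from `Rg κ ℂ` to `Rg ι ℂ` with `x ↦ reindex e e (Q⁻¹ x Q)`,
`y ↦ reindex e e (Q⁻¹ y Q)` (values: `α h` at `(A, B)` is `h` at the conjugated pair) and its inverse map `comI` to `comI`;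
compare `glM` in `Pool/Agent/CTR/GL.lean`. -/
def St_Cnj : Prop := ∀ (ι κ : Type) [Fintype ι] [DecidableEq ι] [Fintype κ] [DecidableEq κ]
  (e : ι ≃ κ) (Q : (Matrix ι ι ℂ)ˣ) (A B : Matrix ι ι ℂ),
  Rd (Matrix.reindex e e ((Q⁻¹ : (Matrix ι ι ℂ)ˣ).val * A * Q.val))
    (Matrix.reindex e e ((Q⁻¹ : (Matrix ι ι ℂ)ˣ).val * B * Q.val)) → Rd A B

/-- **Trn.** Transposed matrices.

Proof. The automorphism `x_ij ↦ x_ji`, `y_ij ↦ y_ji` maps the entries of `x y - y x` to the negatives of such entries. -/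
def St_Trn : Prop := ∀ (ι : Type) [Fintype ι] [DecidableEq ι] (A B : Matrix ι ι ℂ),
  Rd Aᵀ Bᵀ → Rd A B

/-- **Pt.** Linear algebra at the point.

Proof. Choose `m` of the vectors `A^i B^j v` which are linearly independent, `W_a` the word `x^i y^j`. Their span is not
everything, so some unit vector `e_r` is not in it. Let `e` be a bijection with `e r = inr ()`. -/
def St_Pt : Prop := ∀ (m : ℕ) (A B : Matrix (Fin (m + 1)) (Fin (m + 1)) ℂ) (v : Fin (m + 1) → ℂ),
  m ≤ Module.finrank ℂ (gen A B v) → ∃ (e : Fin (m + 1) ≃ Ix m) (W : Fin m → List Bool),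
    (fr W (Matrix.reindex e e A) (Matrix.reindex e e B) (v ∘ e.symm)).det ≠ 0

/-- **NC.** The theorem for one eigenvalue.

Proof. `n = 0`: `comI = 0` and `Rg` is a domain, `g = 1`. `n = m + 1`: Pt, Loc, Cnj (with `Q = 1`); Trn for the second case. -/
def St_NC : Prop := ∀ (n : ℕ) (A B : Matrix (Fin n) (Fin n) ℂ),
  ((∃ v, n ≤ Module.finrank ℂ (gen A B v) + 1) ∨ ∃ v, n ≤ Module.finrank ℂ (gen Aᵀ Bᵀ v) + 1) →
  Rd A B

/-! ### products -/

/-- **PrT.** Products of schemes which are reduced at a point.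

Proof. Let `K_I` be the ideal of the `f ∈ ℂ[σ]` with `g f ∈ I` for some `g`, `g(a) ≠ 0`, and `K_J` similarly. By the hypotheses
`K_I` contains the radical of `I`, the same for `J`. `K_I` is finitely generated, so one `g` works: `g K_I ⊆ I`, and
`h K_J ⊆ J`. Let `(e_i)` in `ℂ[σ]` be such that their classes are a basis of the vector space `ℂ[σ] / K_I`. Modulo the
ideal generated by `K_I`, `F = ∑ e_i F_(i,μ) u^μ` with `F_(i,μ) ∈ ℂ[τ]`, `u^μ` the monomials in the variables `υ` (finite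
sum). For all `u ∈ ℂ^υ` and all zeros `b'` of `J` the polynomial `F (u, ·, b')` is nilpotent modulo `I`, so it is in
`K_I`, so `∑_μ F_(i,μ)(b') u^μ = 0` for all `i`. As this holds for all `u`, all `F_(i,μ)(b') = 0`. So `F_(i,μ)` is in the
radical of `J` (Nullstellensatz), so in `K_J`, and `g h F ∈ (I, J)`. -/
def St_PrT : Prop := ∀ (υ σ τ : Type) [Fintype υ] [Fintype σ] [Fintype τ]
  (I : Ideal (MvPolynomial σ ℂ)) (J : Ideal (MvPolynomial τ ℂ)) (a : σ → ℂ) (b : τ → ℂ),
  (∀ f : MvPolynomial σ ℂ, (∃ m : ℕ, f ^ m ∈ I) → ∃ g, MvPolynomial.eval a g ≠ 0 ∧ g * f ∈ I) →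
  (∀ f : MvPolynomial τ ℂ, (∃ m : ℕ, f ^ m ∈ J) → ∃ g, MvPolynomial.eval b g ≠ 0 ∧ g * f ∈ J) →
  ∀ F : MvPolynomial (υ ⊕ (σ ⊕ τ)) ℂ,
    (∃ m : ℕ, F ^ m ∈ I.map (MvPolynomial.rename (fun s => Sum.inr (Sum.inl s)) :
      MvPolynomial σ ℂ →ₐ[ℂ] MvPolynomial (υ ⊕ (σ ⊕ τ)) ℂ) ⊔
      J.map (MvPolynomial.rename (fun s => Sum.inr (Sum.inr s)) :
      MvPolynomial τ ℂ →ₐ[ℂ] MvPolynomial (υ ⊕ (σ ⊕ τ)) ℂ)) →
    ∃ (g : MvPolynomial σ ℂ) (h : MvPolynomial τ ℂ), MvPolynomial.eval a g ≠ 0 ∧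
      MvPolynomial.eval b h ≠ 0 ∧
      MvPolynomial.rename (fun s => Sum.inr (Sum.inl s)) g *
        MvPolynomial.rename (fun s => Sum.inr (Sum.inr s)) h * F ∈
      I.map (MvPolynomial.rename (fun s => Sum.inr (Sum.inl s)) :
      MvPolynomial σ ℂ →ₐ[ℂ] MvPolynomial (υ ⊕ (σ ⊕ τ)) ℂ) ⊔
      J.map (MvPolynomial.rename (fun s => Sum.inr (Sum.inr s)) :
      MvPolynomial τ ℂ →ₐ[ℂ] MvPolynomial (υ ⊕ (σ ⊕ τ)) ℂ)

/-- **PrB.** Block decomposition over a local ring.

Proof. Let `κ : ℂ → T → K` (residue field). `z = x + t y`, `I_1` the set of the indices `i` with `r_i` (modulo the maximal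
ideal) a root of the characteristic polynomial `p_1` of `A₁ + t B₁`, `I_2` the others. Over `K` the product of the
`X - r_i` is `p_1 p_2`, and `p_1`, `p_2` are coprime, so `χ_1 = ∏_(I_1) (X - r_i)` reduces to `p_1`, `χ_2 = ∏_(I_2) (X - r_i)`
to `p_2`; `χ_1 χ_2` is the characteristic polynomial of `z`, and `u χ_1 + w χ_2 = 1` for some `u, w ∈ T[X]` (the
`r_i - r_j`, `i ∈ I_1`, `j ∈ I_2`, are units; the product of the comaximal ideals `(X - r_i)`, `(X - r_j)`). Let `G` be the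
matrix whose first `n₁` columns are those of `χ_2(z)` and whose last `n₂` columns are those of `χ_1(z)`. Over `K` it is
`diag (p_2 (A₁ + t B₁), p_1 (A₂ + t B₂))` (Cayley-Hamilton), which is invertible. So `G` is invertible over `T`. Let
`N_1 = χ_2(z) T^n`, `N_2 = χ_1(z) T^n`; both are stable under `x`, `y`; `N_1 ∩ N_2 = 0` (`χ_1(z)` kills `N_1`, `χ_2(z)` kills
`N_2`, `u χ_1 + w χ_2 = 1`). The first `n₁` columns of `G` are in `N_1`, the others in `N_2`, and all columns are a basis of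
`T^n`, so the first `n₁` are a basis of `N_1`, the others one of `N_2`. So `x G = G diag (x₁, x₂)`, `y G = G diag (y₁, y₂)`.
Over `K`, `G = diag (g_1, g_2)` where `g_1` commutes with `A₁`, `B₁` and `g_2` with `A₂`, `B₂`, so `x₁` reduces to
`g_1⁻¹ A₁ g_1 = A₁`, etc. `x₁ y₁ = y₁ x₁` as `x y = y x`. -/
def St_PrB : Prop := ∀ (T : Type) [CommRing T] [IsLocalRing T] [Algebra ℂ T] (n₁ n₂ : ℕ)
  (A₁ B₁ : Matrix (Fin n₁) (Fin n₁) ℂ) (A₂ B₂ : Matrix (Fin n₂) (Fin n₂) ℂ) (t : ℂ),
  A₁ * B₁ = B₁ * A₁ → A₂ * B₂ = B₂ * A₂ →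
  IsCoprime (A₁ + t • B₁).charpoly (A₂ + t • B₂).charpoly →
  ∀ (x y : Matrix (Fin n₁ ⊕ Fin n₂) (Fin n₁ ⊕ Fin n₂) T) (r : Fin (n₁ + n₂) → T), x * y = y * x →
  (∀ s s', x s s' - algebraMap ℂ T (Matrix.fromBlocks A₁ 0 0 A₂ s s') ∈ IsLocalRing.maximalIdeal T) →
  (∀ s s', y s s' - algebraMap ℂ T (Matrix.fromBlocks B₁ 0 0 B₂ s s') ∈ IsLocalRing.maximalIdeal T) →
  (x + t • y).charpoly = ∏ i, (Polynomial.X - Polynomial.C (r i)) →
  ∃ (G H : Matrix (Fin n₁ ⊕ Fin n₂) (Fin n₁ ⊕ Fin n₂) T) (x₁ y₁ : Matrix (Fin n₁) (Fin n₁) T)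
    (x₂ y₂ : Matrix (Fin n₂) (Fin n₂) T), G * H = 1 ∧ x₁ * y₁ = y₁ * x₁ ∧ x₂ * y₂ = y₂ * x₂ ∧
    x = G * Matrix.fromBlocks x₁ 0 0 x₂ * H ∧ y = G * Matrix.fromBlocks y₁ 0 0 y₂ * H ∧
    (∀ s s', x₁ s s' - algebraMap ℂ T (A₁ s s') ∈ IsLocalRing.maximalIdeal T) ∧
    (∀ s s', y₁ s s' - algebraMap ℂ T (B₁ s s') ∈ IsLocalRing.maximalIdeal T) ∧
    (∀ s s', x₂ s s' - algebraMap ℂ T (A₂ s s') ∈ IsLocalRing.maximalIdeal T) ∧
    ∀ s s', y₂ s s' - algebraMap ℂ T (B₂ s s') ∈ IsLocalRing.maximalIdeal T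

/-- **Prd.** Direct sums.

Proof. Let `ι = Fin n₁ ⊕ Fin n₂`, `f` nilpotent modulo `comI ι ℂ`, `R` the localization of `Rg ι ℂ` at the maximal ideal of
the point `(diag (A₁, A₂), diag (B₁, B₂))`, modulo `comI`; assume that `R` is not zero. It is enough that the image of
`f` in `R` is zero. `Pool.Agent.CTR.St_Spl` (proved: `Pool.Agent.CTR.thm_Spl`) gives an extension `R ⊆ R'` in which the
characteristic polynomial of `x + t y` is `∏ (X - r_i)`, `R'` integral over `R` (use the subring generated by `R` and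
the `r_i`). It is enough that the image of `f` is zero in the localizations `T` of `R'` at its maximal ideals; such a
maximal ideal lies over the maximal ideal of `R`, so PrB applies to the images of `x`, `y` in `T`. Let `F` be the image
of `f` under `Φ : Rg ι ℂ → ℂ[g, h, x₁, y₁, x₂, y₂]`, `x ↦ g diag (x₁, x₂) h`, `y ↦ g diag (y₁, y₂) h`. With `υ` the variables of
`g`, `h`, modulo `comI` for `(x₁, y₁)` and for `(x₂, y₂)` and modulo the entries of `g h - 1` the image of `x y - y x` is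
`0`. To avoid the last relation take `h = adj g`: let `Φ' f = det(g)^M f (g diag (x₁, x₂) adj(g) / det g, ..)`, a polynomial
in `g, x₁, y₁, x₂, y₂` for large `M`; `(Φ' f)^N ∈ (comI, comI)` after multiplication with a power of `det g`, so
`F = det(g)^M' Φ' f` is nilpotent modulo `(comI, comI)`. PrT gives `a(x₁, y₁) b(x₂, y₂) F ∈ (comI, comI)` with
`a (A₁, B₁) ≠ 0`, `b (A₂, B₂) ≠ 0`. Apply the homomorphism to `T` with `g ↦ G`, `x₁ ↦ x₁`, ..: `a`, `b`, `det g` are mapped to
units and `F` to the image of `f` times a power of the unit `det G`. So the image of `f` in `T` is zero. -/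
def St_Prd : Prop := ∀ (n₁ n₂ : ℕ) (A₁ B₁ : Matrix (Fin n₁) (Fin n₁) ℂ)
  (A₂ B₂ : Matrix (Fin n₂) (Fin n₂) ℂ) (t : ℂ), A₁ * B₁ = B₁ * A₁ → A₂ * B₂ = B₂ * A₂ →
  IsCoprime (A₁ + t • B₁).charpoly (A₂ + t • B₂).charpoly → Rd A₁ B₁ → Rd A₂ B₂ →
  Rd (Matrix.fromBlocks A₁ 0 0 A₂) (Matrix.fromBlocks B₁ 0 0 B₂)

/-- **Bas.** Splitting off one generalized joint eigenspace.

Proof. `A`, `B` commute and `n > 0`, so there is a common eigenvector; let `(α, β)` be its eigenvalues. There are finitely many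
pairs of joint eigenvalues, so there is `t` such that `α' + t β' ≠ α + t β` for all other pairs. With `C = A + t B`,
`γ = α + t β` the space `gE A B α β` is the generalized eigenspace `U_1` of `C` for `γ`, the kernel of `(C - γ)^n`, and
`V = U_1 ⊕ U_2`, `U_2` the range of `(C - γ)^n`; both are stable under `A`, `B`. Let `Q` have as columns a basis of `U_1`
followed by a basis of `U_2` (`e` a bijection of `Fin n` with `Fin n₁ ⊕ Fin n₂`). The characteristic polynomial of
`A₁ + t B₁` is `(X - γ)^n₁`, and `γ` is not a root of that of `A₂ + t B₂`. -/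
def St_Bas : Prop := ∀ (n : ℕ) (A B : Matrix (Fin n) (Fin n) ℂ), 0 < n → A * B = B * A →
  ∃ (α β t : ℂ) (n₁ n₂ : ℕ) (e : Fin n ≃ Fin n₁ ⊕ Fin n₂) (Q : (Matrix (Fin n) (Fin n) ℂ)ˣ)
    (A₁ B₁ : Matrix (Fin n₁) (Fin n₁) ℂ) (A₂ B₂ : Matrix (Fin n₂) (Fin n₂) ℂ), 0 < n₁ ∧
    Matrix.reindex e e ((Q⁻¹ : (Matrix (Fin n) (Fin n) ℂ)ˣ).val * A * Q.val) =
      Matrix.fromBlocks A₁ 0 0 A₂ ∧
    Matrix.reindex e e ((Q⁻¹ : (Matrix (Fin n) (Fin n) ℂ)ˣ).val * B * Q.val) =
      Matrix.fromBlocks B₁ 0 0 B₂ ∧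
    IsCoprime (A₁ + t • B₁).charpoly (A₂ + t • B₂).charpoly ∧
    gE A₁ B₁ α β = ⊤ ∧ gE A₂ B₂ α β = ⊥

/-- The condition on one generalized joint eigenspace. -/
def Cd {n : ℕ} (A B : Matrix (Fin n) (Fin n) ℂ) (α β : ℂ) : Prop :=
  ∃ v, Module.finrank ℂ (gE A B α β) ≤
    Module.finrank ℂ (gE A B α β ⊓ gen A B v : Submodule ℂ (Fin n → ℂ)) + 1

/-- **Cdb.** The condition for blocks.

Proof. For block matrices `gE A B α β` is the direct sum of those of the blocks, `(v₁, v₂)` with both parts in them. Let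
`v = (v₁, v₂)`, `(α, β)` arbitrary. As the blocks of `A + t B` have coprime characteristic polynomials, there is a
polynomial `p` with `p (A + t B) = diag (1, 0)`, so `gen A B v` is the direct sum of `gen A₁ B₁ v₁` and `gen A₂ B₂ v₂`, and its
intersection with `gE A B α β` is the direct sum of the intersections for the blocks. The dimension of
`gE A_i B_i α β` minus that of its intersection with `gen A_i B_i v_i` is at most the same difference for `A`, `B`. -/
def St_Cdb : Prop := ∀ (n n₁ n₂ : ℕ) (A B : Matrix (Fin n) (Fin n) ℂ)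
  (e : Fin n ≃ Fin n₁ ⊕ Fin n₂) (Q : (Matrix (Fin n) (Fin n) ℂ)ˣ)
  (A₁ B₁ : Matrix (Fin n₁) (Fin n₁) ℂ) (A₂ B₂ : Matrix (Fin n₂) (Fin n₂) ℂ) (t : ℂ),
  A * B = B * A →
  Matrix.reindex e e ((Q⁻¹ : (Matrix (Fin n) (Fin n) ℂ)ˣ).val * A * Q.val) =
    Matrix.fromBlocks A₁ 0 0 A₂ →
  Matrix.reindex e e ((Q⁻¹ : (Matrix (Fin n) (Fin n) ℂ)ˣ).val * B * Q.val) =
    Matrix.fromBlocks B₁ 0 0 B₂ →
  IsCoprime (A₁ + t • B₁).charpoly (A₂ + t • B₂).charpoly →
  ∀ α β, (Cd A B α β → Cd A₁ B₁ α β ∧ Cd A₂ B₂ α β) ∧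
    (Cd Aᵀ Bᵀ α β → Cd A₁ᵀ B₁ᵀ α β ∧ Cd A₂ᵀ B₂ᵀ α β)

/-- **Dec.** The theorem.

Proof. Strong induction on `n`. `n = 0`: `comI = 0`. `n > 0`: take the data from Bas. `A₁ B₁ = B₁ A₁`, `A₂ B₂ = B₂ A₂`. By Cdb
the condition holds for both blocks, for all pairs. `gE A₁ B₁ α β = ⊤` (hence `gE A₁ᵀ B₁ᵀ α β = ⊤`, as `(A₁ - α)^N = 0`,
`(B₁ - β)^N = 0`), so the condition for `(α, β)` is that of NC and `Rd A₁ B₁`. `n₂ < n`, so `Rd A₂ B₂` by induction. Prd and
Cnj. -/
def St_Dec : Prop := ∀ (n : ℕ) (A B : Matrix (Fin n) (Fin n) ℂ), A * B = B * A →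
  (∀ α β : ℂ, Cd A B α β ∨ Cd Aᵀ Bᵀ α β) → Rd A B

end Pool.Agent.ANC
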