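import Mathlib
import Pool.Agent.ANC.St

/-!
PrB: block decomposition of a commuting pair over a local ring.
-/

namespace Pool.Agent.ANC.PB

open Polynomial Matrix

/-- A polynomial in a block diagonal matrix. -/
theorem aeval_fb {R : Type} [CommRing R] {n m : ℕ} (a : Matrix (Fin n) (Fin n) R)
    (b : Matrix (Fin m) (Fin m) R) (p : R[X]) :
    aeval (fromBlocks a 0 0 b) p = fromBlocks (aeval a p) 0 0 (aeval b p) := by
  induction p using Polynomial.induction_on with
  | C c =>
    rw [aeval_C, aeval_C, aeval_C]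
    simp only [Algebra.algebraMap_eq_smul_one]
    rw [← fromBlocks_one, fromBlocks_smul, smul_zero, smul_zero]
  | add p q hp hq =>
    rw [map_add, map_add, map_add, hp, hq, fromBlocks_add, add_zero, add_zero]
  | monomial k c h =>
    rw [pow_succ, ← mul_assoc, map_mul, map_mul _ _ X, map_mul _ _ X, h, aeval_X, aeval_X, aeval_X,
      fromBlocks_multiply]
    simp

/-- A polynomial in a matrix and a change of the ring. -/
theorem map_aeval {R S : Type} [CommRing R] [CommRing S] (f : R →+* S) {ι : Type} [Fintype ι] [DecidableEq ι]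
    (a : Matrix ι ι R) (p : R[X]) :
    (aeval a p).map f = aeval (a.map f) (p.map f) := by
  have h := Polynomial.hom_eval₂ p (algebraMap R (Matrix ι ι R)) f.mapMatrix a
  rw [aeval_def, aeval_def, eval₂_map]
  have h2 : (f.mapMatrix : Matrix ι ι R →+* Matrix ι ι S).comp (algebraMap R (Matrix ι ι R)) =
      (algebraMap S (Matrix ι ι S)).comp f := by
    ext c i j
    simp only [RingHom.comp_apply, RingHom.mapMatrix_apply, Matrix.map_apply, algebraMap_matrix_apply]
    split_ifs <;> simp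
  rw [h2] at h
  exact h

/-- Commuting with a polynomial. -/
theorem comm_aeval {R : Type} [CommRing R] {ι : Type} [Fintype ι] [DecidableEq ι]
    {a z : Matrix ι ι R} (h : a * z = z * a) (p : R[X]) : a * aeval z p = aeval z p * a := by
  induction p using Polynomial.induction_on with
  | C c => rw [aeval_C]; exact (Algebra.commutes c a).symm
  | add p q hp hq => rw [map_add, mul_add, add_mul, hp, hq]
  | monomial k c h2 =>
    rw [pow_succ, ← mul_assoc, map_mul, aeval_X, ← mul_assoc, h2, mul_assoc, h, ← mul_assoc]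

/-- Block diagonal: commuting with the projection to the first block. -/
theorem bd_of_comm {R : Type} [CommRing R] {n m : ℕ} (w : Matrix (Fin n ⊕ Fin m) (Fin n ⊕ Fin m) R)
    (h : w * fromBlocks 1 0 0 0 = fromBlocks 1 0 0 0 * w) :
    w = fromBlocks w.toBlocks₁₁ 0 0 w.toBlocks₂₂ := by
  have h1 := fromBlocks_toBlocks w
  rw [← h1] at h
  rw [fromBlocks_multiply, fromBlocks_multiply] at h
  simp only [Matrix.mul_one, Matrix.mul_zero, add_zero, Matrix.one_mul, Matrix.zero_mul] at h
  rw [fromBlocks_inj] at h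
  obtain ⟨-, h12, h21, -⟩ := h
  conv_lhs => rw [← h1]
  rw [h21, ← h12]

end Pool.Agent.ANC.PB

namespace Pool.Agent.ANC

open Polynomial Matrix PB

theorem thm_PrB : St_PrB := by
  intro T _ _ _ n₁ n₂ A₁ B₁ A₂ B₂ t hAB₁ hAB₂ hcop x y r hxy hx hy hchar
  classical
  set res : T →+* IsLocalRing.ResidueField T := IsLocalRing.residue T with hres
  set κ : ℂ →+* IsLocalRing.ResidueField T := res.comp (algebraMap ℂ T) with hκ
  have hzero : ∀ a b : T, a - b ∈ IsLocalRing.maximalIdeal T → res a = res b := by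
    intro a b h
    have := (IsLocalRing.residue_eq_zero_iff (a - b)).2 h
    rw [map_sub, sub_eq_zero] at this
    exact this
  have hzero' : ∀ a b : T, res a = res b → a - b ∈ IsLocalRing.maximalIdeal T := by
    intro a b h
    rw [← IsLocalRing.residue_eq_zero_iff, map_sub, sub_eq_zero]
    exact h
  have hfb : ∀ (a : Matrix (Fin n₁) (Fin n₁) ℂ) (b : Matrix (Fin n₂) (Fin n₂) ℂ),
      (fromBlocks a 0 0 b).map κ = fromBlocks (a.map κ) 0 0 (b.map κ) := by
    intro a b
    rw [fromBlocks_map]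
    congr 1 <;> (ext i j; simp)
  have hxr : x.map res = fromBlocks (A₁.map κ) 0 0 (A₂.map κ) := by
    rw [← hfb]
    ext i j
    simp only [Matrix.map_apply]
    exact hzero _ _ (hx i j)
  have hyr : y.map res = fromBlocks (B₁.map κ) 0 0 (B₂.map κ) := by
    rw [← hfb]
    ext i j
    simp only [Matrix.map_apply]
    exact hzero _ _ (hy i j)
  set z := x + t • y with hz
  have hsm : ∀ {n m : ℕ} (a : Matrix (Fin n) (Fin m) ℂ), (t • a).map κ = κ t • a.map κ := by
    intro n m a
    ext i j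
    simp
  have hzr : z.map res = fromBlocks ((A₁ + t • B₁).map κ) 0 0 ((A₂ + t • B₂).map κ) := by
    rw [← hfb]
    ext i j
    have h1 := congrFun (congrFun hxr i) j
    have h2 := congrFun (congrFun hyr i) j
    rw [← hfb] at h1 h2
    simp only [Matrix.map_apply] at h1 h2
    have h3 : z i j = x i j + algebraMap ℂ T t * y i j := by
      rw [hz, Matrix.add_apply, Matrix.smul_apply, Algebra.smul_def]
    rw [Matrix.map_apply, h3, map_add, map_mul, h1, h2]
    have h4 : (fromBlocks (A₁ + t • B₁) 0 0 (A₂ + t • B₂)) i j =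
        (fromBlocks A₁ 0 0 A₂) i j + t * (fromBlocks B₁ 0 0 B₂) i j := by
      rcases i with i | i <;> rcases j with j | j <;> simp
    rw [Matrix.map_apply, h4, map_add, map_mul]
    rfl
  -- the two polynomials over the residue field
  set P₁ := (A₁ + t • B₁).charpoly.map κ with hP₁
  set P₂ := (A₂ + t • B₂).charpoly.map κ with hP₂
  have hPc : IsCoprime P₁ P₂ := hcop.map (mapRingHom κ)
  have hPP : P₁ * P₂ = ∏ i, (X - C (res (r i))) := by
    have h1 : (z.map res).charpoly = P₁ * P₂ := by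
      rw [hzr, charpoly_fromBlocks_zero₁₂, Matrix.charpoly_map, Matrix.charpoly_map]
    rw [← h1, Matrix.charpoly_map, hchar, Polynomial.map_prod]
    simp
  set I₁ : Finset (Fin (n₁ + n₂)) := Finset.univ.filter (fun i => P₁.eval (res (r i)) = 0) with hI₁
  set χ₁ : T[X] := ∏ i ∈ I₁, (X - C (r i)) with hχ₁
  set χ₂ : T[X] := ∏ i ∈ I₁ᶜ, (X - C (r i)) with hχ₂
  have hχχ : χ₁ * χ₂ = z.charpoly := by
    rw [hchar, hχ₁, hχ₂, Finset.prod_mul_prod_compl]
  have hcoχ : IsCoprime χ₁ χ₂ := by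
    refine IsCoprime.prod_left (fun i hi => IsCoprime.prod_right (fun j hj => ?_))
    refine isCoprime_X_sub_C_of_isUnit_sub ?_
    rw [hI₁, Finset.mem_filter] at hi
    rw [Finset.mem_compl, hI₁, Finset.mem_filter] at hj
    by_contra hu
    have hm : r i - r j ∈ IsLocalRing.maximalIdeal T := (IsLocalRing.mem_maximalIdeal _).2 hu
    have := hzero _ _ hm
    apply hj
    refine ⟨Finset.mem_univ _, ?_⟩
    rw [← this]
    exact hi.2
  obtain ⟨u, w, huw⟩ := hcoχ
  have hCH : aeval z χ₁ * aeval z χ₂ = 0 := by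
    rw [← map_mul, hχχ]
    exact Matrix.aeval_self_charpoly z
  have hCH' : aeval z χ₂ * aeval z χ₁ = 0 := by
    rw [← map_mul, mul_comm, hχχ]
    exact Matrix.aeval_self_charpoly z
  -- the projection
  set e₁ := aeval z (w * χ₂) with he₁
  have he₁χ₂ : e₁ * aeval z χ₂ = aeval z χ₂ := by
    have h1 : w * χ₂ * χ₂ = χ₂ - u * (χ₁ * χ₂) := by
      have : w * χ₂ = 1 - u * χ₁ := by rw [← huw]; ring
      rw [this]; ring
    rw [he₁, ← map_mul, h1, map_sub, map_mul, map_mul, hCH, mul_zero, sub_zero]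
  have he₁χ₁ : e₁ * aeval z χ₁ = 0 := by
    rw [he₁, map_mul, mul_assoc, hCH', mul_zero]
  set E₁ : Matrix (Fin n₁ ⊕ Fin n₂) (Fin n₁ ⊕ Fin n₂) T := fromBlocks 1 0 0 0 with hE₁
  set E₂ : Matrix (Fin n₁ ⊕ Fin n₂) (Fin n₁ ⊕ Fin n₂) T := fromBlocks 0 0 0 1 with hE₂
  have hE11 : E₁ * E₁ = E₁ := by rw [hE₁, fromBlocks_multiply]; simp
  have hE21 : E₂ * E₁ = 0 := by rw [hE₁, hE₂, fromBlocks_multiply]; simp
  set G := aeval z χ₂ * E₁ + aeval z χ₁ * E₂ with hG
  have heG : e₁ * G = G * E₁ := by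
    rw [hG, mul_add, ← mul_assoc, ← mul_assoc, he₁χ₂, he₁χ₁, zero_mul, add_zero, add_mul, mul_assoc,
      hE11, mul_assoc, hE21, mul_zero, add_zero]
  -- reduction of G
  set g₁ := aeval ((A₁ + t • B₁).map κ) (χ₂.map res) with hg₁
  set g₂ := aeval ((A₂ + t • B₂).map κ) (χ₁.map res) with hg₂
  have hGr : G.map res = fromBlocks g₁ 0 0 g₂ := by
    have h1 : G.map res = (aeval z χ₂).map res * E₁.map res + (aeval z χ₁).map res * E₂.map res := by
      rw [hG, Matrix.map_add _ (map_add res), Matrix.map_mul, Matrix.map_mul]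
    have h2 : E₁.map res = fromBlocks 1 0 0 0 := by
      rw [hE₁, fromBlocks_map]
      simp
    have h3 : E₂.map res = fromBlocks 0 0 0 1 := by
      rw [hE₂, fromBlocks_map]
      simp
    rw [h1, h2, h3, map_aeval, map_aeval, hzr, aeval_fb, aeval_fb, fromBlocks_multiply, fromBlocks_multiply,
      fromBlocks_add]
    simp [hg₁, hg₂]
  have hcp₁ : IsCoprime (χ₂.map res) P₁ := by
    rw [hχ₂, Polynomial.map_prod]
    refine IsCoprime.prod_left (fun i hi => ?_)
    rw [Finset.mem_compl, hI₁, Finset.mem_filter] at hi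
    simp only [Polynomial.map_sub, map_X, map_C]
    refine (irreducible_X_sub_C _).coprime_iff_not_dvd.2 (fun hd => hi ⟨Finset.mem_univ _, ?_⟩)
    exact dvd_iff_isRoot.1 hd
  have hcp₂ : IsCoprime (χ₁.map res) P₂ := by
    rw [hχ₁, Polynomial.map_prod]
    refine IsCoprime.prod_left (fun i hi => ?_)
    rw [hI₁, Finset.mem_filter] at hi
    simp only [Polynomial.map_sub, map_X, map_C]
    refine IsCoprime.of_isCoprime_of_dvd_left hPc ?_
    exact dvd_iff_isRoot.2 hi.2
  have hinv : ∀ {n : ℕ} (M : Matrix (Fin n) (Fin n) ℂ) (q : (IsLocalRing.ResidueField T)[X]),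
      IsCoprime q (M.charpoly.map κ) →
      ∃ v : Matrix (Fin n) (Fin n) (IsLocalRing.ResidueField T), v * aeval (M.map κ) q = 1 := by
    intro n M q ⟨a, b, hab⟩
    refine ⟨aeval (M.map κ) a, ?_⟩
    have h1 := congrArg (aeval (M.map κ)) hab
    rw [map_add, map_mul, map_mul, ← Matrix.charpoly_map, Matrix.aeval_self_charpoly, mul_zero, add_zero,
      map_one] at h1
    exact h1
  obtain ⟨v₁, hv₁⟩ := hinv _ _ hcp₁
  obtain ⟨v₂, hv₂⟩ := hinv _ _ hcp₂
  have hGu : IsUnit G := by
    rw [Matrix.isUnit_iff_isUnit_det]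
    have h1 : IsUnit (G.map res).det := by
      rw [← Matrix.isUnit_iff_isUnit_det]
      have h2 : fromBlocks v₁ 0 0 v₂ * G.map res = 1 := by
        rw [hGr, fromBlocks_multiply]
        simp only [Matrix.zero_mul, Matrix.mul_zero, add_zero, zero_add]
        rw [hg₁, hg₂, hv₁, hv₂, fromBlocks_one]
      exact IsUnit.of_mul_eq_one_right _ h2
    have h3 : (G.map res).det = res G.det := by
      rw [RingHom.map_det]; rfl
    rw [h3] at h1
    exact (isUnit_map_iff res _).1 h1
  obtain ⟨Gu, hGu'⟩ := hGu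
  set H : Matrix (Fin n₁ ⊕ Fin n₂) (Fin n₁ ⊕ Fin n₂) T := ↑Gu⁻¹ with hH
  have hGH : G * H = 1 := by rw [← hGu', hH]; exact Gu.mul_inv
  have hHG : H * G = 1 := by rw [← hGu', hH]; exact Gu.inv_mul
  have hHeG : H * e₁ * G = E₁ := by rw [mul_assoc, heG, ← mul_assoc, hHG, one_mul]
  -- a matrix commuting with z
  have hkey : ∀ a : Matrix (Fin n₁ ⊕ Fin n₂) (Fin n₁ ⊕ Fin n₂) T, a * z = z * a →
      H * a * G = fromBlocks (H * a * G).toBlocks₁₁ 0 0 (H * a * G).toBlocks₂₂ := by
    intro a ha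
    apply bd_of_comm
    have hc : a * e₁ = e₁ * a := by
      rw [he₁]
      exact comm_aeval ha _
    rw [← hE₁, ← hHeG]
    calc H * a * G * (H * e₁ * G) = H * (a * (G * H) * e₁) * G := by simp only [mul_assoc]
      _ = H * (e₁ * a) * G := by rw [hGH, mul_one, hc]
      _ = H * (e₁ * (G * H) * a) * G := by rw [hGH, mul_one]
      _ = H * e₁ * G * (H * a * G) := by simp only [mul_assoc]
  have hxz : x * z = z * x := by
    rw [hz, mul_add, add_mul, mul_smul_comm, smul_mul_assoc, hxy]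
  have hyz : y * z = z * y := by
    rw [hz, mul_add, add_mul, mul_smul_comm, smul_mul_assoc, hxy]
  have hX := hkey x hxz
  have hY := hkey y hyz
  have hXY : (H * x * G) * (H * y * G) = (H * y * G) * (H * x * G) := by
    calc (H * x * G) * (H * y * G) = H * (x * (G * H) * y) * G := by simp only [mul_assoc]
      _ = H * (y * (G * H) * x) * G := by rw [hGH, mul_one, mul_one, hxy]
      _ = _ := by simp only [mul_assoc]
  have hXY2 := hXY
  rw [hX, hY, fromBlocks_multiply, fromBlocks_multiply] at hXY2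
  simp only [Matrix.zero_mul, Matrix.mul_zero, add_zero, zero_add] at hXY2
  rw [fromBlocks_inj] at hXY2
  have hback : ∀ a : Matrix (Fin n₁ ⊕ Fin n₂) (Fin n₁ ⊕ Fin n₂) T, a = G * (H * a * G) * H := by
    intro a
    calc a = 1 * a * 1 := by simp
      _ = (G * H) * a * (G * H) := by rw [hGH]
      _ = _ := by simp only [mul_assoc]
  -- reductions
  have hred : ∀ (a : Matrix (Fin n₁ ⊕ Fin n₂) (Fin n₁ ⊕ Fin n₂) T) (a₁ : Matrix (Fin n₁) (Fin n₁) ℂ)
      (a₂ : Matrix (Fin n₂) (Fin n₂) ℂ), a.map res = fromBlocks (a₁.map κ) 0 0 (a₂.map κ) →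
      a₁ * (A₁ + t • B₁) = (A₁ + t • B₁) * a₁ → a₂ * (A₂ + t • B₂) = (A₂ + t • B₂) * a₂ →
      a * z = z * a →
      (H * a * G).toBlocks₁₁.map res = a₁.map κ ∧ (H * a * G).toBlocks₂₂.map res = a₂.map κ := by
    intro a a₁ a₂ har h1 h2 haz
    have h3 : a * G = G * (H * a * G) := by
      rw [← mul_assoc, ← mul_assoc, hGH, one_mul]
    rw [hkey a haz] at h3
    have h4 := congrArg (fun M : Matrix (Fin n₁ ⊕ Fin n₂) (Fin n₁ ⊕ Fin n₂) T => M.map res) h3
    simp only [Matrix.map_mul] at h4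
    rw [har, hGr, fromBlocks_map, fromBlocks_multiply, fromBlocks_multiply] at h4
    have h0 : (0 : Matrix (Fin n₁) (Fin n₂) T).map res = 0 := by ext; simp
    have h0' : (0 : Matrix (Fin n₂) (Fin n₁) T).map res = 0 := by ext; simp
    rw [h0, h0'] at h4
    simp only [Matrix.zero_mul, Matrix.mul_zero, add_zero, zero_add] at h4
    rw [fromBlocks_inj] at h4
    obtain ⟨h5, -, -, h6⟩ := h4
    have hc1 : a₁.map κ * g₁ = g₁ * a₁.map κ := by
      rw [hg₁]
      refine comm_aeval ?_ _
      rw [← Matrix.map_mul, h1, Matrix.map_mul]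
    have hc2 : a₂.map κ * g₂ = g₂ * a₂.map κ := by
      rw [hg₂]
      refine comm_aeval ?_ _
      rw [← Matrix.map_mul, h2, Matrix.map_mul]
    rw [hc1] at h5
    rw [hc2] at h6
    constructor
    · have := congrArg (fun M => v₁ * M) h5
      simp only [← mul_assoc] at this
      rw [hg₁, hv₁, one_mul, one_mul] at this
      exact this.symm
    · have := congrArg (fun M => v₂ * M) h6
      simp only [← mul_assoc] at this
      rw [hg₂, hv₂, one_mul, one_mul] at this
      exact this.symm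
  have hrx := hred x A₁ A₂ hxr (by rw [mul_add, add_mul, mul_smul_comm, smul_mul_assoc, hAB₁])
    (by rw [mul_add, add_mul, mul_smul_comm, smul_mul_assoc, hAB₂]) hxz
  have hry := hred y B₁ B₂ hyr (by rw [mul_add, add_mul, mul_smul_comm, smul_mul_assoc, hAB₁])
    (by rw [mul_add, add_mul, mul_smul_comm, smul_mul_assoc, hAB₂]) hyz
  refine ⟨G, H, (H * x * G).toBlocks₁₁, (H * y * G).toBlocks₁₁, (H * x * G).toBlocks₂₂,
    (H * y * G).toBlocks₂₂, hGH, hXY2.1, hXY2.2.2.2, ?_, ?_, ?_, ?_, ?_, ?_⟩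
  · rw [← hX]; exact hback x
  · rw [← hY]; exact hback y
  · intro s s'
    exact hzero' _ _ (congrFun (congrFun hrx.1 s) s')
  · intro s s'
    exact hzero' _ _ (congrFun (congrFun hry.1 s) s')
  · intro s s'
    exact hzero' _ _ (congrFun (congrFun hrx.2 s) s')
  · intro s s'
    exact hzero' _ _ (congrFun (congrFun hry.2 s) s')

end Pool.Agent.ANC
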