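import Pool.Agent.ANC.St
import Pool.Agent.CTR.Spl
import Pool.Agent.CTR.GL

/-!
# ANC, module Prd (helper37): direct sums
-/

set_option autoImplicit false

noncomputable section

namespace Pool.Agent.ANC

open Matrix Pool.Agent.CTR

/-- evaluation and homomorphisms -/
theorem prd_ev_map {ι S S' : Type} [CommRing S] [Algebra ℂ S] [CommRing S'] [Algebra ℂ S']
    (ψ : S →+* S') (hψ : ∀ c : ℂ, ψ (algebraMap ℂ S c) = algebraMap ℂ S' c) (A B : Matrix ι ι S)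
    (f : Rg ι ℂ) : ψ (ev A B f) = ev (A.map ψ) (B.map ψ) f := by
  have h : ψ.comp (ev A B : Rg ι ℂ →ₐ[ℂ] S).toRingHom =
      (ev (A.map ψ) (B.map ψ) : Rg ι ℂ →ₐ[ℂ] S').toRingHom := by
    refine MvPolynomial.ringHom_ext (fun c => ?_) (fun v => ?_)
    · show ψ (ev A B (algebraMap ℂ (Rg ι ℂ) c)) = ev (A.map ψ) (B.map ψ) (algebraMap ℂ (Rg ι ℂ) c)
      rw [AlgHom.commutes, AlgHom.commutes, hψ]
    · show ψ (ev A B (MvPolynomial.X v)) = ev (A.map ψ) (B.map ψ) (MvPolynomial.X v)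
      unfold ev
      rw [MvPolynomial.aeval_X, MvPolynomial.aeval_X]
      split_ifs <;> rfl
  exact RingHom.congr_fun h f

theorem prd_ev_kill {ι S : Type} [Fintype ι] [CommRing S] [Algebra ℂ S] (A B : Matrix ι ι S)
    (hAB : A * B = B * A) {f : Rg ι ℂ} (hf : f ∈ comI ι ℂ) : ev A B f = 0 := by
  have h := gl_le (ev A B : Rg ι ℂ →ₐ[ℂ] S) (⊥ : Ideal S) (by
    rw [gl_ev_X, gl_ev_Y, ← Matrix.map_mul, ← Matrix.map_mul, hAB])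
  have h1 := h hf
  rwa [Ideal.mem_comap, Ideal.mem_bot] at h1

/-- the variables -/
abbrev prd_V (n₁ n₂ : ℕ) := ((Fin n₁ ⊕ Fin n₂) × (Fin n₁ ⊕ Fin n₂)) ⊕
  ((Fin 2 × Fin n₁ × Fin n₁) ⊕ (Fin 2 × Fin n₂ × Fin n₂))

/-- first block -/
def prd_r₁ (n₁ n₂ : ℕ) : Rg (Fin n₁) ℂ →ₐ[ℂ] MvPolynomial (prd_V n₁ n₂) ℂ :=
  MvPolynomial.rename (fun s => Sum.inr (Sum.inl s))

/-- second block -/
def prd_r₂ (n₁ n₂ : ℕ) : Rg (Fin n₂) ℂ →ₐ[ℂ] MvPolynomial (prd_V n₁ n₂) ℂ :=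
  MvPolynomial.rename (fun s => Sum.inr (Sum.inr s))

/-- the ideal -/
def prd_I (n₁ n₂ : ℕ) : Ideal (MvPolynomial (prd_V n₁ n₂) ℂ) :=
  (comI (Fin n₁) ℂ).map (prd_r₁ n₁ n₂) ⊔ (comI (Fin n₂) ℂ).map (prd_r₂ n₁ n₂)

/-- the matrix `g` -/
def prd_g (n₁ n₂ : ℕ) : Matrix (Fin n₁ ⊕ Fin n₂) (Fin n₁ ⊕ Fin n₂)
    (MvPolynomial (prd_V n₁ n₂) ℂ) := fun i j => MvPolynomial.X (Sum.inl (i, j))

/-- coordinates -/
def prd_co {ι S : Type} (A B : Matrix ι ι S) : Fin 2 × ι × ι → S :=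
  fun v => if v.1 = 0 then A v.2.1 v.2.2 else B v.2.1 v.2.2

/-- the evaluation -/
def prd_th {n₁ n₂ : ℕ} {T : Type} [CommRing T] [Algebra ℂ T]
    (G : Matrix (Fin n₁ ⊕ Fin n₂) (Fin n₁ ⊕ Fin n₂) T) (x₁ y₁ : Matrix (Fin n₁) (Fin n₁) T)
    (x₂ y₂ : Matrix (Fin n₂) (Fin n₂) T) : MvPolynomial (prd_V n₁ n₂) ℂ →ₐ[ℂ] T :=
  MvPolynomial.aeval (Sum.elim (fun p => G p.1 p.2) (Sum.elim (prd_co x₁ y₁) (prd_co x₂ y₂)))

section th

variable {n₁ n₂ : ℕ} {T : Type} [CommRing T] [Algebra ℂ T]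
  (G : Matrix (Fin n₁ ⊕ Fin n₂) (Fin n₁ ⊕ Fin n₂) T) (x₁ y₁ : Matrix (Fin n₁) (Fin n₁) T)
  (x₂ y₂ : Matrix (Fin n₂) (Fin n₂) T)

theorem prd_th₁ (a : Rg (Fin n₁) ℂ) : prd_th G x₁ y₁ x₂ y₂ (prd_r₁ n₁ n₂ a) = ev x₁ y₁ a := by
  unfold prd_th prd_r₁ ev
  rw [MvPolynomial.aeval_rename]
  rfl

theorem prd_th₂ (a : Rg (Fin n₂) ℂ) : prd_th G x₁ y₁ x₂ y₂ (prd_r₂ n₁ n₂ a) = ev x₂ y₂ a := by
  unfold prd_th prd_r₂ ev
  rw [MvPolynomial.aeval_rename]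
  rfl

theorem prd_thg : (prd_g n₁ n₂).map (prd_th G x₁ y₁ x₂ y₂) = G := by
  ext i j
  unfold prd_th prd_g
  rw [Matrix.map_apply, MvPolynomial.aeval_X]
  rfl

theorem prd_thI (h₁ : x₁ * y₁ = y₁ * x₁) (h₂ : x₂ * y₂ = y₂ * x₂)
    {F : MvPolynomial (prd_V n₁ n₂) ℂ} (hF : F ∈ prd_I n₁ n₂) :
    prd_th G x₁ y₁ x₂ y₂ F = 0 := by
  have h : prd_I n₁ n₂ ≤ RingHom.ker (prd_th G x₁ y₁ x₂ y₂) := by
    unfold prd_I
    refine sup_le (Ideal.map_le_iff_le_comap.mpr fun a ha => ?_)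
      (Ideal.map_le_iff_le_comap.mpr fun a ha => ?_)
    · rw [Ideal.mem_comap, RingHom.mem_ker, prd_th₁]
      exact prd_ev_kill _ _ h₁ ha
    · rw [Ideal.mem_comap, RingHom.mem_ker, prd_th₂]
      exact prd_ev_kill _ _ h₂ ha
  exact h hF

end th

theorem prd_eval {ι : Type} (A B : Matrix ι ι ℂ) (g : Rg ι ℂ) :
    MvPolynomial.eval (prd_co A B) g = ev A B g := by
  unfold ev
  rw [← MvPolynomial.coe_aeval_eq_eval]
  rfl

/-- The polynomials. -/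
theorem prd_pol (hPrT : St_PrT) {n₁ n₂ : ℕ} {A₁ B₁ : Matrix (Fin n₁) (Fin n₁) ℂ}
    {A₂ B₂ : Matrix (Fin n₂) (Fin n₂) ℂ} (h₁ : Rd A₁ B₁) (h₂ : Rd A₂ B₂)
    (f : Rg (Fin n₁ ⊕ Fin n₂) ℂ) (m : ℕ) (hf : f ^ m ∈ comI (Fin n₁ ⊕ Fin n₂) ℂ) :
    ∃ (a : Rg (Fin n₁) ℂ) (b : Rg (Fin n₂) ℂ), ev A₁ B₁ a ≠ 0 ∧ ev A₂ B₂ b ≠ 0 ∧
      ∀ (T : Type) [CommRing T] [Algebra ℂ T]
        (G H : Matrix (Fin n₁ ⊕ Fin n₂) (Fin n₁ ⊕ Fin n₂) T) (x₁ y₁ : Matrix (Fin n₁) (Fin n₁) T)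
        (x₂ y₂ : Matrix (Fin n₂) (Fin n₂) T), G * H = 1 → x₁ * y₁ = y₁ * x₁ → x₂ * y₂ = y₂ * x₂ →
        ev x₁ y₁ a * ev x₂ y₂ b * ev (G * Matrix.fromBlocks x₁ 0 0 x₂ * H)
          (G * Matrix.fromBlocks y₁ 0 0 y₂ * H) f = 0 := by
  classical
  obtain ⟨δ, hδ⟩ : ∃ δ, δ = (prd_g n₁ n₂).det := ⟨_, rfl⟩
  let L := Localization.Away δ
  let φ : MvPolynomial (prd_V n₁ n₂) ℂ →+* L := algebraMap _ L
  have hφ : ∀ c : ℂ, φ (algebraMap ℂ _ c) = algebraMap ℂ L c := fun c =>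
    (IsScalarTower.algebraMap_apply ℂ (MvPolynomial (prd_V n₁ n₂) ℂ) L c).symm
  obtain ⟨gL, hgL⟩ : ∃ gL, gL = (prd_g n₁ n₂).map φ := ⟨_, rfl⟩
  have hu : IsUnit gL.det := by
    have e : gL.det = φ δ := by
      have e1 : φ (prd_g n₁ n₂).det = ((prd_g n₁ n₂).map φ).det := RingHom.map_det φ _
      rw [hgL, ← e1]
      exact congrArg φ hδ.symm
    rw [e]
    exact IsLocalization.Away.algebraMap_isUnit δ
  have hgi : gL * gL⁻¹ = 1 := Matrix.mul_nonsing_inv _ hu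
  have hgi' : gL⁻¹ * gL = 1 := Matrix.nonsing_inv_mul _ hu
  obtain ⟨X₁, hX₁⟩ : ∃ X₁, X₁ = (mX (Fin n₁) ℂ).map (φ.comp (prd_r₁ n₁ n₂).toRingHom) := ⟨_, rfl⟩
  obtain ⟨Y₁, hY₁⟩ : ∃ Y₁, Y₁ = (mY (Fin n₁) ℂ).map (φ.comp (prd_r₁ n₁ n₂).toRingHom) := ⟨_, rfl⟩
  obtain ⟨X₂, hX₂⟩ : ∃ X₂, X₂ = (mX (Fin n₂) ℂ).map (φ.comp (prd_r₂ n₁ n₂).toRingHom) := ⟨_, rfl⟩
  obtain ⟨Y₂, hY₂⟩ : ∃ Y₂, Y₂ = (mY (Fin n₂) ℂ).map (φ.comp (prd_r₂ n₁ n₂).toRingHom) := ⟨_, rfl⟩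
  obtain ⟨Ψ, hΨ⟩ : ∃ Ψ : Rg (Fin n₁ ⊕ Fin n₂) ℂ →ₐ[ℂ] L, Ψ =
    ev (gL * Matrix.fromBlocks X₁ 0 0 X₂ * gL⁻¹) (gL * Matrix.fromBlocks Y₁ 0 0 Y₂ * gL⁻¹) :=
    ⟨_, rfl⟩
  -- the ideal
  have hle : comI (Fin n₁ ⊕ Fin n₂) ℂ ≤ ((prd_I n₁ n₂).map φ).comap Ψ := by
    obtain ⟨q, hq⟩ : ∃ q, q = Ideal.Quotient.mk ((prd_I n₁ n₂).map φ) := ⟨_, rfl⟩
    have hc₁ : X₁.map q * Y₁.map q = Y₁.map q * X₁.map q := by
      rw [hX₁, hY₁, ← Matrix.map_mul, ← Matrix.map_mul, ← Matrix.map_mul, ← Matrix.map_mul]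
      ext i j
      simp only [Matrix.map_apply]
      rw [← sub_eq_zero, ← map_sub, ← map_sub, hq, Ideal.Quotient.eq_zero_iff_mem]
      refine Ideal.mem_map_of_mem φ (Ideal.mem_sup_left (Ideal.mem_map_of_mem (prd_r₁ n₁ n₂) ?_))
      exact Ideal.subset_span ⟨i, j, rfl⟩
    have hc₂ : X₂.map q * Y₂.map q = Y₂.map q * X₂.map q := by
      rw [hX₂, hY₂, ← Matrix.map_mul, ← Matrix.map_mul, ← Matrix.map_mul, ← Matrix.map_mul]
      ext i j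
      simp only [Matrix.map_apply]
      rw [← sub_eq_zero, ← map_sub, ← map_sub, hq, Ideal.Quotient.eq_zero_iff_mem]
      refine Ideal.mem_map_of_mem φ (Ideal.mem_sup_right (Ideal.mem_map_of_mem (prd_r₂ n₁ n₂) ?_))
      exact Ideal.subset_span ⟨i, j, rfl⟩
    have hgq : gL⁻¹.map q * gL.map q = 1 := by
      rw [← Matrix.map_mul, hgi', Matrix.map_one q (map_zero q) (map_one q)]
    refine gl_le Ψ _ ?_
    rw [hΨ, gl_ev_X, gl_ev_Y, ← hq]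
    simp only [Matrix.map_mul, Matrix.fromBlocks_map]
    have hz : ∀ (a b : Type), ((0 : Matrix a b L).map q) = 0 := by
      intro a b
      ext i j
      simp
    rw [hz, hz]
    have e : ∀ (D E : Matrix (Fin n₁ ⊕ Fin n₂) (Fin n₁ ⊕ Fin n₂) (L ⧸ (prd_I n₁ n₂).map φ)),
        gL.map q * D * gL⁻¹.map q * (gL.map q * E * gL⁻¹.map q) =
          gL.map q * (D * E) * gL⁻¹.map q := by
      intro D E
      calc gL.map q * D * gL⁻¹.map q * (gL.map q * E * gL⁻¹.map q)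
          = gL.map q * D * (gL⁻¹.map q * gL.map q) * E * gL⁻¹.map q := by
            simp only [Matrix.mul_assoc]
        _ = _ := by
            rw [hgq, Matrix.mul_one]
            simp only [Matrix.mul_assoc]
    rw [e, e]
    congr 2
    rw [Matrix.fromBlocks_multiply, Matrix.fromBlocks_multiply]
    simp only [Matrix.mul_zero, Matrix.zero_mul, add_zero, zero_add]
    rw [hc₁, hc₂]
  have hΨf : Ψ f ^ m ∈ (prd_I n₁ n₂).map φ := by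
    rw [← map_pow]
    exact hle hf
  -- clearing denominators
  obtain ⟨⟨F, s⟩, hs⟩ := IsLocalization.surj (Submonoid.powers δ) (Ψ f)
  have hs' : Ψ f * φ s = φ F := hs
  have hFm : φ (F ^ m) ∈ (prd_I n₁ n₂).map φ := by
    rw [map_pow, ← hs', mul_pow]
    exact Ideal.mul_mem_right _ _ hΨf
  obtain ⟨w, hw, hwF⟩ : ∃ w ∈ Submonoid.powers δ, w * F ^ m ∈ prd_I n₁ n₂ :=
    (IsLocalization.algebraMap_mem_map_algebraMap_iff (Submonoid.powers δ) L _ _).mp hFm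
  have hF' : (w * F) ^ (m + 1) ∈ prd_I n₁ n₂ := by
    have e : (w * F) ^ (m + 1) = (w ^ m * F) * (w * F ^ m) := by ring
    rw [e]
    exact Ideal.mul_mem_left _ _ hwF
  obtain ⟨a, b, ha, hb, hab⟩ := hPrT ((Fin n₁ ⊕ Fin n₂) × (Fin n₁ ⊕ Fin n₂))
    (Fin 2 × Fin n₁ × Fin n₁) (Fin 2 × Fin n₂ × Fin n₂) (comI (Fin n₁) ℂ) (comI (Fin n₂) ℂ)
    (prd_co A₁ B₁) (prd_co A₂ B₂)
    (fun f hf => by
      obtain ⟨g, hg1, hg2⟩ := h₁ f hf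
      exact ⟨g, by rwa [prd_eval], hg2⟩)
    (fun f hf => by
      obtain ⟨g, hg1, hg2⟩ := h₂ f hf
      exact ⟨g, by rwa [prd_eval], hg2⟩) (w * F) ⟨m + 1, hF'⟩
  rw [prd_eval] at ha hb
  refine ⟨a, b, ha, hb, ?_⟩
  intro T _ _ G H x₁ y₁ x₂ y₂ hGH hc₁ hc₂
  have hHG : H * G = 1 := mul_eq_one_comm.mp hGH
  obtain ⟨θ, hθ⟩ : ∃ θ, θ = prd_th G x₁ y₁ x₂ y₂ := ⟨_, rfl⟩
  have h3 : θ (prd_r₁ n₁ n₂ a * prd_r₂ n₁ n₂ b * (w * F)) = 0 := by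
    rw [hθ]
    exact prd_thI G x₁ y₁ x₂ y₂ hc₁ hc₂ hab
  rw [map_mul, map_mul, map_mul, hθ, prd_th₁, prd_th₂, ← hθ] at h3
  have hδu : IsUnit (θ δ) := by
    have e : θ δ = G.det := by
      rw [hδ, AlgHom.map_det, hθ]
      exact congrArg Matrix.det (prd_thg G x₁ y₁ x₂ y₂)
    rw [e]
    exact (Matrix.isUnit_iff_isUnit_det G).mp ⟨⟨G, H, hGH, hHG⟩, rfl⟩
  have hpow : ∀ z ∈ Submonoid.powers δ, IsUnit (θ z) := by
    rintro z ⟨k, rfl⟩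
    rw [map_pow]
    exact hδu.pow k
  obtain ⟨θ', hθ'⟩ : ∃ θ' : L →+* T, ∀ z, θ' (φ z) = θ z :=
    ⟨IsLocalization.Away.lift (g := (θ : MvPolynomial (prd_V n₁ n₂) ℂ →+* T)) δ hδu,
      fun z => IsLocalization.Away.lift_eq δ hδu z⟩
  have hθc : ∀ c : ℂ, θ' (algebraMap ℂ L c) = algebraMap ℂ T c := by
    intro c
    rw [← hφ, hθ']
    exact θ.commutes c
  have hgG : gL.map θ' = G := by
    rw [hgL]
    ext i j
    rw [Matrix.map_apply, Matrix.map_apply, hθ']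
    have e := congrFun (congrFun (prd_thg G x₁ y₁ x₂ y₂) i) j
    rw [hθ]
    exact e
  have hgH : gL⁻¹.map θ' = H := by
    have e1 : gL.map θ' * gL⁻¹.map θ' = 1 := by
      rw [← Matrix.map_mul, hgi, Matrix.map_one θ' (map_zero θ') (map_one θ')]
    rw [hgG] at e1
    calc gL⁻¹.map θ' = (H * G) * gL⁻¹.map θ' := by rw [hHG, Matrix.one_mul]
      _ = H * (G * gL⁻¹.map θ') := Matrix.mul_assoc _ _ _
      _ = H := by rw [e1, Matrix.mul_one]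
  have hX₁' : X₁.map θ' = x₁ := by
    rw [hX₁]
    ext i j
    rw [Matrix.map_apply, Matrix.map_apply]
    show θ' (φ (prd_r₁ n₁ n₂ (mX (Fin n₁) ℂ i j))) = x₁ i j
    rw [hθ', hθ, prd_th₁]
    exact congrFun (congrFun (gl_ev_X (k := ℂ) x₁ y₁) i) j
  have hY₁' : Y₁.map θ' = y₁ := by
    rw [hY₁]
    ext i j
    rw [Matrix.map_apply, Matrix.map_apply]
    show θ' (φ (prd_r₁ n₁ n₂ (mY (Fin n₁) ℂ i j))) = y₁ i j
    rw [hθ', hθ, prd_th₁]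
    exact congrFun (congrFun (gl_ev_Y (k := ℂ) x₁ y₁) i) j
  have hX₂' : X₂.map θ' = x₂ := by
    rw [hX₂]
    ext i j
    rw [Matrix.map_apply, Matrix.map_apply]
    show θ' (φ (prd_r₂ n₁ n₂ (mX (Fin n₂) ℂ i j))) = x₂ i j
    rw [hθ', hθ, prd_th₂]
    exact congrFun (congrFun (gl_ev_X (k := ℂ) x₂ y₂) i) j
  have hY₂' : Y₂.map θ' = y₂ := by
    rw [hY₂]
    ext i j
    rw [Matrix.map_apply, Matrix.map_apply]
    show θ' (φ (prd_r₂ n₁ n₂ (mY (Fin n₂) ℂ i j))) = y₂ i j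
    rw [hθ', hθ, prd_th₂]
    exact congrFun (congrFun (gl_ev_Y (k := ℂ) x₂ y₂) i) j
  have hz : ∀ (a b : Type), ((0 : Matrix a b L).map θ') = 0 := by
    intro a b
    ext i j
    simp
  have h4 : ev (G * Matrix.fromBlocks x₁ 0 0 x₂ * H) (G * Matrix.fromBlocks y₁ 0 0 y₂ * H) f =
      θ' (Ψ f) := by
    rw [hΨ, prd_ev_map θ' hθc]
    simp only [Matrix.map_mul, Matrix.fromBlocks_map]
    rw [hgG, hgH, hX₁', hX₂', hY₁', hY₂', hz, hz]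
  have h5 : θ' (Ψ f) * θ s = θ F := by
    rw [← hθ' s, ← map_mul, hs', hθ']
  rw [h4]
  have hus : IsUnit (θ (s : MvPolynomial (prd_V n₁ n₂) ℂ)) := hpow _ s.2
  have huw : IsUnit (θ w) := hpow _ hw
  rw [← h5] at h3
  have h6 : (θ w * θ (s : MvPolynomial (prd_V n₁ n₂) ℂ)) *
      (ev x₁ y₁ a * ev x₂ y₂ b * θ' (Ψ f)) = 0 := by
    rw [← h3]
    ring
  exact ((huw.mul hus).mul_right_eq_zero).mp h6

/-- congruences modulo the maximal ideal -/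
theorem prd_cong {ι T : Type} [CommRing T] [IsLocalRing T] [Algebra ℂ T] (A B : Matrix ι ι ℂ)
    (x y : Matrix ι ι T)
    (hx : ∀ s s', x s s' - algebraMap ℂ T (A s s') ∈ IsLocalRing.maximalIdeal T)
    (hy : ∀ s s', y s s' - algebraMap ℂ T (B s s') ∈ IsLocalRing.maximalIdeal T)
    (a : Rg ι ℂ) : ev x y a - algebraMap ℂ T (ev A B a) ∈ IsLocalRing.maximalIdeal T := by
  obtain ⟨E, hE⟩ : ∃ E : Rg ι ℂ →ₐ[ℂ] T, E = ev x y := ⟨_, rfl⟩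
  obtain ⟨E₀, hE₀⟩ : ∃ E₀ : Rg ι ℂ →ₐ[ℂ] ℂ, E₀ = ev A B := ⟨_, rfl⟩
  rw [← hE, ← hE₀]
  have hX : ∀ v, E (MvPolynomial.X v) - algebraMap ℂ T (E₀ (MvPolynomial.X v)) ∈
      IsLocalRing.maximalIdeal T := by
    intro v
    rw [hE, hE₀]
    unfold ev
    rw [MvPolynomial.aeval_X, MvPolynomial.aeval_X]
    split_ifs
    · exact hx _ _
    · exact hy _ _
  clear hE hE₀
  induction a using MvPolynomial.induction_on with
  | C c =>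
    have h1 : E (MvPolynomial.C c) = algebraMap ℂ T c := E.commutes c
    have h2 : E₀ (MvPolynomial.C c) = c := E₀.commutes c
    rw [h1, h2, sub_self]
    exact Ideal.zero_mem _
  | add p q hp hq =>
    have e : E (p + q) - algebraMap ℂ T (E₀ (p + q)) =
        (E p - algebraMap ℂ T (E₀ p)) + (E q - algebraMap ℂ T (E₀ q)) := by
      rw [map_add, map_add, map_add]
      ring
    rw [e]
    exact Ideal.add_mem _ hp hq
  | mul_X p v hp =>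
    have e : E (p * MvPolynomial.X v) - algebraMap ℂ T (E₀ (p * MvPolynomial.X v)) =
        (E p - algebraMap ℂ T (E₀ p)) * E (MvPolynomial.X v) +
        algebraMap ℂ T (E₀ p) *
          (E (MvPolynomial.X v) - algebraMap ℂ T (E₀ (MvPolynomial.X v))) := by
      rw [map_mul, map_mul, map_mul]
      ring
    rw [e]
    exact Ideal.add_mem _ (Ideal.mul_mem_right _ _ hp) (Ideal.mul_mem_left _ _ (hX v))

theorem prd_unit {ι T : Type} [CommRing T] [IsLocalRing T] [Algebra ℂ T] (A B : Matrix ι ι ℂ)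
    (x y : Matrix ι ι T)
    (hx : ∀ s s', x s s' - algebraMap ℂ T (A s s') ∈ IsLocalRing.maximalIdeal T)
    (hy : ∀ s s', y s s' - algebraMap ℂ T (B s s') ∈ IsLocalRing.maximalIdeal T)
    (a : Rg ι ℂ) (ha : ev A B a ≠ 0) : IsUnit (ev x y a) := by
  by_contra h
  have h1 : ev x y a ∈ IsLocalRing.maximalIdeal T := (IsLocalRing.mem_maximalIdeal _).mpr h
  have h2 : algebraMap ℂ T (ev A B a) ∈ IsLocalRing.maximalIdeal T := by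
    have h3 := Ideal.sub_mem _ h1 (prd_cong A B x y hx hy a)
    rwa [sub_sub_cancel] at h3
  exact (IsLocalRing.mem_maximalIdeal _).mp h2 ((IsUnit.mk0 _ ha).map (algebraMap ℂ T))

/-- The image in a local ring over which the characteristic polynomial splits. -/
theorem prd_loc (hPrT : St_PrT) (hPrB : St_PrB) {n₁ n₂ : ℕ} {A₁ B₁ : Matrix (Fin n₁) (Fin n₁) ℂ}
    {A₂ B₂ : Matrix (Fin n₂) (Fin n₂) ℂ} {t : ℂ} (hc₁ : A₁ * B₁ = B₁ * A₁)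
    (hc₂ : A₂ * B₂ = B₂ * A₂) (hcop : IsCoprime (A₁ + t • B₁).charpoly (A₂ + t • B₂).charpoly)
    (h₁ : Rd A₁ B₁) (h₂ : Rd A₂ B₂) (f : Rg (Fin n₁ ⊕ Fin n₂) ℂ) (m : ℕ)
    (hf : f ^ m ∈ comI (Fin n₁ ⊕ Fin n₂) ℂ) {T : Type} [CommRing T] [IsLocalRing T]
    (π : Rg (Fin n₁ ⊕ Fin n₂) ℂ →+* T) (hπ0 : ∀ h ∈ comI (Fin n₁ ⊕ Fin n₂) ℂ, π h = 0)
    (hπ : ∀ h, ev (Matrix.fromBlocks A₁ 0 0 A₂) (Matrix.fromBlocks B₁ 0 0 B₂) h = (0 : ℂ) →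
      π h ∈ IsLocalRing.maximalIdeal T) (r : Fin (n₁ + n₂) → T)
    (hr : ((mX (Fin n₁ ⊕ Fin n₂) ℂ + (MvPolynomial.C t : Rg (Fin n₁ ⊕ Fin n₂) ℂ) •
      mY (Fin n₁ ⊕ Fin n₂) ℂ).map π).charpoly = ∏ i, (Polynomial.X - Polynomial.C (r i))) :
    π f = 0 := by
  classical
  obtain ⟨a, b, ha, hb, hab⟩ := prd_pol hPrT h₁ h₂ f m hf
  letI : Algebra ℂ T := (π.comp MvPolynomial.C).toAlgebra
  have halg : ∀ c : ℂ, algebraMap ℂ T c = π (MvPolynomial.C c) := fun c => rfl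
  obtain ⟨x, hx⟩ : ∃ x, x = (mX (Fin n₁ ⊕ Fin n₂) ℂ).map π := ⟨_, rfl⟩
  obtain ⟨y, hy⟩ : ∃ y, y = (mY (Fin n₁ ⊕ Fin n₂) ℂ).map π := ⟨_, rfl⟩
  have hxy : x * y = y * x := by
    rw [hx, hy, ← Matrix.map_mul, ← Matrix.map_mul]
    ext i j
    rw [Matrix.map_apply, Matrix.map_apply, ← sub_eq_zero, ← map_sub]
    exact hπ0 _ (Ideal.subset_span ⟨i, j, rfl⟩)
  have hxA : ∀ s s', x s s' - algebraMap ℂ T (Matrix.fromBlocks A₁ 0 0 A₂ s s') ∈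
      IsLocalRing.maximalIdeal T := by
    intro s s'
    rw [hx, Matrix.map_apply, halg, ← map_sub]
    refine hπ _ ?_
    rw [map_sub]
    have e1 : (ev (Matrix.fromBlocks A₁ 0 0 A₂) (Matrix.fromBlocks B₁ 0 0 B₂) :
        Rg (Fin n₁ ⊕ Fin n₂) ℂ →ₐ[ℂ] ℂ) (mX (Fin n₁ ⊕ Fin n₂) ℂ s s') =
        Matrix.fromBlocks A₁ 0 0 A₂ s s' := congrFun (congrFun (gl_ev_X _ _) s) s'
    have e2 : (ev (Matrix.fromBlocks A₁ 0 0 A₂) (Matrix.fromBlocks B₁ 0 0 B₂) :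
        Rg (Fin n₁ ⊕ Fin n₂) ℂ →ₐ[ℂ] ℂ) (MvPolynomial.C (Matrix.fromBlocks A₁ 0 0 A₂ s s')) =
        Matrix.fromBlocks A₁ 0 0 A₂ s s' := AlgHom.commutes _ _
    rw [e1, e2, sub_self]
  have hyB : ∀ s s', y s s' - algebraMap ℂ T (Matrix.fromBlocks B₁ 0 0 B₂ s s') ∈
      IsLocalRing.maximalIdeal T := by
    intro s s'
    rw [hy, Matrix.map_apply, halg, ← map_sub]
    refine hπ _ ?_
    rw [map_sub]
    have e1 : (ev (Matrix.fromBlocks A₁ 0 0 A₂) (Matrix.fromBlocks B₁ 0 0 B₂) :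
        Rg (Fin n₁ ⊕ Fin n₂) ℂ →ₐ[ℂ] ℂ) (mY (Fin n₁ ⊕ Fin n₂) ℂ s s') =
        Matrix.fromBlocks B₁ 0 0 B₂ s s' := congrFun (congrFun (gl_ev_Y _ _) s) s'
    have e2 : (ev (Matrix.fromBlocks A₁ 0 0 A₂) (Matrix.fromBlocks B₁ 0 0 B₂) :
        Rg (Fin n₁ ⊕ Fin n₂) ℂ →ₐ[ℂ] ℂ) (MvPolynomial.C (Matrix.fromBlocks B₁ 0 0 B₂ s s')) =
        Matrix.fromBlocks B₁ 0 0 B₂ s s' := AlgHom.commutes _ _
    rw [e1, e2, sub_self]
  have hz : x + t • y = (mX (Fin n₁ ⊕ Fin n₂) ℂ + (MvPolynomial.C t : Rg (Fin n₁ ⊕ Fin n₂) ℂ) •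
      mY (Fin n₁ ⊕ Fin n₂) ℂ).map π := by
    rw [hx, hy]
    ext i j
    rw [Matrix.add_apply, Matrix.smul_apply, Matrix.map_apply, Matrix.map_apply, Matrix.map_apply,
      Matrix.add_apply, Matrix.smul_apply, map_add, smul_eq_mul, map_mul, ← halg,
      Algebra.smul_def]
  obtain ⟨G, H, x₁, y₁, x₂, y₂, hGH, hxy₁, hxy₂, hxe, hye, hx₁, hy₁, hx₂, hy₂⟩ :=
    hPrB T n₁ n₂ A₁ B₁ A₂ B₂ t hc₁ hc₂ hcop x y r hxy hxA hyB (by rw [hz, hr])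
  have h3 := hab T G H x₁ y₁ x₂ y₂ hGH hxy₁ hxy₂
  rw [← hxe, ← hye] at h3
  have h4 : ev x y f = π f := by
    have h5 : (ev x y : Rg (Fin n₁ ⊕ Fin n₂) ℂ →ₐ[ℂ] T).toRingHom = π := by
      refine MvPolynomial.ringHom_ext (fun c => ?_) (fun v => ?_)
      · exact (ev x y : Rg (Fin n₁ ⊕ Fin n₂) ℂ →ₐ[ℂ] T).commutes c
      · show ev x y (MvPolynomial.X v) = π (MvPolynomial.X v)
        unfold ev
        rw [MvPolynomial.aeval_X, hx, hy]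
        obtain ⟨c, i, j⟩ := v
        fin_cases c
        · rfl
        · rfl
    exact RingHom.congr_fun h5 f
  rw [h4] at h3
  exact (((prd_unit A₁ B₁ x₁ y₁ hx₁ hy₁ a ha).mul
    (prd_unit A₂ B₂ x₂ y₂ hx₂ hy₂ b hb)).mul_right_eq_zero).mp h3

/-- **Prd.** -/
theorem thm_Prd (hPrT : St_PrT) (hPrB : St_PrB) : St_Prd := by
  classical
  intro n₁ n₂ A₁ B₁ A₂ B₂ t hc₁ hc₂ hcop h₁ h₂ f ⟨m, hf⟩
  obtain ⟨e₀, he₀⟩ : ∃ e₀ : Rg (Fin n₁ ⊕ Fin n₂) ℂ →ₐ[ℂ] ℂ,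
      e₀ = ev (Matrix.fromBlocks A₁ 0 0 A₂) (Matrix.fromBlocks B₁ 0 0 B₂) := ⟨_, rfl⟩
  have hcomm : Matrix.fromBlocks A₁ 0 0 A₂ * Matrix.fromBlocks B₁ 0 0 B₂ =
      Matrix.fromBlocks B₁ 0 0 B₂ * Matrix.fromBlocks A₁ 0 0 A₂ := by
    rw [Matrix.fromBlocks_multiply, Matrix.fromBlocks_multiply]
    simp only [Matrix.mul_zero, Matrix.zero_mul, add_zero, zero_add]
    rw [hc₁, hc₂]
  have hk : ∀ h ∈ comI (Fin n₁ ⊕ Fin n₂) ℂ, e₀ h = 0 := by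
    intro h hh
    rw [he₀]
    exact prd_ev_kill _ _ hcomm hh
  let Q := Rg (Fin n₁ ⊕ Fin n₂) ℂ ⧸ comI (Fin n₁ ⊕ Fin n₂) ℂ
  let mk : Rg (Fin n₁ ⊕ Fin n₂) ℂ →+* Q := Ideal.Quotient.mk (comI (Fin n₁ ⊕ Fin n₂) ℂ)
  let e₁ : Q →+* ℂ := Ideal.Quotient.lift (comI (Fin n₁ ⊕ Fin n₂) ℂ) (e₀ : _ →+* ℂ) hk
  have he₁ : ∀ z, e₁ (mk z) = e₀ z := fun z => rfl
  let P : Ideal Q := RingHom.ker e₁
  haveI hP : P.IsPrime := RingHom.ker_isPrime e₁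
  let R := Localization.AtPrime P
  let ρ : Q →+* R := algebraMap Q R
  -- it is enough that the image is zero
  suffices hzero : ρ (mk f) = 0 by
    obtain ⟨⟨u, hu⟩, hu2⟩ := (IsLocalization.map_eq_zero_iff P.primeCompl R (mk f)).mp hzero
    obtain ⟨g, rfl⟩ := Ideal.Quotient.mk_surjective u
    refine ⟨g, fun h => ?_, ?_⟩
    · apply hu
      show e₁ (mk g) = 0
      rw [he₁, he₀]
      exact h
    · rw [← Ideal.Quotient.eq_zero_iff_mem, map_mul]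
      exact hu2
  obtain ⟨Z, hZ⟩ : ∃ Z, Z = mX (Fin n₁ ⊕ Fin n₂) ℂ +
      (MvPolynomial.C t : Rg (Fin n₁ ⊕ Fin n₂) ℂ) • mY (Fin n₁ ⊕ Fin n₂) ℂ := ⟨_, rfl⟩
  obtain ⟨ZR, hZR⟩ : ∃ ZR : Matrix (Fin n₁ ⊕ Fin n₂) (Fin n₁ ⊕ Fin n₂) R,
      ZR = Z.map (ρ.comp mk) := ⟨_, rfl⟩
  obtain ⟨S', _, _, r, hinj, hr⟩ := thm_Spl R ZR.charpoly (Matrix.charpoly_monic ZR)
  have hdeg : ZR.charpoly.natDegree = n₁ + n₂ := by
    rw [Matrix.charpoly_natDegree_eq_dim, Fintype.card_sum, Fintype.card_fin, Fintype.card_fin]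
  -- the integral closure
  let R' := integralClosure R S'
  have hroot : ∀ i, IsIntegral R (r i) := by
    intro i
    refine ⟨ZR.charpoly, Matrix.charpoly_monic ZR, ?_⟩
    rw [← Polynomial.eval_map, hr]
    unfold dr
    rw [Polynomial.eval_prod]
    exact Finset.prod_eq_zero (Finset.mem_univ i) (by simp)
  let r' : Fin ZR.charpoly.natDegree → R' := fun i => ⟨r i, hroot i⟩
  have hr' : (ZR.map (algebraMap R R')).charpoly =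
      ∏ i, (Polynomial.X - Polynomial.C (r' i)) := by
    have hi : Function.Injective (Polynomial.map (algebraMap R' S')) :=
      Polynomial.map_injective _ Subtype.val_injective
    apply hi
    rw [Matrix.charpoly_map, Polynomial.map_map, ← IsScalarTower.algebraMap_eq, hr,
      Polynomial.map_prod]
    unfold dr
    refine Finset.prod_congr rfl fun i _ => ?_
    rw [Polynomial.map_sub, Polynomial.map_X, Polynomial.map_C]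
    rfl
  have hRR' : Function.Injective (algebraMap R R') := by
    intro u v huv
    apply hinj
    rw [IsScalarTower.algebraMap_apply R R' S', huv, ← IsScalarTower.algebraMap_apply R R' S']
  apply hRR'
  rw [map_zero]
  refine eq_zero_of_localization _ fun M' hM' => ?_
  haveI := hM'
  let T := Localization.AtPrime M'
  obtain ⟨π, hπ⟩ : ∃ π : Rg (Fin n₁ ⊕ Fin n₂) ℂ →+* T,
      π = (algebraMap R' T).comp ((algebraMap R R').comp (ρ.comp mk)) := ⟨_, rfl⟩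
  have hgoal : π f = 0 := by
    refine prd_loc hPrT hPrB hc₁ hc₂ hcop h₁ h₂ f m hf π ?_ ?_
      (fun i => algebraMap R' T (r' (Fin.cast hdeg.symm i))) ?_
    · intro h hh
      have h0 : mk h = 0 := Ideal.Quotient.eq_zero_iff_mem.mpr hh
      rw [hπ]
      show algebraMap R' T (algebraMap R R' (ρ (mk h))) = 0
      rw [h0, map_zero, map_zero, map_zero]
    · intro h hh
      rw [hπ]
      show algebraMap R' T (algebraMap R R' (ρ (mk h))) ∈ IsLocalRing.maximalIdeal T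
      have h1 : mk h ∈ P := by
        show e₁ (mk h) = 0
        rw [he₁, he₀]
        exact hh
      have h2 : ρ (mk h) ∈ IsLocalRing.maximalIdeal R :=
        (IsLocalization.AtPrime.to_map_mem_maximal_iff R P (mk h)).mpr h1
      have h3 : M'.comap (algebraMap R R') = IsLocalRing.maximalIdeal R :=
        IsLocalRing.eq_maximalIdeal (Ideal.isMaximal_comap_of_isIntegral_of_isMaximal M')
      rw [← h3, Ideal.mem_comap] at h2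
      exact (IsLocalization.AtPrime.to_map_mem_maximal_iff T M' _).mpr h2
    · rw [← hZ]
      have e1 : Z.map π = (ZR.map (algebraMap R R')).map (algebraMap R' T) := by
        rw [hZR, hπ]
        rfl
      rw [e1, Matrix.charpoly_map, hr', Polynomial.map_prod]
      rw [← Equiv.prod_comp (finCongr hdeg.symm)]
      refine Finset.prod_congr rfl fun i _ => ?_
      rw [Polynomial.map_sub, Polynomial.map_X, Polynomial.map_C]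
      rfl
  rw [hπ] at hgoal
  exact hgoal

end Pool.Agent.ANC
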