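import Pool.Agent.ANC.St

/-!
# ANC, module Pt (helper98): linear algebra at the point
-/

set_option autoImplicit false

noncomputable section

namespace Pool.Agent.ANC

open Matrix Pool.Agent.CTR

lemma pt_wd_append {ι R : Type} [Fintype ι] [DecidableEq ι] [CommRing R] (x y : Matrix ι ι R)
    (w w' : List Bool) : wd x y (w ++ w') = wd x y w * wd x y w' := by
  induction w with
  | nil => simp [wd]
  | cons b w ih => simp [wd, ih, Matrix.mul_assoc]

lemma pt_wd_true {ι R : Type} [Fintype ι] [DecidableEq ι] [CommRing R] (x y : Matrix ι ι R)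
    (i : ℕ) : wd x y (List.replicate i true) = x ^ i := by
  induction i with
  | zero => simp [wd]
  | succ i ih => simp [List.replicate_succ, wd, ih, pow_succ']

lemma pt_wd_false {ι R : Type} [Fintype ι] [DecidableEq ι] [CommRing R] (x y : Matrix ι ι R)
    (i : ℕ) : wd x y (List.replicate i false) = y ^ i := by
  induction i with
  | zero => simp [wd]
  | succ i ih => simp [List.replicate_succ, wd, ih, pow_succ']

lemma pt_wd {ι R : Type} [Fintype ι] [DecidableEq ι] [CommRing R] (x y : Matrix ι ι R)
    (i j : ℕ) : wd x y (List.replicate i true ++ List.replicate j false) = x ^ i * y ^ j := by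
  rw [pt_wd_append, pt_wd_true, pt_wd_false]

lemma pt_wd_reindex {ι κ R : Type} [Fintype ι] [DecidableEq ι] [Fintype κ] [DecidableEq κ]
    [CommRing R] (e : ι ≃ κ) (x y : Matrix ι ι R) (w : List Bool) :
    wd (Matrix.reindex e e x) (Matrix.reindex e e y) w = Matrix.reindex e e (wd x y w) := by
  induction w with
  | nil => simp [wd]
  | cons b w ih =>
    rw [wd, ih, wd]
    cases b
    · simp only [Bool.false_eq_true, if_false, Matrix.reindex_apply, Matrix.submatrix_mul_equiv]
    · simp only [if_true, Matrix.reindex_apply, Matrix.submatrix_mul_equiv]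

theorem thm_Pt : St_Pt := by
  intro m A B v hm
  obtain ⟨f, hf, -, hli⟩ := Submodule.exists_fun_fin_finrank_span_eq ℂ
    (Set.range fun p : ℕ × ℕ => (A ^ p.1 * B ^ p.2) *ᵥ v)
  have hm' : m ≤ Module.finrank ℂ (Submodule.span ℂ
      (Set.range fun p : ℕ × ℕ => (A ^ p.1 * B ^ p.2) *ᵥ v)) := hm
  have hli' : LinearIndependent ℂ (f ∘ Fin.castLE hm') :=
    hli.comp _ (Fin.castLE_injective hm')
  choose p hp using fun a : Fin m => hf (Fin.castLE hm' a)
  -- a unit vector outside
  have hr : ∃ r : Fin (m + 1),
      (Pi.single r 1 : Fin (m + 1) → ℂ) ∉ Submodule.span ℂ (Set.range (f ∘ Fin.castLE hm')) := by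
    by_contra hcon
    simp only [not_exists, not_not] at hcon
    have htop : Submodule.span ℂ (Set.range (f ∘ Fin.castLE hm')) = ⊤ := by
      rw [eq_top_iff]
      intro x _
      rw [← Finset.univ_sum_single x]
      refine Submodule.sum_mem _ fun r _ => ?_
      have h1 := Submodule.smul_mem _ (x r) (hcon r)
      have h2 : (x r) • (Pi.single r 1 : Fin (m + 1) → ℂ) = Pi.single r (x r) := by
        rw [← Pi.single_smul, smul_eq_mul, mul_one]
      rwa [h2] at h1
    have h1 := finrank_span_eq_card hli'
    rw [htop, finrank_top, Module.finrank_fintype_fun_eq_card, Fintype.card_fin,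
      Fintype.card_fin] at h1
    omega
  obtain ⟨r, hr⟩ := hr
  let e : Fin (m + 1) ≃ Ix m := (finSuccEquiv' r).trans (Equiv.optionEquivSumPUnit.{0} (Fin m))
  have her : e r = Sum.inr () := by
    show Equiv.optionEquivSumPUnit.{0} (Fin m) (finSuccEquiv' r r) = _
    rw [finSuccEquiv'_at]
    rfl
  refine ⟨e, fun a => List.replicate (p a).1 true ++ List.replicate (p a).2 false, ?_⟩
  -- the family
  have hopt := LinearIndependent.option hli' hr
  have hopt2 := (linearIndependent_equiv (Equiv.optionEquivSumPUnit.{0} (Fin m)).symm).mpr hopt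
  have hopt3 := hopt2.map' (LinearEquiv.funCongrLeft ℂ ℂ e.symm).toLinearMap
    (LinearEquiv.ker _)
  rw [← isUnit_iff_ne_zero, ← Matrix.isUnit_iff_isUnit_det,
    ← Matrix.linearIndependent_cols_iff_isUnit]
  have hcol : (fr (fun a => List.replicate (p a).1 true ++ List.replicate (p a).2 false)
      (Matrix.reindex e e A) (Matrix.reindex e e B) (v ∘ e.symm)).col
      = (LinearEquiv.funCongrLeft ℂ ℂ e.symm).toLinearMap ∘
        ((fun o => Option.casesOn' o (Pi.single r 1 : Fin (m + 1) → ℂ) (f ∘ Fin.castLE hm')) ∘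
          (Equiv.optionEquivSumPUnit.{0} (Fin m)).symm) := by
    funext s
    funext i
    rcases s with a | u
    · show (wd (Matrix.reindex e e A) (Matrix.reindex e e B)
        (List.replicate (p a).1 true ++ List.replicate (p a).2 false) *ᵥ (v ∘ e.symm)) i
        = f (Fin.castLE hm' a) (e.symm i)
      rw [pt_wd_reindex, pt_wd, Matrix.reindex_apply, Matrix.submatrix_mulVec_equiv, ← hp a]
      simp [Function.comp_assoc]
    · show (if i = Sum.inr () then (1 : ℂ) else 0)
        = (Pi.single r 1 : Fin (m + 1) → ℂ) (e.symm i)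
      rw [Pi.single_apply]
      refine if_congr ?_ rfl rfl
      rw [← her, Equiv.symm_apply_eq]
  rw [hcol]
  exact hopt3

end Pool.Agent.ANC
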