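import Pool.Agent.ANC.St

/-!
# ANC, Sp: the discriminant of a block triangular matrix
-/

set_option autoImplicit false

noncomputable section

namespace Pool.Agent.ANC

open Matrix Pool.Agent.CTR

section

variable {m : ℕ} {R : Type} [CommRing R] (A : Matrix (Fin m) (Fin m) R) (a : Fin m → R) (α : R)

private theorem sp_11 (i j : Fin m) : bl A a α (Sum.inl i) (Sum.inl j) = A i j := rfl

private theorem sp_12 (i : Fin m) (j : Unit) : bl A a α (Sum.inl i) (Sum.inr j) = a i := rfl

private theorem sp_21 (i : Unit) (j : Fin m) : bl A a α (Sum.inr i) (Sum.inl j) = 0 := rfl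

private theorem sp_22 (i j : Unit) : bl A a α (Sum.inr i) (Sum.inr j) = α := rfl

end

private theorem sp_bl_mul {m : ℕ} {R : Type} [CommRing R] (A B : Matrix (Fin m) (Fin m) R)
    (a b : Fin m → R) (α β : R) : ∃ c, bl A a α * bl B b β = bl (A * B) c (α * β) := by
  refine ⟨A *ᵥ b + β • a, ?_⟩
  ext i j
  rw [Matrix.mul_apply, Fintype.sum_sum_type]
  rcases i with i | i <;> rcases j with j | j
  · simp [sp_11, sp_12, sp_21, sp_22, Matrix.mul_apply]
  · simp [sp_11, sp_12, sp_21, sp_22, Matrix.mulVec, dotProduct, mul_comm]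
  · simp [sp_11, sp_12, sp_21, sp_22]
  · simp [sp_11, sp_12, sp_21, sp_22]

private theorem sp_bl_pow {m : ℕ} {R : Type} [CommRing R] (A : Matrix (Fin m) (Fin m) R)
    (a : Fin m → R) (α : R) (r : ℕ) : ∃ c, bl A a α ^ r = bl (A ^ r) c (α ^ r) := by
  induction r with
  | zero =>
    refine ⟨0, ?_⟩
    rw [pow_zero, pow_zero, pow_zero]
    ext i j
    rcases i with i | i <;> rcases j with j | j
    · simp [sp_11, Matrix.one_apply]
    · simp [sp_12]
    · simp [sp_21]
    · simp [sp_22]
  | succ r ih =>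
    obtain ⟨c, hc⟩ := ih
    rw [pow_succ, hc]
    obtain ⟨d, hd⟩ := sp_bl_mul (A ^ r) A c a (α ^ r) α
    exact ⟨d, by rw [hd, pow_succ, pow_succ]⟩

private theorem sp_tr_bl {m : ℕ} {R : Type} [CommRing R] (A : Matrix (Fin m) (Fin m) R)
    (a : Fin m → R) (α : R) : (bl A a α).trace = A.trace + α := by
  unfold Matrix.trace
  rw [Fintype.sum_sum_type]
  simp [sp_11, sp_22]

private theorem sp_pow_vec {L : Type} [Field L] {m : ℕ} (A : Matrix (Fin m) (Fin m) L)
    (v : Fin m → L) (t : L) (h : A *ᵥ v = t • v) (r : ℕ) : A ^ r *ᵥ v = t ^ r • v := by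
  induction r with
  | zero => simp
  | succ r ih => rw [pow_succ, ← Matrix.mulVec_mulVec, h, Matrix.mulVec_smul, ih, smul_smul, pow_succ, mul_comm]

private theorem sp_trace {L : Type} [Field L] {m : ℕ} {ι : Type} [Fintype ι] [DecidableEq ι]
    (A : Matrix (Fin m) (Fin m) L) (J : Module.Basis ι L (Fin m → L)) (t : ι → L)
    (h : ∀ i, A *ᵥ J i = t i • J i) : A.trace = ∑ i, t i := by
  have h1 : A.trace = LinearMap.trace L (Fin m → L) (Matrix.toLin' A) := by
    rw [Matrix.trace_toLin'_eq]
  rw [h1, LinearMap.trace_eq_matrix_trace L J, Matrix.trace]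
  refine Finset.sum_congr rfl fun i _ => ?_
  rw [Matrix.diag_apply, LinearMap.toMatrix_apply, Matrix.toLin'_apply, h]
  simp

theorem thm_Sp : St_Sp := by
  intro L _ _ _ m A κ _ ℓ μ J hJ a α hD
  classical
  by_contra hcon
  push Not at hcon
  obtain ⟨hα, hcard⟩ := hcon
  obtain ⟨hpos, hJ2⟩ := hJ
  -- counting
  have hsum : ∑ i, ℓ i = m := by
    have h1 := Module.finrank_eq_card_basis J
    rw [Module.finrank_fin_fun, Fintype.card_sigma] at h1
    simp only [Fintype.card_fin] at h1
    exact h1.symm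
  have hκ : Fintype.card κ ≤ ∑ i, ℓ i := by
    rw [Fintype.card_eq_sum_ones]
    exact Finset.sum_le_sum fun i _ => hpos i
  have himg : (Finset.univ.image μ).card ≤ Fintype.card κ := Finset.card_image_le
  have hκm : Fintype.card κ = m := by omega
  have hinj : Function.Injective μ := by
    have h1 : (Finset.univ.image μ).card = (Finset.univ : Finset κ).card := by
      rw [Finset.card_univ]
      omega
    have h2 := Finset.card_image_iff.1 h1
    intro i j hij
    exact h2 (by simp) (by simp) hij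
  have hone : ∀ i, ℓ i = 1 := by
    by_contra hc
    push Not at hc
    obtain ⟨i, hi⟩ := hc
    have h1 : ∑ _i : κ, 1 < ∑ i, ℓ i :=
      Finset.sum_lt_sum (fun i _ => hpos i) ⟨i, Finset.mem_univ i, by have := hpos i; omega⟩
    rw [← Fintype.card_eq_sum_ones] at h1
    omega
  have heig : ∀ s : (Σ i : κ, Fin (ℓ i)), A *ᵥ J s = μ s.1 • J s := by
    rintro ⟨i, b⟩
    have h1 := hJ2 i b
    have h2 : ¬ ((b : ℕ) + 1 < ℓ i) := by
      have := hone i
      omega
    rw [dif_neg h2, add_zero] at h1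
    exact h1
  -- the index of the eigenvalues
  let e1 : (Σ i : κ, Fin (ℓ i)) ≃ κ :=
    { toFun := fun s => s.1
      invFun := fun i => ⟨i, ⟨0, hpos i⟩⟩
      left_inv := by
        rintro ⟨i, b⟩
        have h2 : b = ⟨0, hpos i⟩ := by
          apply Fin.ext
          have := b.2
          have := hone i
          simp only
          omega
        rw [h2]
      right_inv := fun i => rfl }
  have htr : ∀ r : ℕ, (A ^ r).trace = ∑ i, μ i ^ r := by
    intro r
    rw [sp_trace (A ^ r) J (fun s => μ s.1 ^ r) fun s => sp_pow_vec A _ _ (heig s) r]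
    exact Equiv.sum_comp e1 fun i => μ i ^ r
  have hne : ∀ i, μ i ≠ α := by
    intro i hi
    apply hα
    rw [Matrix.eval_charpoly]
    rw [← Matrix.exists_mulVec_eq_zero_iff]
    refine ⟨J ⟨i, ⟨0, hpos i⟩⟩, J.ne_zero _, ?_⟩
    rw [Matrix.sub_mulVec, heig, Matrix.scalar_apply, ← hi]
    simp only
    rw [← Matrix.smul_one_eq_diagonal, Matrix.smul_mulVec, Matrix.one_mulVec, sub_self]
  have e2 : Fintype.card (κ ⊕ Unit) = m + 1 := by
    rw [Fintype.card_sum, hκm]
    rfl
  let e3 : Fin (m + 1) ≃ κ ⊕ Unit := (Fintype.equivFinOfCardEq e2).symm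
  let lam : κ ⊕ Unit → L := Sum.elim μ fun _ => α
  have hlam : Function.Injective lam := by
    rintro (i | i) (j | j) hij
    · exact congrArg Sum.inl (hinj hij)
    · exact absurd hij (hne i)
    · exact absurd hij.symm (hne j)
    · rfl
  have hG : (Matrix.of fun a' b' : Fin (m + 1) => (bl A a α ^ ((a' : ℕ) + b')).trace) =
      (Matrix.vandermonde fun s => lam (e3 s))ᵀ * Matrix.vandermonde fun s => lam (e3 s) := by
    ext a' b'
    obtain ⟨c, hc⟩ := sp_bl_pow A a α ((a' : ℕ) + b')
    rw [Matrix.of_apply, hc, sp_tr_bl, htr, Matrix.mul_apply]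
    have h1 : ∑ j, (Matrix.vandermonde fun s => lam (e3 s))ᵀ a' j *
        (Matrix.vandermonde fun s => lam (e3 s)) j b' = ∑ s : κ ⊕ Unit, lam s ^ ((a' : ℕ) + b') := by
      rw [← Equiv.sum_comp e3]
      refine Finset.sum_congr rfl fun s _ => ?_
      rw [Matrix.transpose_apply, Matrix.vandermonde_apply, Matrix.vandermonde_apply, ← pow_add]
    rw [h1, Fintype.sum_sum_type]
    simp [lam]
  unfold dsx at hD
  rw [hG, Matrix.det_mul, Matrix.det_transpose] at hD
  have h3 : (Matrix.vandermonde fun s => lam (e3 s)).det ≠ 0 :=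
    Matrix.det_vandermonde_ne_zero_iff.2 (hlam.comp e3.injective)
  exact h3 (mul_self_eq_zero.1 hD)

end Pool.Agent.ANC
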