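import Pool.Agent.ANC.St
import Pool.Agent.ACV.JBx
import Pool.Agent.ACV.Stb
import Pool.Agent.ACV.Xi
import Pool.Agent.ACV.TA
import Pool.Agent.ACV.Vd

/-!
# ANC, TQ: the tangent space of the triangular form
-/

set_option autoImplicit false
set_option linter.unusedVariables false

noncomputable section

namespace Pool.Agent.ANC

open Matrix

variable {L : Type} [Field L] {m : ℕ}

/-- The linear map `(a', b') ↦ (A - α) b' - (B - β) a'`. -/
def tq_F (A B : Matrix (Fin m) (Fin m) L) (α β : L) :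
    ((Fin m → L) × (Fin m → L)) →ₗ[L] (Fin m → L) where
  toFun p := A *ᵥ p.2 - α • p.2 - (B *ᵥ p.1 - β • p.1)
  map_add' p q := by
    simp only [Prod.fst_add, Prod.snd_add, mulVec_add, smul_add]
    abel
  map_smul' c p := by
    simp only [Prod.smul_fst, Prod.smul_snd, mulVec_smul, RingHom.id_apply, smul_sub, smul_comm c]

/-- a functional which vanishes on `F` and at `v` is zero -/
theorem tq_zero (W : Fin m → List Bool) (A B : Matrix (Fin m) (Fin m) L) (v : Fin m → L) (α β : L)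
    (hfr : (frH W A B v).det ≠ 0) (φ : Module.Dual L (Fin m → L))
    (hA : ∀ x, φ (A *ᵥ x) = α * φ x) (hB : ∀ x, φ (B *ᵥ x) = β * φ x) (hv : φ v = 0) : φ = 0 := by
  have hw : ∀ w : List Bool, φ (wd A B w *ᵥ v) = 0 := by
    intro w
    induction w with
    | nil => simpa [wd] using hv
    | cons c w ih =>
      rw [wd, ← mulVec_mulVec]
      split_ifs
      · rw [hA, ih, mul_zero]
      · rw [hB, ih, mul_zero]
  have h1 : ∀ y, φ (frH W A B v *ᵥ y) = 0 := by
    intro y
    have h2 : frH W A B v *ᵥ y = ∑ a, y a • (wd A B (W a) *ᵥ v) := by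
      ext i
      rw [Finset.sum_apply]
      simp only [mulVec, dotProduct, frH, Pi.smul_apply, smul_eq_mul]
      exact Finset.sum_congr rfl fun a _ => mul_comm _ _
    rw [h2, map_sum]
    exact Finset.sum_eq_zero fun a _ => by rw [map_smul, hw, smul_zero]
  apply LinearMap.ext
  intro x
  have h3 : frH W A B v *ᵥ ((frH W A B v)⁻¹ *ᵥ x) = x := by
    rw [mulVec_mulVec, Matrix.mul_nonsing_inv _ (isUnit_iff_ne_zero.2 hfr), one_mulVec]
  rw [← h3, h1]
  rfl

/-- eigenvalues -/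
theorem tq_eig (A : Matrix (Fin m) (Fin m) L) (α : L) (φ : Module.Dual L (Fin m → L)) (h0 : φ ≠ 0)
    (hA : ∀ x, φ (A *ᵥ x) = α * φ x) : A.charpoly.eval α = 0 := by
  by_contra hne
  apply h0
  rw [Matrix.eval_charpoly] at hne
  apply LinearMap.ext
  intro x
  have h3 : (Matrix.scalar (Fin m) α - A) *ᵥ ((Matrix.scalar (Fin m) α - A)⁻¹ *ᵥ x) = x := by
    rw [mulVec_mulVec, Matrix.mul_nonsing_inv _ (isUnit_iff_ne_zero.2 hne), one_mulVec]
  rw [← h3, sub_mulVec, map_sub, hA]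
  have h4 : ∀ y : Fin m → L, Matrix.scalar (Fin m) α *ᵥ y = α • y := by
    intro y
    ext i
    simp [Matrix.scalar_apply, Matrix.mulVec_diagonal]
  rw [h4, map_smul, smul_eq_mul, sub_self]
  rfl

/-- the kernel of `F` -/
theorem tq_ker (W : Fin m → List Bool) (A B : Matrix (Fin m) (Fin m) L) (v : Fin m → L) (α β : L)
    (hfr : (frH W A B v).det ≠ 0) :
    Module.finrank L (LinearMap.ker (tq_F A B α β)) ≤ m ∨
      (Module.finrank L (LinearMap.ker (tq_F A B α β)) ≤ m + 1 ∧ A.charpoly.eval α = 0 ∧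
        B.charpoly.eval β = 0) := by
  have h1 := LinearMap.finrank_range_add_finrank_ker (tq_F A B α β)
  have h2 : Module.finrank L ((Fin m → L) × (Fin m → L)) = m + m := by
    rw [Module.finrank_prod, Module.finrank_fin_fun]
  have h3 := Subspace.finrank_add_finrank_dualAnnihilator_eq (LinearMap.range (tq_F A B α β))
  rw [Module.finrank_fin_fun] at h3
  have hAB : ∀ φ ∈ (LinearMap.range (tq_F A B α β)).dualAnnihilator,
      (∀ x, φ (A *ᵥ x) = α * φ x) ∧ (∀ x, φ (B *ᵥ x) = β * φ x) := by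
    intro φ hφ
    rw [Submodule.mem_dualAnnihilator] at hφ
    constructor
    · intro x
      have h4 := hφ _ ⟨(0, x), rfl⟩
      simp only [tq_F, LinearMap.coe_mk, AddHom.coe_mk, mulVec_zero, smul_zero, sub_zero, map_sub,
        map_smul, smul_eq_mul] at h4
      exact sub_eq_zero.1 h4
    · intro x
      have h4 := hφ _ ⟨(x, 0), rfl⟩
      simp only [tq_F, LinearMap.coe_mk, AddHom.coe_mk, mulVec_zero, smul_zero, sub_zero, zero_sub,
        map_sub, map_smul, smul_eq_mul, map_neg, neg_eq_zero] at h4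
      exact sub_eq_zero.1 h4
  have h5 : Module.finrank L (LinearMap.range (tq_F A B α β)).dualAnnihilator ≤ 1 := by
    have h6 : Function.Injective ((Module.Dual.eval L (Fin m → L) v).domRestrict
        (LinearMap.range (tq_F A B α β)).dualAnnihilator) := by
      refine (injective_iff_map_eq_zero _).2 ?_
      rintro ⟨φ, hφ⟩ h7
      have h8 : φ v = 0 := h7
      obtain ⟨hA, hB⟩ := hAB φ hφ
      exact Subtype.ext (tq_zero W A B v α β hfr φ hA hB h8)
    have h7 := LinearMap.finrank_le_finrank_of_injective h6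
    rwa [Module.finrank_self] at h7
  by_cases h6 : (LinearMap.range (tq_F A B α β)).dualAnnihilator = ⊥
  · left
    rw [h6, finrank_bot] at h3
    omega
  · right
    obtain ⟨φ, hφ, h0⟩ := (Submodule.ne_bot_iff _).1 h6
    obtain ⟨hA, hB⟩ := hAB φ hφ
    exact ⟨by omega, tq_eig A α φ h0 hA, tq_eig B β φ h0 hB⟩

/-- roots of the characteristic polynomial are algebraic -/
theorem tq_alg [Algebra ℂ L] (A : Matrix (Fin m) (Fin m) L) (α : L) (h : A.charpoly.eval α = 0) :
    IsAlgebraic (IntermediateField.adjoin ℂ (Set.range fun t : Fin m × Fin m => A t.1 t.2)) α := by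
  let A₀ : Matrix (Fin m) (Fin m) (IntermediateField.adjoin ℂ (Set.range fun t : Fin m × Fin m => A t.1 t.2)) :=
    fun i k => ⟨A i k, IntermediateField.subset_adjoin _ _ ⟨(i, k), rfl⟩⟩
  have h1 : A₀.map (algebraMap _ L) = A := by
    ext i k
    rfl
  refine ⟨A₀.charpoly, (Matrix.charpoly_monic _).ne_zero, ?_⟩
  rw [Polynomial.aeval_def, Polynomial.eval₂_eq_eval_map, ← Matrix.charpoly_map, h1, h]

/-- The equation of the tangent vectors. -/
def tq_Phi (A B : Matrix (Fin m) (Fin m) L) (a b : Fin m → L) (α β : L) :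
    (Qv m → L) →ₗ[L] (Fin m → L) where
  toFun t i := ∑ k, t (Sum.inl (Sum.inl (0, i, k))) * b k + ∑ k, A i k * t (Sum.inr (Sum.inl (1, k))) -
    t (Sum.inr (Sum.inr 0)) * b i - α * t (Sum.inr (Sum.inl (1, i))) -
    (∑ k, t (Sum.inl (Sum.inl (1, i, k))) * a k + ∑ k, B i k * t (Sum.inr (Sum.inl (0, k))) -
    t (Sum.inr (Sum.inr 1)) * a i - β * t (Sum.inr (Sum.inl (0, i))))
  map_add' s t := by
    ext i
    simp only [Pi.add_apply, add_mul, mul_add, Finset.sum_add_distrib]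
    ring
  map_smul' c t := by
    ext i
    simp only [Pi.smul_apply, smul_eq_mul, RingHom.id_apply, mul_add, mul_sub, Finset.mul_sum]
    have e1 : ∀ x y z : L, x * (y * z) = y * (x * z) := fun x y z => by ring
    have e2 : ∀ x y z : L, x * y * z = x * (y * z) := fun x y z => by ring
    simp only [e2, e1 c]

/-- counting -/
theorem tq_dim (A B : Matrix (Fin m) (Fin m) L) (a b : Fin m → L) (α β : L)
    (T₁ : Submodule L (Sv (Fin m) → L)) (S : Type) [AddCommGroup S] [Module L S] [Module.Finite L S]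
    (T : Submodule L (Qv m → L)) (σ : (Qv m → L) →ₗ[L] S)
    (h1 : ∀ t ∈ T, (fun i => t (Sum.inl i)) ∈ T₁) (h2 : ∀ t ∈ T, tq_Phi A B a b α β t = 0)
    (h3 : ∀ t ∈ T, t (Sum.inr (Sum.inr 2)) = 0)
    (h4 : ∀ t ∈ T, (∀ i, t (Sum.inl i) = 0) → σ t = 0 → t (Sum.inr (Sum.inr 0)) = 0 ∧
      t (Sum.inr (Sum.inr 1)) = 0) :
    Module.finrank L T ≤ Module.finrank L T₁ + Module.finrank L S +
      Module.finrank L (LinearMap.ker (tq_F A B α β)) + m := by
  let π : T →ₗ[L] T₁ × S :=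
    LinearMap.prod (((LinearMap.funLeft L L (fun i : Sv (Fin m) => (Sum.inl i : Qv m))).comp T.subtype).codRestrict T₁
      fun t => h1 t t.2) (σ.comp T.subtype)
  have hπ := LinearMap.finrank_range_add_finrank_ker π
  have hr : Module.finrank L (LinearMap.range π) ≤ Module.finrank L T₁ + Module.finrank L S := by
    refine (Submodule.finrank_le _).trans ?_
    rw [Module.finrank_prod]
  have hk0 : ∀ t : LinearMap.ker π, (∀ i, t.1.1 (Sum.inl i) = 0) ∧ t.1.1 (Sum.inr (Sum.inr 0)) = 0 ∧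
      t.1.1 (Sum.inr (Sum.inr 1)) = 0 := by
    intro t
    have h5 : π t.1 = 0 := t.2
    have h6 : ∀ i, t.1.1 (Sum.inl i) = 0 := by
      intro i
      have h7 := congrArg (fun p : T₁ × S => (p.1 : Sv (Fin m) → L) i) h5
      exact h7
    have h7 : σ t.1.1 = 0 := congrArg Prod.snd h5
    exact ⟨h6, h4 _ t.1.2 h6 h7⟩
  let χ₀ : LinearMap.ker π →ₗ[L] ((Fin m → L) × (Fin m → L)) :=
    LinearMap.prod
      ((LinearMap.funLeft L L (fun i : Fin m => (Sum.inr (Sum.inl (0, i)) : Qv m))).comp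
        (T.subtype.comp (LinearMap.ker π).subtype))
      ((LinearMap.funLeft L L (fun i : Fin m => (Sum.inr (Sum.inl (1, i)) : Qv m))).comp
        (T.subtype.comp (LinearMap.ker π).subtype))
  have hχ₀ : ∀ t, χ₀ t ∈ LinearMap.ker (tq_F A B α β) := by
    intro t
    obtain ⟨h5, h6, h7⟩ := hk0 t
    rw [LinearMap.mem_ker]
    have h8 := h2 _ t.1.2
    rw [← h8]
    ext i
    simp only [tq_F, tq_Phi, LinearMap.coe_mk, AddHom.coe_mk, h5, h6, h7, zero_mul,
      Finset.sum_const_zero, zero_add, sub_zero, Pi.sub_apply, Pi.smul_apply, smul_eq_mul, mulVec,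
      dotProduct]
    rfl
  let χ : LinearMap.ker π →ₗ[L] (LinearMap.ker (tq_F A B α β)) × (Fin m → L) :=
    LinearMap.prod (χ₀.codRestrict _ hχ₀)
      ((LinearMap.funLeft L L (fun i : Fin m => (Sum.inr (Sum.inl (2, i)) : Qv m))).comp
        (T.subtype.comp (LinearMap.ker π).subtype))
  have hχ : Function.Injective χ := by
    refine (injective_iff_map_eq_zero _).2 ?_
    intro t ht
    obtain ⟨h5, h6, h7⟩ := hk0 t
    have e0 : ∀ i, t.1.1 (Sum.inr (Sum.inl (0, i))) = 0 := fun i =>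
      congrArg (fun p : (LinearMap.ker (tq_F A B α β)) × (Fin m → L) => (p.1 : (Fin m → L) × (Fin m → L)).1 i) ht
    have e1 : ∀ i, t.1.1 (Sum.inr (Sum.inl (1, i))) = 0 := fun i =>
      congrArg (fun p : (LinearMap.ker (tq_F A B α β)) × (Fin m → L) => (p.1 : (Fin m → L) × (Fin m → L)).2 i) ht
    have e2 : ∀ i, t.1.1 (Sum.inr (Sum.inl (2, i))) = 0 := fun i =>
      congrArg (fun p : (LinearMap.ker (tq_F A B α β)) × (Fin m → L) => p.2 i) ht
    have e3 := h3 _ t.1.2
    apply Subtype.ext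
    apply Subtype.ext
    funext x
    rcases x with x | ⟨c, i⟩ | c
    · exact h5 x
    · fin_cases c
      · exact e0 i
      · exact e1 i
      · exact e2 i
    · fin_cases c
      · exact h6
      · exact h7
      · exact e3
  have hk := LinearMap.finrank_le_finrank_of_injective hχ
  rw [Module.finrank_prod, Module.finrank_fin_fun] at hk
  omega

theorem thm_TQ (hAlg : St_Alg) (hSp : St_Sp) : St_TQ := by
  classical
  intro L _ _ _ m W A B v j a b z α β hAC hE hfr hD
  obtain ⟨κ, _, ℓ, μ, J, hJ⟩ := Pool.Agent.ACV.thm_JBx L m A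
  obtain ⟨T₁, hT₁, hδ₁⟩ : ∃ T₁ : Submodule L (Sv (Fin m) → L),
      Module.finrank L T₁ ≤ m ^ 2 + m + (Finset.univ.image μ).card ∧
        ∀ δ : Derivation ℂ L L, (fun i => δ (coI A B v j i)) ∈ T₁ :=
    Pool.Agent.ACV.thm_TA (Pool.Agent.ACV.thm_Xi Pool.Agent.ACV.thm_Stb) ℂ L m A B v j hAC κ ℓ μ J hJ
  have hr := (Pool.Agent.ACV.thm_Vd L m A κ ℓ μ J hJ).1
  -- derivations
  have hPhi : ∀ δ : Derivation ℂ L L,
      tq_Phi A B a b α β (fun i => δ (coQ A B v j a b z α β 0 i)) = 0 := by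
    intro δ
    ext i
    have h1 := congrFun hE i
    simp only [Pi.add_apply, Pi.sub_apply, Pi.smul_apply, smul_eq_mul, mulVec, dotProduct,
      zero_mul, add_zero, Pi.zero_apply] at h1
    have h2 := congrArg δ h1
    simp only [map_sub, map_sum, Derivation.leibniz, smul_eq_mul, map_zero,
      Finset.sum_add_distrib] at h2
    simp only [tq_Phi, LinearMap.coe_mk, AddHom.coe_mk, Pi.zero_apply]
    have e1 : ∀ i k, coQ A B v j a b z α β 0 (Sum.inl (Sum.inl (0, i, k))) = A i k := fun i k => rfl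
    have e2 : ∀ i k, coQ A B v j a b z α β 0 (Sum.inl (Sum.inl (1, i, k))) = B i k := fun i k => rfl
    have e3 : ∀ k, coQ A B v j a b z α β 0 (Sum.inr (Sum.inl (0, k))) = a k := fun k => rfl
    have e4 : ∀ k, coQ A B v j a b z α β 0 (Sum.inr (Sum.inl (1, k))) = b k := fun k => rfl
    have e5 : coQ A B v j a b z α β 0 (Sum.inr (Sum.inr 0)) = α := rfl
    have e6 : coQ A B v j a b z α β 0 (Sum.inr (Sum.inr 1)) = β := rfl
    simp only [e1, e2, e3, e4, e5, e6]
    rw [← h2]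
    simp only [mul_comm (b _), mul_comm (a _)]
    ring
  let T₀ : Submodule L (Qv m → L) := T₁.comap (LinearMap.funLeft L L (fun i : Sv (Fin m) => (Sum.inl i : Qv m))) ⊓
    LinearMap.ker (tq_Phi A B a b α β) ⊓ LinearMap.ker (LinearMap.proj (R := L) (φ := fun _ : Qv m => L) (Sum.inr (Sum.inr 2)))
  have hT₀ : ∀ δ : Derivation ℂ L L, (fun i => δ (coQ A B v j a b z α β 0 i)) ∈ T₀ := by
    intro δ
    refine ⟨⟨?_, ?_⟩, ?_⟩
    · exact hδ₁ δ
    · exact hPhi δ
    · show δ (coQ A B v j a b z α β 0 (Sum.inr (Sum.inr 2))) = 0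
      exact map_zero δ
  have hsub : ∀ T : Submodule L (Qv m → L), T ≤ T₀ →
      (∀ t ∈ T, (fun i => t (Sum.inl i)) ∈ T₁) ∧ (∀ t ∈ T, tq_Phi A B a b α β t = 0) ∧
      (∀ t ∈ T, t (Sum.inr (Sum.inr 2)) = 0) := by
    intro T hT
    exact ⟨fun t ht => (hT ht).1.1, fun t ht => (hT ht).1.2, fun t ht => (hT ht).2⟩
  by_cases hα : A.charpoly.eval α = 0
  · obtain ⟨la, hla⟩ := hAlg ℂ L (Fin m × Fin m) (fun t => A t.1 t.2) α (tq_alg A α hα)
    let fa : (Qv m → L) →ₗ[L] L := LinearMap.proj (R := L) (φ := fun _ : Qv m => L) (Sum.inr (Sum.inr 0)) -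
      la.comp (LinearMap.funLeft L L (fun p : Fin m × Fin m => (Sum.inl (Sum.inl (0, p.1, p.2)) : Qv m)))
    have hfa : ∀ δ : Derivation ℂ L L, fa (fun i => δ (coQ A B v j a b z α β 0 i)) = 0 := by
      intro δ
      exact sub_eq_zero.2 (hla δ)
    have hfa0 : ∀ t, fa t = 0 → (∀ i, t (Sum.inl i) = 0) → t (Sum.inr (Sum.inr 0)) = 0 := by
      intro t ht h0
      have h1 : t (Sum.inr (Sum.inr 0)) = la (fun p : Fin m × Fin m => t (Sum.inl (Sum.inl (0, p.1, p.2)))) :=
        sub_eq_zero.1 ht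
      rw [h1]
      have h2 : (fun p : Fin m × Fin m => t (Sum.inl (Sum.inl (0, p.1, p.2)))) = 0 := by
        funext p
        exact h0 _
      rw [h2, map_zero]
    rcases tq_ker W A B v α β hfr with hk | ⟨hk, -, hβ⟩
    · -- one constraint
      obtain ⟨q1, q2, q3⟩ := hsub (T₀ ⊓ LinearMap.ker fa) inf_le_left
      refine ⟨T₀ ⊓ LinearMap.ker fa, ?_, fun δ => ⟨hT₀ δ, hfa δ⟩⟩
      have h := tq_dim A B a b α β T₁ L (T₀ ⊓ LinearMap.ker fa)
        (LinearMap.proj (R := L) (φ := fun _ : Qv m => L) (Sum.inr (Sum.inr 1))) q1 q2 q3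
        (fun t ht h0 hs => ⟨hfa0 t ht.2 h0, hs⟩)
      rw [Module.finrank_self] at h
      omega
    · obtain ⟨lb, hlb⟩ := hAlg ℂ L (Fin m × Fin m) (fun t => B t.1 t.2) β (tq_alg B β hβ)
      let fb : (Qv m → L) →ₗ[L] L := LinearMap.proj (R := L) (φ := fun _ : Qv m => L) (Sum.inr (Sum.inr 1)) -
        lb.comp (LinearMap.funLeft L L (fun p : Fin m × Fin m => (Sum.inl (Sum.inl (1, p.1, p.2)) : Qv m)))
      have hfb : ∀ δ : Derivation ℂ L L, fb (fun i => δ (coQ A B v j a b z α β 0 i)) = 0 := by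
        intro δ
        exact sub_eq_zero.2 (hlb δ)
      have hfb0 : ∀ t, fb t = 0 → (∀ i, t (Sum.inl i) = 0) → t (Sum.inr (Sum.inr 1)) = 0 := by
        intro t ht h0
        have h1 : t (Sum.inr (Sum.inr 1)) = lb (fun p : Fin m × Fin m => t (Sum.inl (Sum.inl (1, p.1, p.2)))) :=
          sub_eq_zero.1 ht
        rw [h1]
        have h2 : (fun p : Fin m × Fin m => t (Sum.inl (Sum.inl (1, p.1, p.2)))) = 0 := by
          funext p
          exact h0 _
        rw [h2, map_zero]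
      obtain ⟨q1, q2, q3⟩ := hsub (T₀ ⊓ LinearMap.ker fa ⊓ LinearMap.ker fb) (inf_le_left.trans inf_le_left)
      refine ⟨T₀ ⊓ LinearMap.ker fa ⊓ LinearMap.ker fb, ?_, fun δ => ⟨⟨hT₀ δ, hfa δ⟩, hfb δ⟩⟩
      have h := tq_dim A B a b α β T₁ PUnit (T₀ ⊓ LinearMap.ker fa ⊓ LinearMap.ker fb)
        0 q1 q2 q3
        (fun t ht h0 hs => ⟨hfa0 t ht.1.2 h0, hfb0 t ht.2 h0⟩)
      have hp : Module.finrank L PUnit = 0 := Module.finrank_zero_of_subsingleton
      rw [hp] at h
      omega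
  · have hrm : (Finset.univ.image μ).card + 1 ≤ m := by
      rcases hSp L m A κ ℓ μ J hJ a α hD with h | h
      · exact absurd h hα
      · exact h
    have hk : Module.finrank L (LinearMap.ker (tq_F A B α β)) ≤ m := by
      rcases tq_ker W A B v α β hfr with hk | ⟨-, h, -⟩
      · exact hk
      · exact absurd h hα
    obtain ⟨q1, q2, q3⟩ := hsub T₀ le_rfl
    refine ⟨T₀, ?_, hT₀⟩
    have h := tq_dim A B a b α β T₁ (L × L) T₀
      ((LinearMap.proj (R := L) (φ := fun _ : Qv m => L) (Sum.inr (Sum.inr 0))).prod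
        (LinearMap.proj (R := L) (φ := fun _ : Qv m => L) (Sum.inr (Sum.inr 1)))) q1 q2 q3
      (fun t ht h0 hs => ⟨congrArg Prod.fst hs, congrArg Prod.snd hs⟩)
    rw [Module.finrank_prod, Module.finrank_self] at h
    omega

end Pool.Agent.ANC
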