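import Pool.Agent.ANC.St
import Pool.Agent.CTR.GL

/-!
# ANC: transposed matrices
-/

set_option autoImplicit false

noncomputable section

namespace Pool.Agent.ANC

open Matrix Pool.Agent.CTR

/-- Reducedness is transported by automorphisms. -/
theorem trn_rd {ι κ : Type} [Fintype ι] [Fintype κ]
    (α : Rg κ ℂ →ₐ[ℂ] Rg ι ℂ) (α' : Rg ι ℂ →ₐ[ℂ] Rg κ ℂ)
    (hc : ∀ f, α (α' f) = f) (hα : comI κ ℂ ≤ (comI ι ℂ).comap α)
    (hα' : comI ι ℂ ≤ (comI κ ℂ).comap α') (A B : Matrix ι ι ℂ) (A' B' : Matrix κ κ ℂ)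
    (hev : ∀ g, ev A B (α g) = ev A' B' g) (h : Rd A' B') : Rd A B := by
  intro f hf
  obtain ⟨m, hfm⟩ := hf
  obtain ⟨g, hg, hgf⟩ := h (α' f) ⟨m, by
    rw [← map_pow]
    exact hα' hfm⟩
  refine ⟨α g, ?_, ?_⟩
  · rw [hev]
    exact hg
  · have h1 := hα hgf
    rw [Ideal.mem_comap, map_mul, hc] at h1
    exact h1

theorem trn_comp {ι S T : Type} [CommRing S] [Algebra ℂ S] [CommRing T] [Algebra ℂ T]
    (α : Rg ι ℂ →ₐ[ℂ] S) (β : S →ₐ[ℂ] T) (M : Matrix ι ι (Rg ι ℂ)) :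
    M.map (β.comp α) = (M.map α).map β := by
  ext i j
  rfl

theorem trn_id {ι : Type} (M : Matrix ι ι (Rg ι ℂ)) :
    M.map (AlgHom.id ℂ (Rg ι ℂ)) = M := by
  ext i j
  rfl

/-- **Trn** -/
theorem thm_Trn : St_Trn := by
  intro ι _ _ A B h
  obtain ⟨α, hX, hY⟩ : ∃ α : Rg ι ℂ →ₐ[ℂ] Rg ι ℂ, (mX ι ℂ).map α = (mX ι ℂ)ᵀ ∧
      (mY ι ℂ).map α = (mY ι ℂ)ᵀ :=
    ⟨ev (mX ι ℂ)ᵀ (mY ι ℂ)ᵀ, gl_ev_X _ _, gl_ev_Y _ _⟩
  have hc : α.comp α = AlgHom.id ℂ _ := by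
    apply gl_ext
    · rw [trn_comp, hX, Matrix.transpose_map, hX, Matrix.transpose_transpose, trn_id]
    · rw [trn_comp, hY, Matrix.transpose_map, hY, Matrix.transpose_transpose, trn_id]
  have hα : comI ι ℂ ≤ (comI ι ℂ).comap α := by
    apply gl_le
    rw [hX, hY, Matrix.transpose_map, Matrix.transpose_map, ← Matrix.transpose_mul,
      ← Matrix.transpose_mul, gl_comm]
  refine trn_rd α α (fun f => ?_) hα hα A B Aᵀ Bᵀ ?_ h
  · have h1 : α (α f) = (α.comp α) f := rfl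
    rw [h1, hc]
    rfl
  · intro g
    have h1 : (ev A B).comp α = ev Aᵀ Bᵀ := by
      apply gl_ext
      · rw [trn_comp, hX, Matrix.transpose_map, gl_ev_X, gl_ev_X]
      · rw [trn_comp, hY, Matrix.transpose_map, gl_ev_Y, gl_ev_Y]
    rw [← h1]
    rfl

end Pool.Agent.ANC
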