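import Pool.Agent.ANC.Wrd
import Pool.Agent.ANC.Frm
import Pool.Agent.ANC.NrA
import Pool.Agent.ANC.NrB
import Pool.Agent.ANC.Chs
import Pool.Agent.ANC.Alg
import Pool.Agent.ANC.Sp
import Pool.Agent.ANC.TQ
import Pool.Agent.ANC.DQ
import Pool.Agent.ANC.CIa
import Pool.Agent.ANC.KQ
import Pool.Agent.ANC.KA
import Pool.Agent.ANC.NZI
import Pool.Agent.ANC.NA
import Pool.Agent.ANC.HmR
import Pool.Agent.ANC.HmQ
import Pool.Agent.ANC.Brg
import Pool.Agent.ANC.Gen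
import Pool.Agent.ANC.Loc
import Pool.Agent.ANC.Cnj
import Pool.Agent.ANC.Trn
import Pool.Agent.ANC.Pt
import Pool.Agent.ANC.NC
import Pool.Agent.ANC.PrT
import Pool.Agent.ANC.PrB
import Pool.Agent.ANC.Prd
import Pool.Agent.ANC.Bas
import Pool.Agent.ANC.Cdb
import Pool.Agent.ANC.Dec

/-!
# ANC: assembly
-/

set_option autoImplicit false

namespace Pool.Agent.ANC

theorem all_Frm : St_Frm := thm_Frm thm_Wrd

theorem all_KA : St_KA := thm_KA (thm_KQ thm_CIa (thm_DQ (thm_TQ thm_Alg thm_Sp)))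

theorem all_NA : St_NA := thm_NA thm_NZI

theorem all_Brg : St_Brg :=
  thm_Brg all_Frm thm_NrA thm_NrB thm_Chs all_KA all_NA thm_HmR thm_HmQ

theorem all_Loc : St_Loc := thm_Loc all_Frm all_Brg thm_Gen

theorem all_NC : St_NC := thm_NC all_Loc thm_Cnj thm_Trn thm_Pt

theorem all_Prd : St_Prd := thm_Prd thm_PrT thm_PrB

theorem all_Dec : St_Dec := thm_Dec all_NC all_Prd thm_Cnj thm_Bas thm_Cdb

end Pool.Agent.ANC
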