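import Pool.Agent.CTR.Defs
import Pool.Agent.ACV.Defs

/-!
# ANC: definitions

The commuting scheme of `gl_n` at the pairs for which a vector generates a subspace of codimension at most one
(MP_c67a3f_ag).
-/

set_option autoImplicit false

noncomputable section

namespace Pool.Agent.ANC

open Matrix Pool.Agent.CTR

/-! ### words, frames -/

/-- The indices of matrices of size `m + 1`. -/
abbrev Ix (m : ℕ) := Fin m ⊕ Unit

/-- The product of the matrices `x` (`true`) and `y` (`false`) along a word. -/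
def wd {ι R : Type} [Fintype ι] [DecidableEq ι] [CommRing R] (x y : Matrix ι ι R) :
    List Bool → Matrix ι ι R
  | [] => 1
  | b :: w => (if b then x else y) * wd x y w

/-- The relation `[x, y] + v j = 0`. -/
def AC {ι R : Type} [Fintype ι] [CommRing R] (x y : Matrix ι ι R) (v j : ι → R) : Prop :=
  x * y - y * x + vecMulVec v j = 0

/-- The Gram determinant of the first `n` powers of a matrix for the trace form. -/
def dsx {ι R : Type} [Fintype ι] [DecidableEq ι] [CommRing R] (n : ℕ) (A : Matrix ι ι R) : R :=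
  (Matrix.of fun a b : Fin n => (A ^ ((a : ℕ) + b)).trace).det

/-- The matrix with the columns `W_a v` (`a` in `Fin m`) and the last unit vector. -/
def fr {m : ℕ} {R : Type} [CommRing R] (W : Fin m → List Bool) (x y : Matrix (Ix m) (Ix m) R)
    (v : Ix m → R) : Matrix (Ix m) (Ix m) R :=
  fun i s => Sum.elim (fun a => (wd x y (W a) *ᵥ v) i) (fun _ => if i = Sum.inr () then 1 else 0) s

/-- The matrix with the columns `W_a v`. -/
def frH {m : ℕ} {R : Type} [CommRing R] (W : Fin m → List Bool) (x y : Matrix (Fin m) (Fin m) R)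
    (v : Fin m → R) : Matrix (Fin m) (Fin m) R :=
  fun i a => (wd x y (W a) *ᵥ v) i

/-- The covector `(z, 1)`. -/
def zt {m : ℕ} {R : Type} [CommRing R] (z : Fin m → R) : Ix m → R := Sum.elim z fun _ => 1

/-- The identity matrix with the last row replaced by `(z, 1)`. -/
def un {m : ℕ} {R : Type} [CommRing R] (z : Fin m → R) : Matrix (Ix m) (Ix m) R :=
  Matrix.fromBlocks 1 0 (fun _ i => z i) 1

/-- The block triangular matrix with the blocks `A`, `a`, `0`, `α`. -/
def bl {m : ℕ} {R : Type} [CommRing R] (A : Matrix (Fin m) (Fin m) R) (a : Fin m → R) (α : R) :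
    Matrix (Ix m) (Ix m) R :=
  Matrix.fromBlocks A (fun i _ => a i) 0 (fun _ _ => α)

/-- The ideal generated by the entries of `ζ x - α ζ`, `ζ y - β ζ` and `ζ v`, with `ζ = (z, 1)` and `α`, `β` the last
entries of `ζ x`, `ζ y`. -/
def bI {m : ℕ} {R : Type} [CommRing R] (z : Fin m → R) (x y : Matrix (Ix m) (Ix m) R)
    (v : Ix m → R) : Ideal R :=
  Ideal.span {r | (∃ i, r = (zt z ᵥ* x - ((zt z ᵥ* x) (Sum.inr ())) • zt z) i) ∨
    (∃ i, r = (zt z ᵥ* y - ((zt z ᵥ* y) (Sum.inr ())) • zt z) i) ∨ r = zt z ⬝ᵥ v}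

/-- The second equation `(A - α) b - (B - β) a + c v = 0` of the triangular form. -/
def E2 {m : ℕ} {R : Type} [CommRing R] (A B : Matrix (Fin m) (Fin m) R) (v a b : Fin m → R)
    (α β c : R) : Prop :=
  A *ᵥ b - α • b - (B *ᵥ a - β • a) + c • v = 0

/-! ### the almost commuting scheme -/

/-- The variables: `inl (0, i, j)` is `x_ij`, `inl (1, i, j)` is `y_ij`, `inr (0, i)` is `v_i`, `inr (1, i)` is `j_i`. -/
abbrev Sv (ι : Type) := (Fin 2 × ι × ι) ⊕ (Fin 2 × ι)

/-- The coordinates of a quadruple. -/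
def coI {ι R : Type} (A B : Matrix ι ι R) (v j : ι → R) : Sv ι → R :=
  Sum.elim (fun t => if t.1 = 0 then A t.2.1 t.2.2 else B t.2.1 t.2.2)
    (fun t => if t.1 = 0 then v t.2 else j t.2)

/-- The ring of polynomials. -/
abbrev RI (ι : Type) := MvPolynomial (Sv ι) ℂ

/-- The matrix `x`. -/
def gX (ι : Type) : Matrix ι ι (RI ι) := fun i j => MvPolynomial.X (Sum.inl (0, i, j))

/-- The matrix `y`. -/
def gY (ι : Type) : Matrix ι ι (RI ι) := fun i j => MvPolynomial.X (Sum.inl (1, i, j))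

/-- The vector `v`. -/
def gv (ι : Type) : ι → RI ι := fun i => MvPolynomial.X (Sum.inr (0, i))

/-- The covector `j`. -/
def gj (ι : Type) : ι → RI ι := fun i => MvPolynomial.X (Sum.inr (1, i))

/-- The ideal of the almost commuting scheme. -/
def IA (ι : Type) [Fintype ι] : Ideal (RI ι) :=
  Ideal.span (Set.range fun t : ι × ι =>
    (gX ι * gY ι - gY ι * gX ι + vecMulVec (gv ι) (gj ι)) t.1 t.2)

/-! ### the triangular form -/

/-- The variables of the triangular form: those of `A, B, v, j` of size `m`; `inr (inl (0, i))` is `a_i`,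
`inr (inl (1, i))` is `b_i`, `inr (inl (2, i))` is `z_i`; `inr (inr 0)`, `inr (inr 1)`, `inr (inr 2)` are `α`, `β`, `c`. -/
abbrev Qv (m : ℕ) := Sv (Fin m) ⊕ ((Fin 3 × Fin m) ⊕ Fin 3)

/-- The coordinates. -/
def coQ {m : ℕ} {R : Type} (A B : Matrix (Fin m) (Fin m) R) (v j a b z : Fin m → R) (α β c : R) :
    Qv m → R :=
  Sum.elim (coI A B v j) (Sum.elim (fun t => (![a, b, z] : Fin 3 → Fin m → R) t.1 t.2) ![α, β, c])

/-- The ring of polynomials. -/
abbrev RQ (m : ℕ) := MvPolynomial (Qv m) ℂ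

/-- The matrix `A`. -/
def qA (m : ℕ) : Matrix (Fin m) (Fin m) (RQ m) := fun i j => MvPolynomial.X (Sum.inl (Sum.inl (0, i, j)))

/-- The matrix `B`. -/
def qB (m : ℕ) : Matrix (Fin m) (Fin m) (RQ m) := fun i j => MvPolynomial.X (Sum.inl (Sum.inl (1, i, j)))

/-- The vector `v`. -/
def qv (m : ℕ) : Fin m → RQ m := fun i => MvPolynomial.X (Sum.inl (Sum.inr (0, i)))

/-- The covector `j`. -/
def qj (m : ℕ) : Fin m → RQ m := fun i => MvPolynomial.X (Sum.inl (Sum.inr (1, i)))

/-- The vectors `a` (`s = 0`), `b` (`s = 1`), `z` (`s = 2`). -/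
def qw (m : ℕ) (s : Fin 3) : Fin m → RQ m := fun i => MvPolynomial.X (Sum.inr (Sum.inl (s, i)))

/-- The scalars `α` (`s = 0`), `β` (`s = 1`), `c` (`s = 2`). -/
def qs (m : ℕ) (s : Fin 3) : RQ m := MvPolynomial.X (Sum.inr (Sum.inr s))

/-- The equations of the triangular form. -/
def eqQ (m : ℕ) : (Fin m × Fin m) ⊕ Fin m → RQ m :=
  Sum.elim (fun t => (qA m * qB m - qB m * qA m + vecMulVec (qv m) (qj m)) t.1 t.2)
    (fun i => (qA m *ᵥ qw m 1 - qs m 0 • qw m 1 - (qB m *ᵥ qw m 0 - qs m 1 • qw m 0) +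
      qs m 2 • qv m) i)

/-- The ideal of the triangular form. -/
def IQ (m : ℕ) : Ideal (RQ m) := Ideal.span (Set.range (eqQ m))

/-! ### the rings with the frame inverted -/

/-- The ring of the almost commuting scheme, where the frame is a basis. -/
abbrev RA (m : ℕ) (W : Fin m → List Bool) :=
  Localization.Away (Ideal.Quotient.mk (IA (Ix m)) (fr W (gX (Ix m)) (gY (Ix m)) (gv (Ix m))).det)

/-- The canonical map. -/
def ja (m : ℕ) (W : Fin m → List Bool) : RI (Ix m) →+* RA m W :=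
  (algebraMap (RI (Ix m) ⧸ IA (Ix m)) (RA m W)).comp (Ideal.Quotient.mk (IA (Ix m)))

/-- The ring of the triangular form, where the frame is a basis. -/
abbrev QA (m : ℕ) (W : Fin m → List Bool) :=
  Localization.Away (Ideal.Quotient.mk (IQ m) (frH W (qA m) (qB m) (qv m)).det)

/-- The canonical map. -/
def jq (m : ℕ) (W : Fin m → List Bool) : RQ m →+* QA m W :=
  (algebraMap (RQ m ⧸ IQ m) (QA m W)).comp (Ideal.Quotient.mk (IQ m))

/-! ### the commuting scheme -/

/-- The commuting scheme is reduced at `(A, B)`, in elementary terms. -/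
def Rd {ι : Type} [Fintype ι] (A B : Matrix ι ι ℂ) : Prop :=
  ∀ f : Rg ι ℂ, (∃ m : ℕ, f ^ m ∈ comI ι ℂ) → ∃ g : Rg ι ℂ, ev A B g ≠ 0 ∧ g * f ∈ comI ι ℂ

/-- The subspace spanned by the `A^i B^j v`. -/
def gen {n : ℕ} (A B : Matrix (Fin n) (Fin n) ℂ) (v : Fin n → ℂ) : Submodule ℂ (Fin n → ℂ) :=
  Submodule.span ℂ (Set.range fun p : ℕ × ℕ => (A ^ p.1 * B ^ p.2) *ᵥ v)

/-- The vectors killed by powers of `A - α` and of `B - β`. -/
def gE {n : ℕ} (A B : Matrix (Fin n) (Fin n) ℂ) (α β : ℂ) : Submodule ℂ (Fin n → ℂ) :=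
  Module.End.maxGenEigenspace (Matrix.toLin' A) α ⊓ Module.End.maxGenEigenspace (Matrix.toLin' B) β

end Pool.Agent.ANC
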