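import Pool.Agent.CTR.All
import Pool.Agent.ANC.St

/-!
# ANC, Gen: nilpotent functions are killed by a power of the discriminant
-/

set_option autoImplicit false

noncomputable section

namespace Pool.Agent.ANC

open Matrix Pool.Agent.CTR

/-! ### the discriminant: change of rings, renaming -/

theorem gen_map {ι R S : Type} [Fintype ι] [DecidableEq ι] [CommRing R] [CommRing S]
    (φ : R →+* S) (n : ℕ) (A : Matrix ι ι R) : φ (dsx n A) = dsx n (A.map φ) := by
  unfold dsx
  rw [RingHom.map_det]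
  refine congrArg Matrix.det ?_
  ext a b
  rw [RingHom.mapMatrix_apply, Matrix.map_apply, Matrix.of_apply, Matrix.of_apply,
    AddMonoidHom.map_trace φ, ← RingHom.mapMatrix_apply, ← RingHom.mapMatrix_apply, map_pow]

theorem gen_sub {ι κ R : Type} [Fintype ι] [DecidableEq ι] [Fintype κ] [DecidableEq κ]
    [CommRing R] (e : ι ≃ κ) (n : ℕ) (A : Matrix κ κ R) :
    dsx n (A.submatrix e e) = dsx n A := by
  have h : ∀ k : ℕ, (A.submatrix e e) ^ k = (A ^ k).submatrix e e := by
    intro k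
    induction k with
    | zero => rw [pow_zero, pow_zero, submatrix_one_equiv]
    | succ k ih => rw [pow_succ, pow_succ, ih, submatrix_mul_equiv]
  unfold dsx
  refine congrArg Matrix.det ?_
  ext a b
  rw [Matrix.of_apply, Matrix.of_apply, h]
  exact Equiv.sum_comp e fun i => (A ^ ((a : ℕ) + b)) i i

/-- The renaming of the variables. -/
def gen_e {ι κ : Type} (e : ι ≃ κ) (t : Fin 2 × ι × ι) : Fin 2 × κ × κ := (t.1, e t.2.1, e t.2.2)

theorem gen_com {ι κ : Type} [Fintype ι] [Fintype κ] (e : ι ≃ κ) (f : Rg ι ℂ)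
    (hf : f ∈ comI ι ℂ) : MvPolynomial.rename (gen_e e) f ∈ comI κ ℂ := by
  have h : comI ι ℂ ≤ (comI κ ℂ).comap
      (MvPolynomial.rename (gen_e e) : Rg ι ℂ →ₐ[ℂ] Rg κ ℂ) := by
    unfold comI
    rw [Ideal.span_le]
    rintro _ ⟨i, j, rfl⟩
    rw [SetLike.mem_coe, Ideal.mem_comap]
    refine Ideal.subset_span ⟨e i, e j, ?_⟩
    rw [Matrix.sub_apply, Matrix.sub_apply, Matrix.mul_apply, Matrix.mul_apply, Matrix.mul_apply,
      Matrix.mul_apply, map_sub, map_sum, map_sum, ← Equiv.sum_comp e, ← Equiv.sum_comp e]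
    simp only [map_mul, mX, mY, MvPolynomial.rename_X, gen_e]
  exact h hf

theorem gen_X {ι κ : Type} [Fintype ι] [DecidableEq ι] [Fintype κ] [DecidableEq κ] (e : ι ≃ κ)
    (n : ℕ) : MvPolynomial.rename (gen_e e) (dsx n (mX ι ℂ)) = dsx n (mX κ ℂ) := by
  have h := gen_map (MvPolynomial.rename (gen_e e) : Rg ι ℂ →ₐ[ℂ] Rg κ ℂ).toRingHom n (mX ι ℂ)
  have h2 : (mX ι ℂ).map (MvPolynomial.rename (gen_e e) : Rg ι ℂ →ₐ[ℂ] Rg κ ℂ).toRingHom
      = (mX κ ℂ).submatrix e e := by
    ext1 i j
    exact MvPolynomial.rename_X _ _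
  rw [h2, gen_sub] at h
  exact h

/-! ### linear algebra -/

/-- A matrix of rank `r` is killed by a monic polynomial of degree `r + 1`. -/
theorem gen_poly {n : ℕ} (T : Matrix (Fin n) (Fin n) ℂ) :
    ∃ q : Polynomial ℂ, q.Monic ∧ q.natDegree = T.rank + 1 ∧ Polynomial.aeval T q = 0 := by
  have hm : ∀ x ∈ LinearMap.range T.mulVecLin, T.mulVecLin x ∈ LinearMap.range T.mulVecLin :=
    fun x _ => ⟨x, rfl⟩
  have hpow : ∀ (k : ℕ) (x : LinearMap.range T.mulVecLin),
      (T ^ k) *ᵥ (x : Fin n → ℂ) = (((T.mulVecLin.restrict hm) ^ k) x : Fin n → ℂ) := by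
    intro k
    induction k with
    | zero =>
      intro x
      rw [pow_zero, pow_zero, one_mulVec]
      rfl
    | succ k ih =>
      intro x
      rw [pow_succ, pow_succ, ← mulVec_mulVec, Module.End.mul_apply, ← ih]
      rfl
  have hres : ∀ (q : Polynomial ℂ) (x : LinearMap.range T.mulVecLin),
      (Polynomial.aeval T q) *ᵥ (x : Fin n → ℂ)
        = ((Polynomial.aeval (T.mulVecLin.restrict hm) q) x : Fin n → ℂ) := by
    intro q
    induction q using Polynomial.induction_on' with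
    | add p q hp hq =>
      intro x
      rw [map_add, map_add, add_mulVec, hp, hq]
      rfl
    | monomial k c =>
      intro x
      rw [Polynomial.aeval_monomial, Polynomial.aeval_monomial, ← Algebra.smul_def,
        ← Algebra.smul_def, smul_mulVec, hpow]
      rfl
  refine ⟨(T.mulVecLin.restrict hm).charpoly * Polynomial.X,
    (LinearMap.charpoly_monic _).mul Polynomial.monic_X, ?_, ?_⟩
  · rw [(LinearMap.charpoly_monic _).natDegree_mul Polynomial.monic_X, Polynomial.natDegree_X,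
      LinearMap.charpoly_natDegree]
    rfl
  · rw [map_mul, Polynomial.aeval_X]
    refine Matrix.toLin'.injective ?_
    rw [map_zero]
    refine LinearMap.ext fun v => ?_
    rw [Matrix.toLin'_apply, ← mulVec_mulVec, LinearMap.zero_apply]
    have h := hres (T.mulVecLin.restrict hm).charpoly ⟨T *ᵥ v, ⟨v, rfl⟩⟩
    rw [LinearMap.aeval_self_charpoly] at h
    exact h

/-- The eigenspaces of a matrix with nonzero discriminant. -/
theorem gen_rank {n : ℕ} (A : Matrix (Fin n) (Fin n) ℂ) (h : dsx n A ≠ 0) (μ : ℂ) :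
    n ≤ (A - Matrix.scalar (Fin n) μ).rank + 2 := by
  by_contra hlt
  obtain ⟨q, hq, hqd, hq0⟩ := gen_poly (A - Matrix.scalar (Fin n) μ)
  have hX : (Polynomial.X - Polynomial.C μ).natDegree = 1 := Polynomial.natDegree_X_sub_C μ
  have hpm : (q.comp (Polynomial.X - Polynomial.C μ)).Monic :=
    hq.comp (Polynomial.monic_X_sub_C μ) (by rw [hX]; exact one_ne_zero)
  have hpd : (q.comp (Polynomial.X - Polynomial.C μ)).natDegree < n := by
    rw [Polynomial.natDegree_comp, hX, mul_one, hqd]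
    omega
  have hp0 : Polynomial.aeval A (q.comp (Polynomial.X - Polynomial.C μ)) = 0 := by
    rw [Polynomial.aeval_comp, map_sub, Polynomial.aeval_X, Polynomial.aeval_C]
    exact hq0
  apply h
  unfold dsx
  rw [← Matrix.exists_mulVec_eq_zero_iff]
  refine ⟨fun b => (q.comp (Polynomial.X - Polynomial.C μ)).coeff b, ?_, ?_⟩
  · intro h0
    apply hpm.ne_zero
    ext k
    by_cases hk : k < n
    · exact congrFun h0 ⟨k, hk⟩
    · rw [Polynomial.coeff_zero]
      exact Polynomial.coeff_eq_zero_of_natDegree_lt (by omega)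
  · have h1 : ∑ b : Fin n, (q.comp (Polynomial.X - Polynomial.C μ)).coeff b • A ^ (b : ℕ)
        = 0 := by
      rw [← hp0, Polynomial.aeval_eq_sum_range' hpd, Finset.sum_range]
    ext a
    have h2 : (A ^ (a : ℕ) * ∑ b : Fin n,
        (q.comp (Polynomial.X - Polynomial.C μ)).coeff b • A ^ (b : ℕ)).trace = 0 := by
      rw [h1, mul_zero, trace_zero]
    rw [Finset.mul_sum, trace_sum] at h2
    show ∑ b : Fin n, (Matrix.of fun a b : Fin n => (A ^ ((a : ℕ) + b)).trace) a b
      * (q.comp (Polynomial.X - Polynomial.C μ)).coeff b = 0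
    rw [← h2]
    refine Finset.sum_congr rfl fun b _ => ?_
    rw [Matrix.of_apply, mul_smul_comm, trace_smul, pow_add, smul_eq_mul, mul_comm]

/-! ### the theorem -/

theorem gen_fin (hGL : St_GL) (n : ℕ) (f : Rg (Fin n) ℂ)
    (hf : ∃ m : ℕ, f ^ m ∈ comI (Fin n) ℂ) :
    ∃ N : ℕ, dsx n (mX (Fin n) ℂ) ^ N * f ∈ comI (Fin n) ℂ := by
  have hmem : dsx n (mX (Fin n) ℂ) ∈ ((comI (Fin n) ℂ).colon {f}).radical := by
    rw [← MvPolynomial.vanishingIdeal_zeroLocus_eq_radical (K := ℂ),
      MvPolynomial.mem_vanishingIdeal_iff]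
    intro P hP
    by_contra hne
    have hval : MvPolynomial.aeval P (dsx n (mX (Fin n) ℂ))
        = dsx n (Matrix.of fun i j : Fin n => P (0, i, j)) := by
      have h := gen_map (MvPolynomial.aeval P : Rg (Fin n) ℂ →ₐ[ℂ] ℂ).toRingHom n (mX (Fin n) ℂ)
      have h2 : (mX (Fin n) ℂ).map (MvPolynomial.aeval P : Rg (Fin n) ℂ →ₐ[ℂ] ℂ).toRingHom
          = Matrix.of fun i j : Fin n => P (0, i, j) := by
        ext1 i j
        exact MvPolynomial.aeval_X _ _
      rw [h2] at h
      exact h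
    rw [hval] at hne
    obtain ⟨g, hg, hgf⟩ := hGL ℂ n (Matrix.of fun i j : Fin n => P (0, i, j))
      (Matrix.of fun i j : Fin n => P (1, i, j)) 1 0
      (fun μ => by
        rw [one_smul, zero_smul, add_zero]
        exact gen_rank _ hne μ) f hf
    apply hg
    have hev : (fun v : Fin 2 × Fin n × Fin n => if v.1 = 0 then P (0, v.2.1, v.2.2)
        else P (1, v.2.1, v.2.2)) = P := by
      funext v
      obtain ⟨s, i, j⟩ := v
      by_cases hs : s = 0
      · subst hs
        exact if_pos rfl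
      · have h1 : s = 1 := by omega
        subst h1
        exact if_neg (show ¬ (1 : Fin 2) = 0 by decide)
    show MvPolynomial.aeval (fun v : Fin 2 × Fin n × Fin n => if v.1 = 0 then P (0, v.2.1, v.2.2)
        else P (1, v.2.1, v.2.2)) g = 0
    rw [hev]
    exact hP g (Submodule.mem_colon_singleton.2 hgf)
  obtain ⟨N, hN⟩ := hmem
  exact ⟨N, Submodule.mem_colon_singleton.1 hN⟩

theorem thm_Gen : St_Gen := by
  intro ι _ _ n hn f hf
  obtain ⟨m, hm⟩ := hf
  have e : ι ≃ Fin n := Fintype.equivFinOfCardEq hn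
  obtain ⟨N, hN⟩ := gen_fin all_GL n (MvPolynomial.rename (gen_e e) f)
    ⟨m, by rw [← map_pow]; exact gen_com e _ hm⟩
  refine ⟨N, ?_⟩
  have h := gen_com e.symm _ hN
  have hid : gen_e e.symm ∘ gen_e e = id := by
    funext t
    simp [gen_e]
  rw [map_mul, map_pow, gen_X, MvPolynomial.rename_rename, hid, MvPolynomial.rename_id_apply] at h
  exact h

end Pool.Agent.ANC
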