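import Pool.Agent.ANC.St
import Pool.Agent.CTR.Sl
import Pool.Agent.CTR.Loc

/-!
# ANC: traceless matrices, local rings
-/

set_option autoImplicit false

noncomputable section

namespace Pool.Agent.ANC

open Matrix Pool.Agent.CTR

/-- From all matrices to traceless matrices. -/
theorem sl_Rd {n : ℕ} {X₀ Y₀ : Matrix (Fin n) (Fin n) ℂ} (h : Rd X₀ Y₀)
    (f : Rg (Fin n) ℂ) (hf : ∃ m : ℕ, f ^ m ∈ comS n) :
    ∃ g : Rg (Fin n) ℂ, ev X₀ Y₀ g ≠ 0 ∧ g * f ∈ comS n := by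
  obtain ⟨m, hm⟩ := hf
  obtain ⟨g, hg, hgf⟩ := h (sl_pi n f) ⟨m, by
    rw [← map_pow]
    exact sl_pi_comS n _ hm⟩
  refine ⟨g, hg, ?_⟩
  have h1 : g * f = g * sl_pi n f - g * (sl_pi n f - f) := by ring
  rw [h1]
  exact (comS n).sub_mem ((le_sup_left : comI (Fin n) ℂ ≤ comS n) hgf)
    ((comS n).mul_mem_left _ (sl_pi_sub n f))

end Pool.Agent.ANC
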