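import Pool.Agent.ANC.St

/-!
# ANC, Wrd: all `j w(x, y) v` vanish (helper72)
-/

set_option autoImplicit false
set_option linter.unusedSectionVars false

noncomputable section

namespace Pool.Agent.ANC

open Matrix Pool.Agent.CTR

section
variable {ι R : Type} [Fintype ι] [DecidableEq ι] [CommRing R]

private theorem wrd_append (x y : Matrix ι ι R) (u w : List Bool) :
    wd x y (u ++ w) = wd x y u * wd x y w := by
  induction u with
  | nil => rw [List.nil_append, wd, one_mul]
  | cons b u ih => rw [List.cons_append, wd, wd, ih, mul_assoc]

private theorem wrd_rep_true (x y : Matrix ι ι R) (a : ℕ) :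
    wd x y (List.replicate a true) = x ^ a := by
  induction a with
  | zero => rw [List.replicate_zero, wd, pow_zero]
  | succ a ih => rw [List.replicate_succ, wd, ih, if_pos rfl, pow_succ']

private theorem wrd_rep_false (x y : Matrix ι ι R) (a : ℕ) :
    wd x y (List.replicate a false) = y ^ a := by
  induction a with
  | zero => rw [List.replicate_zero, wd, pow_zero]
  | succ a ih => rw [List.replicate_succ, wd, ih, if_neg Bool.false_ne_true, pow_succ']

private theorem wrd_comm {x y : Matrix ι ι R} {v j : ι → R} (h : AC x y v j) :
    x * y - y * x = -vecMulVec v j := eq_neg_of_add_eq_zero_left h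

private theorem wrd_comm' {x y : Matrix ι ι R} {v j : ι → R} (h : AC x y v j) :
    y * x - x * y = vecMulVec v j := by
  rw [← neg_sub, wrd_comm h, neg_neg]

private theorem wrd_tr (M : Matrix ι ι R) (v j : ι → R) :
    (M * vecMulVec v j).trace = j ⬝ᵥ (M *ᵥ v) := by
  rw [mul_vecMulVec, trace_vecMulVec, dotProduct_comm]

private theorem wrd_swap {x y : Matrix ι ι R} {v j : ι → R} (h : AC x y v j) (u w : List Bool)
    (hw : j ⬝ᵥ (wd x y w *ᵥ v) = 0) :
    j ⬝ᵥ (wd x y (u ++ true :: false :: w) *ᵥ v) =
      j ⬝ᵥ (wd x y (u ++ false :: true :: w) *ᵥ v) := by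
  have e1 : wd x y (true :: false :: w) = x * (y * wd x y w) := by
    rw [wd, wd, if_pos rfl, if_neg Bool.false_ne_true]
  have e2 : wd x y (false :: true :: w) = y * (x * wd x y w) := by
    rw [wd, wd, if_pos rfl, if_neg Bool.false_ne_true]
  have h1 : wd x y (u ++ true :: false :: w) - wd x y (u ++ false :: true :: w) =
      wd x y u * ((x * y - y * x) * wd x y w) := by
    rw [wrd_append, wrd_append, e1, e2]
    noncomm_ring
  have h2 : ((x * y - y * x) * wd x y w) *ᵥ v = 0 := by
    rw [← mulVec_mulVec, wrd_comm h, neg_mulVec, vecMulVec_mulVec, hw]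
    simp
  rw [← sub_eq_zero, ← dotProduct_sub, ← sub_mulVec, h1, ← mulVec_mulVec, h2, mulVec_zero,
    dotProduct_zero]

private theorem wrd_perm {x y : Matrix ι ι R} {v j : ι → R} (h : AC x y v j) {N : ℕ}
    (hN : ∀ w : List Bool, w.length < N → j ⬝ᵥ (wd x y w *ᵥ v) = 0) {w w' : List Bool}
    (hp : w.Perm w') : ∀ u : List Bool, u.length + w.length = N →
    j ⬝ᵥ (wd x y (u ++ w) *ᵥ v) = j ⬝ᵥ (wd x y (u ++ w') *ᵥ v) := by
  induction hp with
  | nil => exact fun u _ => rfl
  | @cons a w1 w2 hp ih =>
    intro u hu
    have h1 := ih (u ++ [a]) (by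
      rw [List.length_append, List.length_singleton]
      rw [List.length_cons] at hu
      omega)
    rw [List.append_assoc, List.append_assoc] at h1
    exact h1
  | swap a b w1 =>
    intro u hu
    rw [List.length_cons, List.length_cons] at hu
    have h1 := hN w1 (by omega)
    cases a with
    | true =>
      cases b with
      | true => rfl
      | false => exact (wrd_swap h u w1 h1).symm
    | false =>
      cases b with
      | true => exact wrd_swap h u w1 h1
      | false => rfl
  | trans hp hq ih ih' =>
    intro u hu
    rw [ih u hu, ih' u (by rw [← hp.length_eq]; exact hu)]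

end

theorem thm_Wrd : St_Wrd := by
  intro ι R _ _ _ _ x y v j h
  have key : ∀ N : ℕ, ∀ w : List Bool, w.length = N → j ⬝ᵥ (wd x y w *ᵥ v) = 0 := by
    intro N
    induction N using Nat.strong_induction_on with
    | _ N ih =>
    have hN : ∀ w : List Bool, w.length < N → j ⬝ᵥ (wd x y w *ᵥ v) = 0 :=
      fun w hw => ih _ hw w rfl
    -- the normal form
    have hJ : ∀ a b : ℕ, a + b = N → j ⬝ᵥ ((x ^ a * y ^ b) *ᵥ v) = 0 := by
      intro a b hab
      have hw1 : wd x y (List.replicate a true ++ List.replicate b false) = x ^ a * y ^ b := by
        rw [wrd_append, wrd_rep_true, wrd_rep_false]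
      have hstep : ∀ k c : ℕ, c + k = b →
          (y ^ c * y * x ^ a * (y ^ k * x - x * y ^ k)).trace =
            (k : R) * (j ⬝ᵥ ((x ^ a * y ^ b) *ᵥ v)) := by
        intro k
        induction k with
        | zero =>
          intro c _
          rw [pow_zero, one_mul, mul_one, sub_self, mul_zero, trace_zero, Nat.cast_zero, zero_mul]
        | succ k ihk =>
          intro c hc
          have h1 : y ^ (k + 1) * x - x * y ^ (k + 1) =
              y ^ k * (y * x - x * y) + (y ^ k * x - x * y ^ k) * y := by
            rw [pow_succ]
            noncomm_ring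
          have h2 : (y ^ c * y * x ^ a * (y ^ k * (y * x - x * y))).trace =
              j ⬝ᵥ ((x ^ a * y ^ b) *ᵥ v) := by
            rw [wrd_comm' h, ← mul_assoc, wrd_tr]
            have h3 : wd x y (List.replicate (c + 1) false ++
                (List.replicate a true ++ List.replicate k false)) =
                y ^ c * y * x ^ a * y ^ k := by
              rw [wrd_append, wrd_append, wrd_rep_true, wrd_rep_false, wrd_rep_false, pow_succ]
              noncomm_ring
            have h4 : (List.replicate (c + 1) false ++
                (List.replicate a true ++ List.replicate k false)).Perm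
                (List.replicate a true ++ List.replicate b false) := by
              have h5 : (List.replicate b false : List Bool) =
                  List.replicate (c + 1) false ++ List.replicate k false := by
                rw [← List.replicate_add]
                congr 1
                omega
              rw [h5, ← List.append_assoc, ← List.append_assoc]
              exact List.Perm.append_right _ List.perm_append_comm
            have h5 := wrd_perm h hN h4 [] (by
              simp only [List.length_nil, List.length_append, List.length_replicate]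
              omega)
            rw [List.nil_append, List.nil_append, h3, hw1] at h5
            exact h5
          have h6 : (y ^ c * y * x ^ a * ((y ^ k * x - x * y ^ k) * y)).trace =
              (y ^ (c + 1) * y * x ^ a * (y ^ k * x - x * y ^ k)).trace := by
            rw [← mul_assoc, trace_mul_comm]
            congr 1
            have h7 : y * y ^ c = y ^ c * y := ((Commute.refl y).pow_right c).eq
            rw [pow_succ, ← mul_assoc, ← mul_assoc, ← mul_assoc, h7]
          rw [h1, mul_add, trace_add, h2, h6, ihk (c + 1) (by omega), Nat.cast_succ]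
          ring
      have h8 : ((x * y - y * x) * (x ^ a * y ^ b)).trace = -(j ⬝ᵥ ((x ^ a * y ^ b) *ᵥ v)) := by
        rw [wrd_comm h, neg_mul, trace_neg, trace_mul_comm, wrd_tr]
      have h9 : ((x * y - y * x) * (x ^ a * y ^ b)).trace =
          (y ^ 0 * y * x ^ a * (y ^ b * x - x * y ^ b)).trace := by
        have e1 : (x * y - y * x) * (x ^ a * y ^ b) = x * (y * x ^ a * y ^ b) -
            y * (x * x ^ a) * y ^ b := by noncomm_ring
        have e2 : y ^ 0 * y * x ^ a * (y ^ b * x - x * y ^ b) = y * x ^ a * y ^ b * x -
            y * (x ^ a * x) * y ^ b := by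
          rw [pow_zero]
          noncomm_ring
        have e3 : x * x ^ a = x ^ a * x := ((Commute.refl x).pow_right a).eq
        rw [e1, e2, trace_sub, trace_sub, trace_mul_comm x, e3]
      have h10 := hstep b 0 (by omega)
      rw [← h9, h8] at h10
      have h11 : ((b : R) + 1) * (j ⬝ᵥ ((x ^ a * y ^ b) *ᵥ v)) = 0 := by
        linear_combination (-1 : R) * h10
      have h12 : algebraMap ℂ R ((b : ℂ) + 1)⁻¹ * ((b : R) + 1) = 1 := by
        have h13 : ((b : R) + 1) = algebraMap ℂ R ((b : ℂ) + 1) := by
          rw [map_add, map_natCast, map_one]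
        rw [h13, ← map_mul, inv_mul_cancel₀ (Nat.cast_add_one_ne_zero b), map_one]
      calc j ⬝ᵥ ((x ^ a * y ^ b) *ᵥ v) = (algebraMap ℂ R ((b : ℂ) + 1)⁻¹ * ((b : R) + 1)) *
            (j ⬝ᵥ ((x ^ a * y ^ b) *ᵥ v)) := by rw [h12, one_mul]
        _ = 0 := by rw [mul_assoc, h11, mul_zero]
    intro w hw
    have hp : w.Perm (List.replicate (w.count true) true ++ List.replicate (w.count false) false) := by
      rw [List.perm_replicate_append_replicate (by decide)]
      refine ⟨rfl, rfl, fun b _ => ?_⟩
      cases b
      · exact List.mem_cons_of_mem _ (List.mem_singleton.2 rfl)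
      · exact List.mem_cons_self
    have h1 := wrd_perm h hN hp [] (by
      rw [List.length_nil, zero_add]
      exact hw)
    rw [List.nil_append, List.nil_append, wrd_append, wrd_rep_true, wrd_rep_false] at h1
    rw [h1]
    refine hJ _ _ ?_
    have h2 := hp.length_eq
    rw [List.length_append, List.length_replicate, List.length_replicate] at h2
    omega
  exact fun w => key _ w rfl

end Pool.Agent.ANC
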